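import Mathlib

/-! One-dimensional cellular automata with a random rule: the longest temporal period. -/

open MeasureTheory Filter Topology

namespace RandomCA

/-- One step of the cellular automaton with `r` neighbours and rule `f` over the states
`ℤ_n = {0, ..., n - 1}`: the new state of `x` is `f (ξ (x - r + 1), ..., ξ x)`. -/
def step {n r : ℕ} (f : (Fin r → Fin n) → Fin n) (ξ : ℤ → Fin n) : ℤ → Fin n :=
  fun x => f fun i => ξ (x - (r : ℤ) + 1 + (i : ℤ))

/-- `ξ` (with `ξ t x` the state of `x` at time `t`) is a periodic solution with spatial period `σ`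
and temporal period `τ`. -/
structure IsPS {n r : ℕ} (f : (Fin r → Fin n) → Fin n) (ξ : ℤ → ℤ → Fin n) (σ τ : ℕ) : Prop where
  rule : ∀ t, ξ (t + 1) = step f (ξ t)
  spatial : IsLeast {s : ℕ | 1 ≤ s ∧ ∀ t x, ξ t (x + s) = ξ t x} σ
  temporal : IsLeast {s : ℕ | 1 ≤ s ∧ ∀ t x, ξ (t + s) x = ξ t x} τ

/-- `X_{σ,n}` for the rule `f`: the largest temporal period of a periodic solution with spatial
period `σ`, and `0` if there is none. -/
noncomputable def maxPeriod {n r : ℕ} (f : (Fin r → Fin n) → Fin n) (σ : ℕ) : ℕ :=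
  sSup {τ | ∃ ξ, IsPS f ξ σ τ}

/-- The law of `X_{σ,n} / n^{σ/2}` for a uniformly random rule `f` with `r` neighbours. -/
noncomputable def law (r σ n : ℕ) [NeZero n] : ProbabilityMeasure ℝ :=
  ⟨((PMF.uniformOfFintype ((Fin r → Fin n) → Fin n)).map
    fun f => (maxPeriod f σ : ℝ) / (n : ℝ) ^ ((σ : ℝ) / 2)).toMeasure, inferInstance⟩

end RandomCA
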