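import Mathlib
import Pool.Agent.Lib.MP_eab41b_pr.Defs

/-! Working definitions. -/

open Filter Topology Function

namespace RandomCA

open scoped Classical in
/-- the permutation induced by `g` on its periodic points -/
noncomputable def permP {α : Type*} (g : α → α) : Equiv.Perm (periodicPts g) :=
  Set.BijOn.equiv g (bijOn_periodicPts g)

open scoped Classical in
/-- the number of periodic points of `g` -/
noncomputable def cycN {α : Type*} (g : α → α) : ℕ := Nat.card (periodicPts g)

open scoped Classical in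
/-- the multiset of the cycle lengths (fixed points included) of a permutation -/
noncomputable def lensP {β : Type*} [Finite β] (π : Equiv.Perm β) : Multiset ℕ :=
  letI := Fintype.ofFinite β
  π.partition.parts

/-- the multiset of the lengths of the cycles of `g` -/
noncomputable def lens {α : Type*} [Finite α] (g : α → α) : Multiset ℕ := lensP (permP g)

/-- the largest lcm of `σ` entries of `L` -/
def top (σ : ℕ) (L : Multiset ℕ) : ℕ := ((L.powersetCard σ).map Multiset.lcm).sup

/-- Expectation of `G` for the stick breaking composition of `k`: the first part `a` is uniform on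
`1, ..., k`, the remaining parts are the stick breaking composition of `k - a`. -/
noncomputable def E : ℕ → (List ℕ → ℝ) → ℝ
  | 0, G => G []
  | k + 1, G => (∑ a : Fin (k + 1), E (k - a) fun L => G ((a + 1 : ℕ) :: L)) / (k + 1)
termination_by k => k
decreasing_by omega

/-- sequences of pairs (size, residue) -/
abbrev Sq (W : ℕ) : Type := ℕ → ℝ × ZMod W

/-- put `a` in front of `s` -/
def Sq.cons {W : ℕ} (a : ℝ × ZMod W) (s : Sq W) : Sq W
  | 0 => a
  | i + 1 => s i

/-- multiply all sizes by `c` -/
def Sq.scale {W : ℕ} (c : ℝ) (s : Sq W) : Sq W := fun i => (c * (s i).1, (s i).2)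

/-- all sizes are in `[0, 1]` -/
def Sq.Box {W : ℕ} (s : Sq W) : Prop := ∀ i, 0 ≤ (s i).1 ∧ (s i).1 ≤ 1

/-- the sequence of the parts of `L`, divided by `k`, with their residues -/
noncomputable def seqOf (W k : ℕ) (L : List ℕ) : Sq W :=
  fun i => ((L.getD i 0 : ℝ) / k, (L.getD i 0 : ZMod W))

/-- expectation of `H` for the first `m` parts of the stick breaking composition of `k` -/
noncomputable def eFin {W : ℕ} : ℕ → ℕ → (Sq W → ℝ) → ℝ
  | 0, _, H => H fun _ => (0, 0)
  | m + 1, k, H => if k = 0 then H fun _ => (0, 0) else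
      (∑ a ∈ Finset.Icc 1 k, eFin m (k - a) fun s =>
        H (Sq.cons ((a : ℝ) / k, (a : ZMod W)) (Sq.scale (((k - a : ℕ) : ℝ) / k) s))) / k

/-- expectation of `H` for the first `m` pieces of the stick breaking of `[0, 1]`, with
independent uniform residues -/
noncomputable def eInf {W : ℕ} [NeZero W] : ℕ → (Sq W → ℝ) → ℝ
  | 0, H => H fun _ => (0, 0)
  | m + 1, H => (∑ ρ : ZMod W, ∫ x in (0 : ℝ)..1, eInf m fun s =>
      H (Sq.cons (x, ρ) (Sq.scale (1 - x) s))) / W

/-- `H` is bounded by `B` and Lipschitz with constant `C` in the sizes -/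
def Nice {W : ℕ} (B C : ℝ) (H : Sq W → ℝ) : Prop :=
  (∀ s, s.Box → |H s| ≤ B) ∧ ∀ s s' : Sq W, s.Box → s'.Box → (∀ i, (s i).2 = (s' i).2) →
    ∀ δ : ℝ, (∀ i, |(s i).1 - (s' i).1| ≤ δ) → |H s - H s'| ≤ C * δ

/-- the `i`-th gcd with the modulus -/
def Sq.b {W : ℕ} (s : Sq W) (i : ℕ) : ℕ := Nat.gcd (s i).2.val W

/-- the weight of a set `I` of positions: product of the sizes, times the lcm of the gcds over
their product -/
noncomputable def Sq.wt {W : ℕ} (s : Sq W) (I : Finset ℕ) : ℝ :=
  (∏ i ∈ I, (s i).1) * ((I.lcm s.b : ℕ) / ((∏ i ∈ I, s.b i : ℕ) : ℝ))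

/-- the truncated functional -/
noncomputable def HH (W m σ : ℕ) (hσ : σ ≤ m) (φ : ℝ → ℝ) (s : Sq W) : ℝ :=
  φ (((Finset.range m).powersetCard σ).sup'
    (Finset.powersetCard_nonempty.2 (by simpa using hσ)) fun I => s.wt I)

/-- the largest lcm of `σ` of the first `m` entries of `L` -/
def topm (σ m : ℕ) (L : List ℕ) : ℕ :=
  ((Finset.range m).powersetCard σ).sup fun I => I.lcm fun i => L.getD i 0

/-- the average of `F` over all permutations of `β` -/
noncomputable def avgP {β : Type*} [Finite β] (F : Equiv.Perm β → ℝ) : ℝ :=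
  (∑ᶠ π, F π) / ((Nat.card β).factorial : ℝ)

/-- the weight of a multiset of cycle lengths -/
noncomputable def wtM (L : Multiset ℕ) : ℝ :=
  ((L.prod * ∏ i ∈ L.toFinset, (L.count i).factorial : ℕ) : ℝ)⁻¹

/-- probability that the random map of `n` points has at least `k` periodic points -/
noncomputable def pp (n k : ℕ) : ℝ := (n.descFactorial k : ℝ) / (n : ℝ) ^ k

end RandomCA
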