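import Mathlib
import Pool.Agent.Lib.MP_eab41b_pr.Base

/-! Row R0c. -/

open MeasureTheory Filter Topology Function
open scoped NNReal

namespace RandomCA

/-- R0c -/
theorem exists_limit (μ : ℕ → ProbabilityMeasure ℝ)
    (h0 : ∀ n, (μ n : Measure ℝ) {x | x < 0} = 0)
    (htight : ∀ ε : ℝ, 0 < ε → ∃ A : ℝ, ∀ n, ((μ n : Measure ℝ) {x | A < x}).toReal ≤ ε)
    (hconv : ∀ φ : ℝ → ℝ, (∃ B, ∀ x, |φ x| ≤ B) → (∃ K, LipschitzWith K φ) →
      ∃ l, Tendsto (fun n => ∫ x, φ x ∂(μ n : Measure ℝ)) atTop (𝓝 l)) :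
    ∃ ν : ProbabilityMeasure ℝ, Tendsto μ atTop (𝓝 ν) := by
  have h_tight : IsTightMeasureSet {((ρ : ProbabilityMeasure ℝ) : Measure ℝ) | ρ ∈ Set.range μ} := by
    rw [isTightMeasureSet_iff_exists_isCompact_measure_compl_le]
    intro ε hε
    obtain ⟨δ, hδ, hδε⟩ : ∃ δ : ℝ, 0 < δ ∧ ENNReal.ofReal δ ≤ ε := by
      rcases eq_or_ne ε ⊤ with h | h
      · exact ⟨1, one_pos, by rw [h]; exact le_top⟩
      · exact ⟨ε.toReal, ENNReal.toReal_pos hε.ne' h, by rw [ENNReal.ofReal_toReal h]⟩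
    obtain ⟨A, hA⟩ := htight δ hδ
    refine ⟨Set.Icc 0 A, isCompact_Icc, ?_⟩
    rintro _ ⟨_, ⟨n, rfl⟩, rfl⟩
    have hsub : (Set.Icc 0 A)ᶜ ⊆ {x : ℝ | x < 0} ∪ {x | A < x} := by
      intro x hx
      simp only [Set.mem_compl_iff, Set.mem_Icc, not_and_or, not_le] at hx
      exact hx
    calc (μ n : Measure ℝ) (Set.Icc 0 A)ᶜ ≤ (μ n : Measure ℝ) ({x : ℝ | x < 0} ∪ {x | A < x}) :=
          measure_mono hsub
      _ ≤ (μ n : Measure ℝ) {x : ℝ | x < 0} + (μ n : Measure ℝ) {x | A < x} := measure_union_le _ _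
      _ = (μ n : Measure ℝ) {x | A < x} := by rw [h0, zero_add]
      _ = ENNReal.ofReal ((μ n : Measure ℝ) {x | A < x}).toReal := by
          rw [ENNReal.ofReal_toReal (measure_ne_top _ _)]
      _ ≤ ENNReal.ofReal δ := ENNReal.ofReal_le_ofReal (hA n)
      _ ≤ ε := hδε
  have h_compact : IsCompact (closure (Set.range μ)) := isCompact_closure_of_isTightMeasureSet h_tight
  obtain ⟨ν, -, hν⟩ := h_compact.ultrafilter_le_nhds ((hyperfilter ℕ).map μ)
    (le_trans (by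
      rw [le_principal_iff]
      exact Filter.mem_map.mpr (Filter.univ_mem' fun n => Set.mem_range_self n))
      (principal_mono.mpr subset_closure))
  refine ⟨ν, ?_⟩
  rw [tendsto_iff_forall_lipschitz_integral_tendsto]
  intro φ hb hL
  have hB : ∃ B, ∀ x, |φ x| ≤ B := by
    obtain ⟨C, hC⟩ := hb
    refine ⟨C + |φ 0|, fun x => ?_⟩
    have h1 := hC x 0
    rw [Real.dist_eq] at h1
    have h2 := abs_sub_abs_le_abs_sub (φ x) (φ 0)
    linarith
  obtain ⟨l, hl⟩ := hconv φ hB hL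
  have h1 : Tendsto μ (hyperfilter ℕ) (𝓝 ν) := hν
  have h2 : Tendsto (fun n => ∫ x, φ x ∂(μ n : Measure ℝ)) (hyperfilter ℕ) (𝓝 (∫ x, φ x ∂(ν : Measure ℝ))) := by
    obtain ⟨K, hK⟩ := hL
    obtain ⟨B, hB⟩ := hB
    rw [ProbabilityMeasure.tendsto_iff_forall_integral_tendsto] at h1
    exact h1 (BoundedContinuousFunction.ofNormedAddCommGroup φ hK.continuous B (fun x => by
      rw [Real.norm_eq_abs]; exact hB x))
  have h3 : Tendsto (fun n => ∫ x, φ x ∂(μ n : Measure ℝ)) (hyperfilter ℕ) (𝓝 l) :=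
    hl.mono_left (by rw [← Nat.cofinite_eq_atTop]; exact hyperfilter_le_cofinite)
  rw [tendsto_nhds_unique h2 h3]
  exact hl

/-- R0d -/
theorem conv_of_approx (u : ℕ → ℝ) (h : ∀ ε : ℝ, 0 < ε → ∃ c : ℕ → ℝ,
    (∃ l, Tendsto c atTop (𝓝 l)) ∧ ∀ᶠ n in atTop, |u n - c n| ≤ ε) :
    ∃ l, Tendsto u atTop (𝓝 l) := by
  apply cauchySeq_tendsto_of_complete
  rw [Metric.cauchySeq_iff]
  intro ε hε
  obtain ⟨c, ⟨l, hl⟩, hc⟩ := h (ε / 8) (by linarith)
  rw [Metric.tendsto_atTop] at hl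
  obtain ⟨N1, h1⟩ := hl (ε / 8) (by linarith)
  obtain ⟨N2, h2⟩ := eventually_atTop.mp hc
  have key : ∀ n, max N1 N2 ≤ n → |u n - l| ≤ ε / 4 := by
    intro n hn
    have h3 := h1 n ((le_max_left _ _).trans hn)
    have h4 := h2 n ((le_max_right _ _).trans hn)
    rw [Real.dist_eq] at h3
    have h5 : u n - l = (u n - c n) + (c n - l) := by ring
    rw [h5]
    refine (abs_add_le _ _).trans ?_
    linarith
  refine ⟨max N1 N2, fun m hm n hn => ?_⟩
  have h6 := key m hm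
  have h7 := key n hn
  rw [Real.dist_eq]
  have h8 : u m - u n = (u m - l) - (u n - l) := by ring
  rw [h8]
  refine lt_of_le_of_lt (abs_sub _ _) ?_
  linarith

end RandomCA
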