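import Mathlib
import Pool.Agent.Lib.MP_eab41b_pr.Base

/-! Row R0. -/

open MeasureTheory Filter Topology Function
open scoped NNReal

namespace RandomCA

private theorem integral_map_unif {α : Type*} [Fintype α] [Nonempty α] (v : α → ℝ) (φ : ℝ → ℝ)
    (hφ : Continuous φ) :
    ∫ x, φ x ∂((PMF.uniformOfFintype α).map v).toMeasure =
      (∑ a, φ (v a)) / (Fintype.card α : ℝ) := by
  let _ : MeasurableSpace α := ⊤
  have hv : Measurable v := measurable_from_top
  rw [← PMF.toMeasure_map _ (PMF.uniformOfFintype α) hv, integral_map hv.aemeasurable hφ.aestronglyMeasurable,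
    PMF.integral_eq_sum, Finset.sum_div]
  refine Finset.sum_congr rfl fun a _ => ?_
  rw [PMF.uniformOfFintype_apply, ENNReal.toReal_inv, ENNReal.toReal_natCast, smul_eq_mul,
    mul_comm, div_eq_mul_inv]

private theorem map_unif_apply {α : Type*} [Fintype α] [Nonempty α] (v : α → ℝ) (S : Set ℝ)
    (hS : MeasurableSet S) :
    (((PMF.uniformOfFintype α).map v).toMeasure S).toReal =
      (Nat.card {a // v a ∈ S} : ℝ) / (Fintype.card α : ℝ) := by
  classical
  let _ : MeasurableSpace α := ⊤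
  have hv : Measurable v := measurable_from_top
  rw [PMF.toMeasure_map_apply _ _ _ hv hS,
    PMF.toMeasure_uniformOfFintype_apply _ (hv hS), ENNReal.toReal_div, ENNReal.toReal_natCast,
    ENNReal.toReal_natCast, Nat.card_eq_fintype_card]
  rfl

/-- R0a -/
theorem integral_law (r σ n : ℕ) [NeZero n] (φ : ℝ → ℝ) (hφ : Continuous φ)
    (hB : ∃ B, ∀ x, |φ x| ≤ B) :
    ∫ x, φ x ∂(law r σ n : Measure ℝ) =
      (∑ f : (Fin r → Fin n) → Fin n, φ ((maxPeriod f σ : ℝ) / (n : ℝ) ^ ((σ : ℝ) / 2))) /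
        (Fintype.card ((Fin r → Fin n) → Fin n) : ℝ) :=
  integral_map_unif (fun f : (Fin r → Fin n) → Fin n =>
    (maxPeriod f σ : ℝ) / (n : ℝ) ^ ((σ : ℝ) / 2)) φ hφ

/-- R0b -/
theorem law_apply (r σ n : ℕ) [NeZero n] (S : Set ℝ) (hS : MeasurableSet S) :
    ((law r σ n : Measure ℝ) S).toReal =
      (Nat.card {f : (Fin r → Fin n) → Fin n //
        (maxPeriod f σ : ℝ) / (n : ℝ) ^ ((σ : ℝ) / 2) ∈ S} : ℝ) /
        (Fintype.card ((Fin r → Fin n) → Fin n) : ℝ) :=
  map_unif_apply (fun f : (Fin r → Fin n) → Fin n =>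
    (maxPeriod f σ : ℝ) / (n : ℝ) ^ ((σ : ℝ) / 2)) S hS

end RandomCA
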