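import Mathlib
import Pool.Agent.Lib.MP_eab41b_pr.Base

/-! Row R1a. -/

open MeasureTheory Filter Topology Function
open scoped NNReal

namespace RandomCA

private lemma r1a_least {m τ : ℕ} (hm : 1 ≤ m) : IsLeast {s : ℕ | 1 ≤ s ∧ m ∣ s} τ ↔ τ = m := by
  constructor
  · rintro ⟨⟨h1, h2⟩, h3⟩
    exact le_antisymm (h3 ⟨hm, dvd_rfl⟩) (Nat.le_of_dvd h1 h2)
  · rintro rfl
    exact ⟨⟨hm, dvd_rfl⟩, fun s hs => Nat.le_of_dvd hs.1 hs.2⟩

private lemma r1a_step {n : ℕ} (f : (Fin 1 → Fin n) → Fin n) (η : ℤ → Fin n) (x : ℤ) :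
    step f η x = f fun _ => η x := by
  unfold step
  congr 1
  funext i
  have hi : ((i : ℕ) : ℤ) = 0 := by
    have := i.isLt
    have h0 : (i : ℕ) = 0 := by omega
    rw [h0]
    rfl
  rw [hi]
  congr 1
  push_cast
  ring

private lemma r1a_iter {n : ℕ} {g : Fin n → Fin n} {ξ : ℤ → ℤ → Fin n}
    (h : ∀ t x, ξ (t + 1) x = g (ξ t x)) (s : ℕ) (t x : ℤ) : ξ (t + s) x = g^[s] (ξ t x) := by
  induction s with
  | zero => simp
  | succ s ih =>
    rw [Function.iterate_succ_apply', ← ih, ← h]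
    congr 1
    push_cast
    ring

private lemma r1a_lcm {n : ℕ} {g : Fin n → Fin n} {v : ℤ → Fin n} {σ : ℕ} (hσ : 1 ≤ σ)
    (hv : ∀ x, v (x + σ) = v x) (s : ℕ) :
    (∀ x, IsPeriodicPt g s (v x)) ↔ ((Finset.range σ).lcm fun i => minimalPeriod g (v i)) ∣ s := by
  rw [Finset.lcm_dvd_iff]
  have hz : ∀ (m : ℤ) (x : ℤ), v (x + m * σ) = v x := by
    intro m
    induction m using Int.induction_on with
    | zero => intro x; simp
    | succ i ih =>
      intro x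
      have h1 : x + ((i : ℤ) + 1) * σ = (x + i * σ) + σ := by ring
      rw [h1, hv, ih]
    | pred i ih =>
      intro x
      have h1 := hv (x + (-(i : ℤ) - 1) * σ)
      rw [← h1]
      have h2 : x + (-(i : ℤ) - 1) * σ + σ = x + -(i : ℤ) * σ := by ring
      rw [h2, ih]
  constructor
  · intro h i _
    exact (h i).minimalPeriod_dvd
  · intro h x
    have hσ0 : (0 : ℤ) < σ := by exact_mod_cast hσ
    have h1 : v x = v ((x % σ).toNat : ℤ) := by
      have h2 : ((x % σ).toNat : ℤ) = x % σ := Int.toNat_of_nonneg (Int.emod_nonneg _ hσ0.ne')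
      rw [h2, ← hz (x / σ) (x % σ)]
      congr 1
      have := Int.emod_add_mul_ediv x σ
      rw [mul_comm (x / (σ : ℤ)) (σ : ℤ)]
      exact this.symm
    have h3 : (x % σ).toNat < σ := by
      have := Int.emod_lt_of_pos x hσ0
      omega
    rw [h1, isPeriodicPt_iff_minimalPeriod_dvd]
    exact h _ (Finset.mem_range.2 h3)

private lemma r1a_iff {n : ℕ} {f : (Fin 1 → Fin n) → Fin n} {ξ : ℤ → ℤ → Fin n} {σ τ : ℕ} (hσ : 1 ≤ σ)
    (hrule : ∀ t x, ξ (t + 1) x = f fun _ => ξ t x)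
    (hP : ∀ t, ∃ m : ℕ, ∀ x, ξ t x = (fun a => f fun _ => a)^[m] (ξ 0 x))
    (hper : ∀ x, ξ 0 x ∈ periodicPts fun a => f fun _ => a) :
    IsPS f ξ σ τ ↔ IsLeast {s : ℕ | 1 ≤ s ∧ ∀ x, ξ 0 (x + s) = ξ 0 x} σ ∧
      τ = (Finset.range σ).lcm fun i => minimalPeriod (fun a => f fun _ => a) (ξ 0 i) := by
  set g : Fin n → Fin n := fun a => f fun _ => a with hg
  have ha : ∀ s : ℕ, (∀ t x, ξ t (x + s) = ξ t x) ↔ ∀ x, ξ 0 (x + s) = ξ 0 x := by
    intro s
    refine ⟨fun h => h 0, fun h t x => ?_⟩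
    obtain ⟨m, hm⟩ := hP t
    rw [hm, hm, h]
  have hb : ∀ s : ℕ, (∀ t x, ξ (t + s) x = ξ t x) ↔ ∀ x, IsPeriodicPt g s (ξ 0 x) := by
    intro s
    constructor
    · intro h x
      have h1 := r1a_iter (g := g) hrule s 0 x
      rw [h] at h1
      exact h1.symm
    · intro h t x
      obtain ⟨m, hm⟩ := hP t
      rw [r1a_iter (g := g) hrule s t x, hm, ← Function.iterate_add_apply, add_comm,
        Function.iterate_add_apply, (h x).eq]
  have hset1 : {s : ℕ | 1 ≤ s ∧ ∀ t x, ξ t (x + s) = ξ t x} =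
      {s : ℕ | 1 ≤ s ∧ ∀ x, ξ 0 (x + s) = ξ 0 x} := by
    ext s
    simp only [Set.mem_ofPred_eq, ha]
  have hpos : 1 ≤ (Finset.range σ).lcm fun i : ℕ => minimalPeriod g (ξ 0 i) := by
    rw [Nat.one_le_iff_ne_zero, Ne, Finset.lcm_eq_zero_iff]
    rintro ⟨i, -, hi⟩
    exact (minimalPeriod_pos_of_mem_periodicPts (hper i)).ne' hi
  constructor
  · rintro ⟨h1, h2, h3⟩
    rw [hset1] at h2
    refine ⟨h2, ?_⟩
    have hset2 : {s : ℕ | 1 ≤ s ∧ ∀ t x, ξ (t + s) x = ξ t x} =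
        {s : ℕ | 1 ≤ s ∧ ((Finset.range σ).lcm fun i : ℕ => minimalPeriod g (ξ 0 i)) ∣ s} := by
      ext s
      simp only [Set.mem_ofPred_eq]
      rw [hb, r1a_lcm hσ h2.1.2]
    rw [hset2] at h3
    exact (r1a_least hpos).1 h3
  · rintro ⟨h2, h3⟩
    refine ⟨fun t => ?_, ?_, ?_⟩
    · funext x
      rw [hrule, r1a_step]
    · rw [hset1]
      exact h2
    · have hset2 : {s : ℕ | 1 ≤ s ∧ ∀ t x, ξ (t + s) x = ξ t x} =
          {s : ℕ | 1 ≤ s ∧ ((Finset.range σ).lcm fun i : ℕ => minimalPeriod g (ξ 0 i)) ∣ s} := by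
        ext s
        simp only [Set.mem_ofPred_eq]
        rw [hb, r1a_lcm hσ h2.1.2]
      rw [hset2]
      exact (r1a_least hpos).2 h3

/-- R1a -/
theorem exists_PS_iff {n : ℕ} (f : (Fin 1 → Fin n) → Fin n) (σ τ : ℕ) (hσ : 1 ≤ σ) :
    (∃ ξ, IsPS f ξ σ τ) ↔
      ∃ v : ℤ → Fin n, (∀ x, v x ∈ periodicPts fun a => f fun _ => a) ∧
        IsLeast {s : ℕ | 1 ≤ s ∧ ∀ x, v (x + s) = v x} σ ∧
        τ = (Finset.range σ).lcm fun i => minimalPeriod (fun a => f fun _ => a) (v i) := by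
  set g : Fin n → Fin n := fun a => f fun _ => a with hg
  constructor
  · rintro ⟨ξ, hξ⟩
    have hrule : ∀ t x, ξ (t + 1) x = f fun _ => ξ t x := by
      intro t x
      rw [hξ.rule, r1a_step]
    have hit := r1a_iter (g := g) hrule
    have hτ : 1 ≤ τ := hξ.temporal.1.1
    have hτ0 : (0 : ℤ) < τ := by exact_mod_cast hτ
    have hpt : ∀ t x, ξ (t + τ) x = ξ t x := hξ.temporal.1.2
    have hper : ∀ x, ξ 0 x ∈ periodicPts g := by
      intro x
      refine ⟨τ, hτ, ?_⟩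
      have h1 := hit τ 0 x
      rw [hpt] at h1
      exact h1.symm
    have hz : ∀ (m : ℤ) (t x : ℤ), ξ (t + m * τ) x = ξ t x := by
      intro m
      induction m using Int.induction_on with
      | zero => intro t x; simp
      | succ i ih =>
        intro t x
        have h1 : t + ((i : ℤ) + 1) * τ = (t + i * τ) + τ := by ring
        rw [h1, hpt, ih]
      | pred i ih =>
        intro t x
        have h1 := hpt (t + (-(i : ℤ) - 1) * τ) x
        rw [← h1]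
        have h2 : t + (-(i : ℤ) - 1) * τ + τ = t + -(i : ℤ) * τ := by ring
        rw [h2, ih]
    have hP : ∀ t, ∃ m : ℕ, ∀ x, ξ t x = g^[m] (ξ 0 x) := by
      intro t
      refine ⟨(t % τ).toNat, fun x => ?_⟩
      rw [← hit, zero_add, Int.toNat_of_nonneg (Int.emod_nonneg _ hτ0.ne'), ← hz (t / τ) (t % τ)]
      congr 1
      have := Int.emod_add_mul_ediv t τ
      rw [mul_comm (t / (τ : ℤ)) (τ : ℤ)]
      exact this.symm
    obtain ⟨h1, h2⟩ := (r1a_iff hσ hrule hP hper).1 hξ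
    exact ⟨ξ 0, hper, h1, h2⟩
  · rintro ⟨v, hper, h1, h2⟩
    let π := permP g
    have hπ : ∀ y : periodicPts g, ((π y : periodicPts g) : Fin n) = g y := fun y => rfl
    let ξ : ℤ → ℤ → Fin n := fun t x => ((π ^ t) ⟨v x, hper x⟩ : periodicPts g)
    have hξ0 : ξ 0 = v := by
      funext x
      show (((π ^ (0 : ℤ)) ⟨v x, hper x⟩ : periodicPts g) : Fin n) = v x
      rw [zpow_zero]
      rfl
    have hrule : ∀ t x, ξ (t + 1) x = f fun _ => ξ t x := by
      intro t x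
      show (((π ^ (t + 1)) ⟨v x, hper x⟩ : periodicPts g) : Fin n) = g (((π ^ t) ⟨v x, hper x⟩ : periodicPts g))
      rw [add_comm, zpow_add, zpow_one, Equiv.Perm.mul_apply, hπ]
    have hit := r1a_iter (g := g) hrule
    have hP : ∀ t, ∃ m : ℕ, ∀ x, ξ t x = g^[m] (ξ 0 x) := by
      intro t
      have ho : (0 : ℤ) < orderOf π := by exact_mod_cast orderOf_pos π
      refine ⟨(t % orderOf π).toNat, fun x => ?_⟩
      rw [← hit, zero_add, Int.toNat_of_nonneg (Int.emod_nonneg _ ho.ne')]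
      show (((π ^ t) ⟨v x, hper x⟩ : periodicPts g) : Fin n) =
        (((π ^ (t % (orderOf π : ℤ))) ⟨v x, hper x⟩ : periodicPts g) : Fin n)
      rw [zpow_mod_orderOf]
    have hper' : ∀ x, ξ 0 x ∈ periodicPts g := by
      rw [hξ0]
      exact hper
    refine ⟨ξ, (r1a_iff hσ hrule hP hper').2 ?_⟩
    rw [hξ0]
    exact ⟨h1, h2⟩

end RandomCA
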