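import Mathlib
import Pool.Agent.Lib.MP_eab41b_pr.Base

/-! Row R1b. -/

open MeasureTheory Filter Topology Function
open scoped NNReal

namespace RandomCA

theorem R1b_minimalPeriod_eq {β : Type*} [Fintype β] [DecidableEq β] (π : Equiv.Perm β) (x : β)
    (hx : π x ≠ x) : minimalPeriod π x = (π.cycleOf x).support.card := by
  have hc : (π.cycleOf x).IsCycle := Equiv.Perm.isCycle_cycleOf π hx
  rw [← hc.orderOf, orderOf, minimalPeriod_eq_minimalPeriod_iff]
  intro n
  rw [isPeriodicPt_mul_iff_pow_eq_one, hc.pow_eq_one_iff' (x := x)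
    (by rwa [Equiv.Perm.cycleOf_apply_self]), Equiv.Perm.cycleOf_pow_apply_self]
  rw [IsPeriodicPt, IsFixedPt, ← Equiv.Perm.coe_pow]

theorem R1b_minimalPeriod_congr {β : Type*} [Finite β] (π : Equiv.Perm β) {x y : β}
    (h : π.SameCycle x y) : minimalPeriod π x = minimalPeriod π y := by
  obtain ⟨n, hn⟩ := h.exists_nat_pow_eq
  have hx : x ∈ periodicPts π := π.injective.mem_periodicPts x
  rw [← hn, Equiv.Perm.coe_pow, minimalPeriod_apply_iterate hx]

theorem R1b_out {β : Type*} (π : Equiv.Perm β) (x : β) :
    π.SameCycle (Quotient.mk (Equiv.Perm.SameCycle.setoid π) x).out x :=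
  @Quotient.mk_out _ (Equiv.Perm.SameCycle.setoid π) x

open scoped Classical in
theorem R1b_lensP {β : Type*} [Finite β] (π : Equiv.Perm β)
    [Fintype (Quotient (Equiv.Perm.SameCycle.setoid π))] :
    lensP π = (Finset.univ : Finset (Quotient (Equiv.Perm.SameCycle.setoid π))).val.map
      fun q => minimalPeriod π q.out := by
  let _ := Fintype.ofFinite β
  have h0 : lensP π = π.cycleType + Multiset.replicate (Fintype.card β - π.support.card) 1 := by
    rw [lensP]
    exact Equiv.Perm.parts_partition
  rw [h0]
  set S : Finset (Quotient (Equiv.Perm.SameCycle.setoid π)) :=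
    Finset.univ.filter fun q => π q.out ≠ q.out with hS
  set T : Finset (Quotient (Equiv.Perm.SameCycle.setoid π)) :=
    Finset.univ.filter fun q => ¬ π q.out ≠ q.out with hT
  have hST : (Finset.univ : Finset (Quotient (Equiv.Perm.SameCycle.setoid π))).val = S.val + T.val := by
    rw [hS, hT, Finset.filter_val, Finset.filter_val, Multiset.filter_add_not]
  rw [hST, Multiset.map_add]
  congr 1
  · have hinj : Set.InjOn (fun q : Quotient (Equiv.Perm.SameCycle.setoid π) => π.cycleOf q.out) S := by
      intro q hq q' hq' h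
      have h1 : q'.out ∈ (π.cycleOf q.out).support := by
        have h2 : q'.out ∈ (π.cycleOf q'.out).support := by
          rw [Equiv.Perm.mem_support_cycleOf_iff]
          exact ⟨Equiv.Perm.SameCycle.refl _ _, by
            rw [Equiv.Perm.mem_support]; exact (Finset.mem_filter.1 hq').2⟩
        simpa only [h] using h2
      rw [Equiv.Perm.mem_support_cycleOf_iff] at h1
      have h3 : (⟦q.out⟧ : Quotient (Equiv.Perm.SameCycle.setoid π)) = ⟦q'.out⟧ :=
        Quotient.sound h1.1
      simpa using h3
    have himg : π.cycleFactorsFinset = S.image fun q => π.cycleOf q.out := by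
      ext c
      rw [Finset.mem_image]
      constructor
      · intro hc
        have hc' := Equiv.Perm.mem_cycleFactorsFinset_iff.1 hc
        obtain ⟨x, hx⟩ := hc'.1.nonempty_support
        have hcx : c = π.cycleOf x := Equiv.Perm.cycle_is_cycleOf hx hc
        have hsc : π.SameCycle (Quotient.mk (Equiv.Perm.SameCycle.setoid π) x).out x :=
          R1b_out π x
        have hxs : x ∈ π.support := Equiv.Perm.mem_cycleFactorsFinset_support_le hc hx
        refine ⟨Quotient.mk _ x, ?_, ?_⟩
        · rw [hS, Finset.mem_filter]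
          refine ⟨Finset.mem_univ _, ?_⟩
          rw [← Equiv.Perm.mem_support]
          exact hsc.mem_support_iff.2 hxs
        · rw [hcx]
          exact hsc.cycleOf_eq
      · rintro ⟨q, hq, rfl⟩
        rw [Equiv.Perm.cycleOf_mem_cycleFactorsFinset_iff, Equiv.Perm.mem_support]
        exact (Finset.mem_filter.1 hq).2
    rw [Equiv.Perm.cycleType_def, himg, Finset.image_val_of_injOn hinj, Multiset.map_map]
    refine Multiset.map_congr rfl fun q hq => ?_
    rw [R1b_minimalPeriod_eq π q.out (Finset.mem_filter.1 hq).2]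
    rfl
  · have hmap : T.val.map (fun q => minimalPeriod π q.out) = T.val.map fun _ => 1 := by
      refine Multiset.map_congr rfl fun q hq => ?_
      rw [minimalPeriod_eq_one_iff_isFixedPt]
      exact not_not.1 (Finset.mem_filter.1 hq).2
    rw [hmap, Multiset.map_const']
    congr 1
    have h1 : Fintype.card β - π.support.card = (π.supportᶜ).card := by
      rw [Finset.card_compl]
    rw [h1]
    symm
    refine Finset.card_bij (fun q _ => q.out) ?_ ?_ ?_
    · intro q hq
      rw [Finset.mem_compl, Equiv.Perm.mem_support]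
      exact (Finset.mem_filter.1 hq).2
    · intro q _ q' _ h
      exact Quotient.out_injective h
    · intro x hx
      rw [Finset.mem_compl, Equiv.Perm.mem_support] at hx
      have hsc : π.SameCycle (Quotient.mk (Equiv.Perm.SameCycle.setoid π) x).out x :=
        R1b_out π x
      have hfix : IsFixedPt π x := not_not.1 hx
      have h2 : (Quotient.mk (Equiv.Perm.SameCycle.setoid π) x).out = x :=
        (Equiv.Perm.SameCycle.eq_of_right hsc hfix)
      refine ⟨Quotient.mk _ x, ?_, h2⟩
      rw [hT, Finset.mem_filter, h2]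
      exact ⟨Finset.mem_univ _, hx⟩

theorem R1b_sup_mem (s : Multiset ℕ) (h : s.sup ≠ 0) : s.sup ∈ s := by
  induction s using Multiset.induction with
  | empty => simp at h
  | cons a s ih =>
    rw [Multiset.sup_cons] at h ⊢
    rcases le_total s.sup a with h1 | h1
    · rw [sup_eq_left.2 h1]
      exact Multiset.mem_cons_self _ _
    · rw [sup_eq_right.2 h1] at h ⊢
      exact Multiset.mem_cons_of_mem (ih h)

/-- R1b -/
theorem le_top_lensP {β : Type*} [Finite β] (π : Equiv.Perm β) (σ : ℕ) (w : Fin σ → β)
    (hw : ∀ i j, i ≠ j → ¬ π.SameCycle (w i) (w j)) :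
    (Finset.univ.lcm fun i => minimalPeriod π (w i)) ≤ top σ (lensP π) := by
  classical
  let _ := Fintype.ofFinite (Quotient (Equiv.Perm.SameCycle.setoid π))
  rw [top, R1b_lensP, Multiset.powersetCard_map, Multiset.map_map]
  refine Multiset.le_sup (Multiset.mem_map.2
    ⟨(Finset.univ : Finset (Fin σ)).val.map fun i =>
      (Quotient.mk (Equiv.Perm.SameCycle.setoid π) (w i)), ?_, ?_⟩)
  · rw [Multiset.mem_powersetCard]
    refine ⟨?_, ?_⟩
    · rw [Multiset.le_iff_subset]
      · intro q _
        exact Finset.mem_univ q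
      · refine Multiset.Nodup.map_on ?_ Finset.univ.nodup
        intro i _ j _ hij
        by_contra hne
        exact hw i j hne (Quotient.exact hij)
    · simp
  · rw [Function.comp_apply, Multiset.map_map, Finset.lcm_def]
    congr 1
    refine Multiset.map_congr rfl fun i _ => ?_
    exact R1b_minimalPeriod_congr π (R1b_out π (w i))

/-- R1c -/
theorem exists_top_lensP {β : Type*} [Finite β] (π : Equiv.Perm β) (σ : ℕ)
    (h : top σ (lensP π) ≠ 0) :
    ∃ w : Fin σ → β, (∀ i j, i ≠ j → ¬ π.SameCycle (w i) (w j)) ∧
      (Finset.univ.lcm fun i => minimalPeriod π (w i)) = top σ (lensP π) := by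
  classical
  let _ := Fintype.ofFinite (Quotient (Equiv.Perm.SameCycle.setoid π))
  have h1 := R1b_sup_mem _ h
  obtain ⟨t, ht, hlcm⟩ := Multiset.mem_map.1 h1
  rw [R1b_lensP, Multiset.powersetCard_map] at ht
  obtain ⟨u, hu, rfl⟩ := Multiset.mem_map.1 ht
  rw [Multiset.mem_powersetCard] at hu
  have hnd : u.Nodup := Multiset.nodup_of_le hu.1 Finset.univ.nodup
  obtain ⟨l, rfl⟩ := Quot.exists_rep u
  have hl : l.length = σ := by simpa using hu.2
  have hlnd : l.Nodup := by simpa using hnd
  subst hl
  refine ⟨fun i => (l.get i).out, ?_, ?_⟩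
  · intro i j hij hsc
    apply hij
    have h2 : (Quotient.mk (Equiv.Perm.SameCycle.setoid π) (l.get i).out)
        = Quotient.mk _ (l.get j).out := Quotient.sound hsc
    rw [Quotient.out_eq, Quotient.out_eq] at h2
    exact hlnd.injective_get h2
  · rw [top, ← hlcm, Finset.lcm_def]
    congr 1
    have h3 : (Finset.univ : Finset (Fin l.length)).val.map (fun i => l.get i) = (l : Multiset _) := by
      rw [Fin.univ_val_map, List.ofFn_get]
    conv_rhs => rw [show (Quot.mk _ l : Multiset _) = (l : Multiset _) from rfl, ← h3]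
    rw [Multiset.map_map]
    rfl

end RandomCA
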