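import Mathlib
import Pool.Agent.Lib.MP_eab41b_pr.R1a
import Pool.Agent.Lib.MP_eab41b_pr.R1b

/-! Row R1d. -/

open MeasureTheory Filter Topology Function
open scoped NNReal

namespace RandomCA

namespace R1d

lemma permP_coe {α : Type*} (g : α → α) (x : periodicPts g) : ((permP g x : periodicPts g) : α) = g x := rfl

lemma permP_iterate {α : Type*} (g : α → α) (x : periodicPts g) (k : ℕ) :
    (((permP g)^[k] x : periodicPts g) : α) = g^[k] x := by
  induction k with
  | zero => rfl
  | succ k ih => rw [Function.iterate_succ_apply', Function.iterate_succ_apply', permP_coe, ih]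

lemma minimalPeriod_permP {α : Type*} (g : α → α) (x : periodicPts g) :
    minimalPeriod (permP g) x = minimalPeriod g (x : α) := by
  refine minimalPeriod_eq_minimalPeriod_iff.2 fun k => ?_
  rw [IsPeriodicPt, IsPeriodicPt, IsFixedPt, IsFixedPt, ← permP_iterate, Subtype.ext_iff]

lemma minimalPeriod_sameCycle {β : Type*} [Finite β] (π : Equiv.Perm β) {x y : β}
    (h : π.SameCycle x y) : minimalPeriod π x = minimalPeriod π y := by
  obtain ⟨k, hk⟩ := h.exists_nat_pow_eq
  have hx : x ∈ periodicPts π := π.injective.mem_periodicPts x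
  rw [← hk, ← minimalPeriod_apply_iterate hx k]
  rfl

lemma minPeriod_le {α : Type*} [Finite α] (g : α → α) (x : periodicPts g) :
    minimalPeriod g (x : α) ≤ cycN g := by
  rw [← minimalPeriod_permP, cycN]
  let := Fintype.ofFinite (periodicPts g)
  rw [Nat.card_eq_fintype_card]
  exact minimalPeriod_le_card

lemma minPeriod_pos {α : Type*} (g : α → α) (x : periodicPts g) :
    0 < minimalPeriod g (x : α) := minimalPeriod_pos_of_mem_periodicPts x.2

end R1d

open R1d in
/-- R1d -/
theorem maxPeriod_bounds {n : ℕ} (f : (Fin 1 → Fin n) → Fin n) (σ : ℕ) (hσ : 1 ≤ σ) :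
    top σ (lens fun a => f fun _ => a) ≤ maxPeriod f σ ∧
      maxPeriod f σ ≤ max (top σ (lens fun a => f fun _ => a))
        (cycN (fun a => f fun _ => a) ^ (σ - 1)) := by
  set g : Fin n → Fin n := fun a => f fun _ => a with hg
  -- the bound for a general solution
  have key : ∀ v : ℤ → Fin n, (∀ x, v x ∈ periodicPts g) →
      ((Finset.range σ).lcm fun i => minimalPeriod g (v i)) ≤
        max (top σ (lens g)) (cycN g ^ (σ - 1)) := by
    intro v hv
    set w : Fin σ → periodicPts g := fun i => ⟨v i, hv i⟩ with hw
    have heq : ((Finset.range σ).lcm fun i => minimalPeriod g (v i)) =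
        Finset.univ.lcm fun i : Fin σ => minimalPeriod (permP g) (w i) := by
      apply Nat.dvd_antisymm
      · refine Finset.lcm_dvd fun i hi => ?_
        rw [Finset.mem_range] at hi
        have := Finset.dvd_lcm (f := fun i : Fin σ => minimalPeriod (permP g) (w i))
          (Finset.mem_univ ⟨i, hi⟩)
        simpa [minimalPeriod_permP, hw] using this
      · refine Finset.lcm_dvd fun i _ => ?_
        have := Finset.dvd_lcm (f := fun i : ℕ => minimalPeriod g (v i))
          (Finset.mem_range.2 i.2)
        simpa [minimalPeriod_permP, hw] using this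
    rw [heq]
    by_cases hc : ∀ i j, i ≠ j → ¬ (permP g).SameCycle (w i) (w j)
    · exact le_max_of_le_left (le_top_lensP (permP g) σ w hc)
    · push Not at hc
      obtain ⟨i, j, hij, hs⟩ := hc
      have hp := minimalPeriod_sameCycle (permP g) hs
      refine le_max_of_le_right ?_
      have h1 : (Finset.univ.lcm fun i : Fin σ => minimalPeriod (permP g) (w i)) ∣
          ∏ l ∈ Finset.univ.erase i, minimalPeriod (permP g) (w l) := by
        refine Finset.lcm_dvd fun l _ => ?_
        by_cases hl : l = i
        · subst hl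
          rw [hp]
          exact Finset.dvd_prod_of_mem (fun l => minimalPeriod (permP g) (w l))
            (Finset.mem_erase.2 ⟨hij.symm, Finset.mem_univ _⟩)
        · exact Finset.dvd_prod_of_mem (fun l => minimalPeriod (permP g) (w l))
            (Finset.mem_erase.2 ⟨hl, Finset.mem_univ _⟩)
      have h2 : 0 < ∏ l ∈ Finset.univ.erase i, minimalPeriod (permP g) (w l) :=
        Finset.prod_pos fun l _ => by
          rw [minimalPeriod_permP]; exact minPeriod_pos g (w l)
      refine (Nat.le_of_dvd h2 h1).trans ?_
      calc ∏ l ∈ Finset.univ.erase i, minimalPeriod (permP g) (w l)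
          ≤ ∏ _l ∈ Finset.univ.erase i, cycN g :=
            Finset.prod_le_prod' fun l _ => by
              rw [minimalPeriod_permP]; exact minPeriod_le g (w l)
        _ = cycN g ^ (σ - 1) := by
            rw [Finset.prod_const, Finset.card_erase_of_mem (Finset.mem_univ _),
              Finset.card_univ, Fintype.card_fin]
  have hub : ∀ τ ∈ {τ | ∃ ξ, IsPS f ξ σ τ}, τ ≤ max (top σ (lens g)) (cycN g ^ (σ - 1)) := by
    intro τ hτ
    obtain ⟨v, hv, _, rfl⟩ := (exists_PS_iff f σ τ hσ).1 hτ
    exact key v hv
  constructor
  · by_cases h0 : top σ (lens g) = 0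
    · rw [h0]; exact Nat.zero_le _
    · obtain ⟨w, hw1, hw2⟩ := exists_top_lensP (permP g) σ h0
      have hσ' : (0 : ℤ) < σ := by exact_mod_cast hσ
      have hlt : ∀ x : ℤ, (x % σ).toNat < σ := by
        intro x
        have h1 := Int.emod_nonneg x hσ'.ne'
        have h2 := Int.emod_lt_of_pos x hσ'
        omega
      set v : ℤ → Fin n := fun x => (w ⟨(x % σ).toNat, hlt x⟩ : Fin n) with hv
      have hvi : ∀ i : Fin σ, v (i : ℕ) = w i := by
        intro i
        have h1 : ((i : ℕ) : ℤ) % σ = (i : ℕ) :=
          Int.emod_eq_of_lt (by positivity) (by exact_mod_cast i.2)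
        simp only [hv]
        congr 2
        ext
        simp [h1]
      refine le_csSup ⟨_, hub⟩ ((exists_PS_iff f σ _ hσ).2 ⟨v, fun x => (w _).2, ?_, ?_⟩)
      · constructor
        · refine ⟨hσ, fun x => ?_⟩
          simp only [hv]
          congr 2
          ext
          simp
        · rintro s ⟨hs1, hs2⟩
          by_contra hlt2
          have hs : s < σ := not_le.1 hlt2
          have h1 := hs2 0
          have h2 : v ((⟨s, hs⟩ : Fin σ) : ℕ) = w ⟨s, hs⟩ := hvi ⟨s, hs⟩
          have h3 : v ((⟨0, hσ⟩ : Fin σ) : ℕ) = w ⟨0, hσ⟩ := hvi ⟨0, hσ⟩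
          simp only [zero_add, Nat.cast_zero] at h1 h2 h3
          have h4 : w ⟨s, hs⟩ = w ⟨0, hσ⟩ := by
            apply Subtype.ext
            rw [← h2, ← h3, h1]
          have h5 : (⟨s, hs⟩ : Fin σ) ≠ ⟨0, hσ⟩ := by
            intro h
            have := congrArg Fin.val h
            simp only at this
            omega
          exact hw1 _ _ h5 (h4 ▸ Equiv.Perm.SameCycle.refl _ _)
      · change top σ (lensP (permP g)) = _
        rw [← hw2]
        apply Nat.dvd_antisymm
        · refine Finset.lcm_dvd fun i _ => ?_
          have := Finset.dvd_lcm (f := fun i : ℕ => minimalPeriod g (v i))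
            (Finset.mem_range.2 i.2)
          simp only [hvi] at this
          rw [minimalPeriod_permP]
          exact this
        · refine Finset.lcm_dvd fun i hi => ?_
          rw [Finset.mem_range] at hi
          have h1 : v (i : ℕ) = w ⟨i, hi⟩ := hvi ⟨i, hi⟩
          have := Finset.dvd_lcm (f := fun i : Fin σ => minimalPeriod (permP g) (w i))
            (Finset.mem_univ ⟨i, hi⟩)
          rw [minimalPeriod_permP] at this
          change minimalPeriod g (v (i : ℕ)) ∣ _
          rw [h1]
          exact this
  · rcases Set.eq_empty_or_nonempty {τ | ∃ ξ, IsPS f ξ σ τ} with h | h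
    · rw [maxPeriod, h]; simp
    · exact csSup_le h hub

end RandomCA
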