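import Mathlib
import Pool.Agent.Lib.MP_eab41b_pr.Base

/-! Row R2a. -/

open MeasureTheory Filter Topology Function
open scoped NNReal

namespace RandomCA

namespace R2aAux

open scoped Classical in
/-- precompose `g` with `ρ` on `C` -/
noncomputable def T {n : ℕ} {C : Set (Fin n)} (ρ : Equiv.Perm C) (g : Fin n → Fin n) :
    Fin n → Fin n :=
  fun x => if h : x ∈ C then g (ρ ⟨x, h⟩) else g x

lemma T_of_mem {n : ℕ} {C : Set (Fin n)} (ρ : Equiv.Perm C) (g : Fin n → Fin n) (x : Fin n)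
    (h : x ∈ C) : T ρ g x = g (ρ ⟨x, h⟩) := by
  simp [T, h]

lemma T_of_not_mem {n : ℕ} {C : Set (Fin n)} (ρ : Equiv.Perm C) (g : Fin n → Fin n) (x : Fin n)
    (h : x ∉ C) : T ρ g x = g x := by
  simp [T, h]

lemma T_inv {n : ℕ} {C : Set (Fin n)} (ρ : Equiv.Perm C) (g : Fin n → Fin n) :
    T ρ⁻¹ (T ρ g) = g := by
  funext x
  by_cases h : x ∈ C
  · rw [T_of_mem _ _ _ h, T_of_mem _ _ _ (ρ⁻¹ ⟨x, h⟩).2]
    simp
  · rw [T_of_not_mem _ _ _ h, T_of_not_mem _ _ _ h]

lemma bijOn {n : ℕ} {C : Set (Fin n)} {g : Fin n → Fin n} (h : periodicPts g = C) :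
    Set.BijOn g C C := h ▸ bijOn_periodicPts g

lemma T_bijOn {n : ℕ} {C : Set (Fin n)} (ρ : Equiv.Perm C) {g : Fin n → Fin n}
    (h : Set.BijOn g C C) : Set.BijOn (T ρ g) C C := by
  refine ⟨?_, ?_, ?_⟩
  · intro x hx
    rw [T_of_mem _ _ _ hx]
    exact h.mapsTo (ρ ⟨x, hx⟩).2
  · intro x hx y hy hxy
    rw [T_of_mem _ _ _ hx, T_of_mem _ _ _ hy] at hxy
    have h1 := h.injOn (ρ ⟨x, hx⟩).2 (ρ ⟨y, hy⟩).2 hxy
    have h2 := ρ.injective (Subtype.ext h1)
    simpa using h2
  · intro y hy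
    obtain ⟨x, hx, hxy⟩ := h.surjOn hy
    refine ⟨ρ⁻¹ ⟨x, hx⟩, (ρ⁻¹ ⟨x, hx⟩).2, ?_⟩
    rw [T_of_mem _ _ _ (ρ⁻¹ ⟨x, hx⟩).2]
    simpa using hxy

lemma mem_periodic_of_bijOn {n : ℕ} {C : Set (Fin n)} {g : Fin n → Fin n}
    (h : Set.BijOn g C C) {x : Fin n} (hx : x ∈ C) : x ∈ periodicPts g := by
  set π : Equiv.Perm C := Set.BijOn.equiv g h with hπ
  have h1 : ∀ (k : ℕ) (y : C), (((π ^ k) y : C) : Fin n) = g^[k] y := by
    intro k
    induction k with
    | zero => intro y; simp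
    | succ k ih =>
      intro y
      rw [pow_succ, Equiv.Perm.mul_apply, ih, Function.iterate_succ_apply]
      rfl
  have h2 := h1 (orderOf π) ⟨x, hx⟩
  rw [pow_orderOf_eq_one] at h2
  exact mk_mem_periodicPts (orderOf_pos π) h2.symm

lemma T_periodicPts {n : ℕ} {C : Set (Fin n)} (ρ : Equiv.Perm C) {g : Fin n → Fin n}
    (h : periodicPts g = C) : periodicPts (T ρ g) = C := by
  have hb := T_bijOn ρ (bijOn h)
  apply Set.Subset.antisymm
  · intro x hx
    by_contra hxC
    obtain ⟨p, hp, hper⟩ := hx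
    have hstay : ∀ j k, (T ρ g)^[k] x ∈ C → (T ρ g)^[j + k] x ∈ C := by
      intro j
      induction j with
      | zero => intro k hk; simpa using hk
      | succ j ih =>
        intro k hk
        have h1 : j + 1 + k = (j + k) + 1 := by ring
        rw [h1, Function.iterate_succ_apply']
        exact hb.mapsTo (ih k hk)
    have hout : ∀ k, (T ρ g)^[k] x ∉ C := by
      intro k hk
      apply hxC
      have h1 := hstay (p * k - k) k hk
      have h2 : k ≤ p * k := Nat.le_mul_of_pos_left k hp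
      have h3 : p * k - k + k = k * p := by
        rw [Nat.sub_add_cancel h2, mul_comm]
      rw [h3] at h1
      have h4 := (hper.const_mul k)
      rw [h4.eq] at h1
      exact h1
    have heq : ∀ k, (T ρ g)^[k] x = g^[k] x := by
      intro k
      induction k with
      | zero => rfl
      | succ k ih =>
        rw [Function.iterate_succ_apply', Function.iterate_succ_apply', ← ih,
          T_of_not_mem _ _ _ (hout k)]
    apply hxC
    rw [← h]
    refine mk_mem_periodicPts hp ?_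
    show g^[p] x = x
    rw [← heq p]
    exact hper
  · intro x hx
    exact mem_periodic_of_bijOn hb hx

/-- the equivalence of the maps with periodic points `C` -/
noncomputable def TE {n : ℕ} {C : Set (Fin n)} (ρ : Equiv.Perm C) :
    {g : Fin n → Fin n // periodicPts g = C} ≃ {g : Fin n → Fin n // periodicPts g = C} where
  toFun g := ⟨T ρ g.1, T_periodicPts ρ g.2⟩
  invFun g := ⟨T ρ⁻¹ g.1, T_periodicPts ρ⁻¹ g.2⟩
  left_inv g := Subtype.ext (T_inv ρ g.1)
  right_inv g := Subtype.ext (by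
    have := T_inv ρ⁻¹ g.1
    rwa [inv_inv] at this)

/-- the permutation of `C` induced by `g` -/
noncomputable def PC {n : ℕ} {C : Set (Fin n)} (g : {g : Fin n → Fin n // periodicPts g = C}) :
    Equiv.Perm C := Set.BijOn.equiv g.1 (bijOn g.2)

lemma PC_TE {n : ℕ} {C : Set (Fin n)} (ρ : Equiv.Perm C)
    (g : {g : Fin n → Fin n // periodicPts g = C}) : PC (TE ρ g) = PC g * ρ := by
  refine Equiv.ext fun x => Subtype.ext ?_
  show (T ρ g.1 x : Fin n) = g.1 (ρ x)
  rw [T_of_mem _ _ _ x.2]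

open scoped Classical in
lemma fixed {n : ℕ} (C : Set (Fin n)) (Θ : Equiv.Perm C → ℝ) :
    ∑ g : {g : Fin n → Fin n // periodicPts g = C}, Θ (PC g) =
      ∑ _g : {g : Fin n → Fin n // periodicPts g = C}, avgP Θ := by
  have h1 : ∀ ρ : Equiv.Perm C, ∑ g : {g : Fin n → Fin n // periodicPts g = C}, Θ (PC g) =
      ∑ g : {g : Fin n → Fin n // periodicPts g = C}, Θ (PC g * ρ) := by
    intro ρ
    rw [← Equiv.sum_comp (TE ρ) (fun g => Θ (PC g))]
    refine Finset.sum_congr rfl fun g _ => ?_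
    rw [PC_TE]
  have h2 : (Fintype.card (Equiv.Perm C) : ℝ) *
      ∑ g : {g : Fin n → Fin n // periodicPts g = C}, Θ (PC g) =
      ∑ _g : {g : Fin n → Fin n // periodicPts g = C}, ∑ ρ : Equiv.Perm C, Θ ρ := by
    calc (Fintype.card (Equiv.Perm C) : ℝ) *
        ∑ g : {g : Fin n → Fin n // periodicPts g = C}, Θ (PC g)
        = ∑ _ρ : Equiv.Perm C, ∑ g : {g : Fin n → Fin n // periodicPts g = C}, Θ (PC g) := by
          simp
      _ = ∑ ρ : Equiv.Perm C, ∑ g : {g : Fin n → Fin n // periodicPts g = C}, Θ (PC g * ρ) :=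
          Finset.sum_congr rfl fun ρ _ => h1 ρ
      _ = ∑ g : {g : Fin n → Fin n // periodicPts g = C}, ∑ ρ : Equiv.Perm C, Θ (PC g * ρ) :=
          Finset.sum_comm
      _ = _ := Finset.sum_congr rfl fun g _ =>
          Equiv.sum_comp (Equiv.mulLeft (PC g)) Θ
  have h3 : (Fintype.card (Equiv.Perm C) : ℝ) ≠ 0 := by
    exact_mod_cast Fintype.card_ne_zero
  have h4 : avgP Θ = (∑ ρ : Equiv.Perm C, Θ ρ) / (Fintype.card (Equiv.Perm C) : ℝ) := by
    unfold avgP
    rw [finsum_eq_sum_of_fintype, Fintype.card_perm, Nat.card_eq_fintype_card]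
  rw [Finset.sum_const, nsmul_eq_mul, h4]
  rw [Finset.sum_const, nsmul_eq_mul] at h2
  field_simp
  linarith

end R2aAux

/-- R2a -/
theorem resample {n : ℕ} (Θ : (C : Set (Fin n)) → Equiv.Perm C → ℝ) :
    ∑ g : Fin n → Fin n, Θ (periodicPts g) (permP g) =
      ∑ g : Fin n → Fin n, avgP (Θ (periodicPts g)) := by
  classical
  rw [← Equiv.sum_comp (Equiv.sigmaFiberEquiv (fun g : Fin n → Fin n => periodicPts g)),
    ← Equiv.sum_comp (Equiv.sigmaFiberEquiv (fun g : Fin n → Fin n => periodicPts g)),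
    Fintype.sum_sigma, Fintype.sum_sigma]
  refine Finset.sum_congr rfl fun C _ => ?_
  have h := R2aAux.fixed C (Θ C)
  have h1 : ∀ g : {g : Fin n → Fin n // periodicPts g = C},
      Θ (periodicPts g.1) (permP g.1) = Θ C (R2aAux.PC g) := by
    rintro ⟨g, rfl⟩
    rfl
  have h2 : ∀ g : {g : Fin n → Fin n // periodicPts g = C},
      avgP (Θ (periodicPts g.1)) = avgP (Θ C) := by
    rintro ⟨g, rfl⟩
    rfl
  calc _ = ∑ g : {g : Fin n → Fin n // periodicPts g = C}, Θ C (R2aAux.PC g) :=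
        Finset.sum_congr rfl fun g _ => h1 g
    _ = _ := h
    _ = _ := Finset.sum_congr rfl fun g _ => (h2 g).symm

end RandomCA
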