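import Mathlib
import Pool.Agent.Lib.MP_eab41b_pr.Base

/-! Row R2b. -/

open MeasureTheory Filter Topology Function
open scoped NNReal

namespace RandomCA

/-- R2b -/
theorem avgP_invariant {β : Type*} [Finite β] (k : ℕ) :
    avgP (fun π : Equiv.Perm β => (Nat.card {S : Set β // S.ncard = k ∧ π '' S = S} : ℝ)) =
      if k ≤ Nat.card β then 1 else 0 := by
  classical
  have : Fintype β := Fintype.ofFinite β
  have hfix : ∀ π : Equiv.Perm β, Nat.card {S : Set β // S.ncard = k ∧ π '' S = S} =
      Fintype.card (MulAction.fixedBy (Set.powersetCard β k) π) := by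
    intro π
    rw [← Nat.card_eq_fintype_card]
    refine Nat.card_congr ⟨fun S => ⟨⟨(Set.toFinite S.1).toFinset, ?_⟩, ?_⟩, fun s => ⟨(s.1.1 : Set β), ?_, ?_⟩, ?_, ?_⟩
    · change (Set.toFinite S.1).toFinset.card = k
      rw [← Set.ncard_eq_toFinset_card]
      exact S.2.1
    · rw [MulAction.mem_fixedBy]
      apply Subtype.ext
      rw [Set.powersetCard.coe_smul]
      apply Finset.coe_injective
      rw [Finset.coe_smul_finset]
      simp only [Set.Finite.coe_toFinset]
      exact S.2.2
    · rw [Set.ncard_coe_finset]
      exact s.1.2
    · have h1 := s.2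
      rw [MulAction.mem_fixedBy] at h1
      have h2 := congrArg (fun x : Set.powersetCard β k => ((x : Finset β) : Set β)) h1
      simp only [Set.powersetCard.coe_smul, Finset.coe_smul_finset] at h2
      exact h2
    · intro S
      apply Subtype.ext
      exact Set.Finite.coe_toFinset (Set.toFinite S.1)
    · intro s
      apply Subtype.ext
      apply Subtype.ext
      ext x
      rw [Set.Finite.mem_toFinset]
      exact Iff.rfl
  unfold avgP
  rw [finsum_eq_sum_of_fintype]
  simp only [hfix]
  rw [← Nat.cast_sum, MulAction.sum_card_fixedBy_eq_card_orbits_mul_card_group (Equiv.Perm β)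
    (Set.powersetCard β k), Fintype.card_perm, Nat.card_eq_fintype_card]
  have hf : ((Fintype.card β).factorial : ℝ) ≠ 0 := by
    exact_mod_cast (Nat.factorial_pos _).ne'
  push_cast
  rw [mul_div_assoc, div_self hf, mul_one]
  split_ifs with hk
  · have h1 : Nonempty (Set.powersetCard β k) := by
      obtain ⟨t, -, ht⟩ := Finset.exists_subset_card_eq (s := (Finset.univ : Finset β)) (n := k)
        (by rwa [Finset.card_univ])
      exact ⟨⟨t, ht⟩⟩
    have h2 : MulAction.IsPretransitive (Equiv.Perm β) (Set.powersetCard β k) :=
      Set.powersetCard.isPretransitive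
    have h3 := (MulAction.pretransitive_iff_subsingleton_quotient (Equiv.Perm β)
      (Set.powersetCard β k)).1 h2
    have h4 : Fintype.card (Quotient (MulAction.orbitRel (Equiv.Perm β) (Set.powersetCard β k))) = 1 := by
      apply le_antisymm
      · exact Fintype.card_le_one_iff_subsingleton.2 h3
      · exact Fintype.card_pos_iff.2 ⟨Quotient.mk _ h1.some⟩
    exact_mod_cast h4
  · have h4 : Fintype.card (Quotient (MulAction.orbitRel (Equiv.Perm β) (Set.powersetCard β k))) = 0 := by
      rw [Fintype.card_eq_zero_iff]
      constructor
      intro q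
      induction q using Quotient.inductionOn with
      | h s =>
        apply hk
        have := s.2
        rw [← show (s : Finset β).card = k from this]
        exact Finset.card_le_univ _
    exact_mod_cast h4

end RandomCA
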