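import Mathlib
import Pool.Agent.Lib.MP_eab41b_pr.Base

/-! Row R2c. -/

open MeasureTheory Filter Topology Function
open scoped NNReal

namespace RandomCA

private def R2c_res {n : ℕ} {S : Set (Fin n)} (g : Fin n → Fin n) (h : g '' S = S) : S → S :=
  fun x => ⟨g x, h.subset ⟨x, x.2, rfl⟩⟩

private theorem R2c_res_bij {n : ℕ} {S : Set (Fin n)} (g : Fin n → Fin n) (h : g '' S = S) :
    Function.Bijective (R2c_res g h) := by
  have hs : Function.Surjective (R2c_res g h) := by
    rintro ⟨y, hy⟩
    obtain ⟨x, hx, hxy⟩ := h.superset hy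
    exact ⟨⟨x, hx⟩, Subtype.ext hxy⟩
  exact ⟨Finite.injective_iff_surjective.2 hs, hs⟩

/-- maps preserving `S` are permutations of `S` and arbitrary maps outside -/
private noncomputable def R2c_equiv {n : ℕ} (S : Set (Fin n)) :
    {g : Fin n → Fin n // g '' S = S} ≃ Equiv.Perm S × ({x // x ∉ S} → Fin n) where
  toFun g := (Equiv.ofBijective (R2c_res g.1 g.2) (R2c_res_bij g.1 g.2), fun x => g.1 x)
  invFun p := by
    classical
    exact ⟨fun x => if hx : x ∈ S then (p.1 ⟨x, hx⟩ : Fin n) else p.2 ⟨x, hx⟩, by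
      ext y
      constructor
      · rintro ⟨x, hx, rfl⟩
        simp only [hx, dif_pos]
        exact (p.1 ⟨x, hx⟩).2
      · intro hy
        refine ⟨(p.1.symm ⟨y, hy⟩ : S), (p.1.symm ⟨y, hy⟩).2, ?_⟩
        simp⟩
  left_inv g := by
    classical
    apply Subtype.ext
    funext x
    by_cases hx : x ∈ S
    · simp only [hx, dif_pos]
      rfl
    · simp [hx]
  right_inv p := by
    classical
    refine Prod.ext ?_ ?_
    · ext x
      have hx : (x : Fin n) ∈ S := x.2
      simp only [Equiv.ofBijective_apply]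
      change ((if hx : (x : Fin n) ∈ S then (p.1 ⟨x, hx⟩ : Fin n) else p.2 ⟨x, hx⟩) : Fin n).1 = _
      rw [dif_pos hx]
    · funext x
      have hx : (x : Fin n) ∉ S := x.2
      simp [hx]

private theorem R2c_card_maps {n k : ℕ} (S : Set (Fin n)) (hS : S.ncard = k) :
    Nat.card {g : Fin n → Fin n // g '' S = S} = k.factorial * n ^ (n - k) := by
  classical
  rw [Nat.card_congr (R2c_equiv S), Nat.card_prod, Nat.card_perm, Nat.card_fun]
  have h1 : Nat.card S = k := by rw [← hS]; rfl
  have h2 : Nat.card {x // x ∉ S} = n - k := by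
    have h3 : Set.ncard Sᶜ = n - k := by
      rw [Set.ncard_compl, hS, Nat.card_eq_fintype_card, Fintype.card_fin]
    rw [← h3]; rfl
  rw [h1, h2, Nat.card_eq_fintype_card, Fintype.card_fin]

private theorem R2c_card_sets (n k : ℕ) :
    Nat.card {S : Set (Fin n) // S.ncard = k} = n.choose k := by
  classical
  have e : {S : Set (Fin n) // S.ncard = k} ≃ {s : Finset (Fin n) // s.card = k} :=
    (Fintype.finsetEquivSet.subtypeEquiv (fun s => by simp [Set.ncard_coe_finset])).symm
  rw [Nat.card_congr e, Nat.card_eq_fintype_card, Fintype.card_finset_len, Fintype.card_fin]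

/-- R2c -/
theorem sum_invariant (n k : ℕ) (hk : k ≤ n) :
    ∑ g : Fin n → Fin n, Nat.card {S : Set (Fin n) // S.ncard = k ∧ g '' S = S} =
      n.descFactorial k * n ^ (n - k) := by
  classical
  have e : (Σ g : Fin n → Fin n, {S : Set (Fin n) // S.ncard = k ∧ g '' S = S}) ≃
      (Σ S : {S : Set (Fin n) // S.ncard = k}, {g : Fin n → Fin n // g '' S.1 = S.1}) :=
    { toFun := fun p => ⟨⟨p.2.1, p.2.2.1⟩, ⟨p.1, p.2.2.2⟩⟩
      invFun := fun p => ⟨p.2.1, ⟨p.1.1, p.1.2, p.2.2⟩⟩
      left_inv := fun p => rfl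
      right_inv := fun p => rfl }
  rw [← Nat.card_sigma, Nat.card_congr e]
  have : Fintype {S : Set (Fin n) // S.ncard = k} := Fintype.ofFinite _
  rw [Nat.card_sigma]
  rw [Finset.sum_congr rfl (fun S _ => R2c_card_maps S.1 S.2), Finset.sum_const,
    Finset.card_univ, ← Nat.card_eq_fintype_card, R2c_card_sets, smul_eq_mul,
    Nat.descFactorial_eq_factorial_mul_choose]
  ring

end RandomCA
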