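import Mathlib
import Pool.Agent.Lib.MP_eab41b_pr.R2a
import Pool.Agent.Lib.MP_eab41b_pr.R2b
import Pool.Agent.Lib.MP_eab41b_pr.R2c

/-! Row R2d. -/

open MeasureTheory Filter Topology Function
open scoped NNReal

namespace RandomCA

private theorem R2d_permP {α : Type*} (g : α → α) (x : periodicPts g) :
    ((permP g x : periodicPts g) : α) = g x := rfl

private theorem R2d_sub {α : Type*} [Finite α] {g : α → α} {S : Set α} (h : g '' S = S) :
    S ⊆ periodicPts g := by
  have hm : Set.MapsTo g S S := by
    intro x hx
    rw [← h]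
    exact ⟨x, hx, rfl⟩
  have hs : Function.Surjective (hm.restrict g S S) := by
    rintro ⟨y, hy⟩
    rw [← h] at hy
    obtain ⟨x, hx, hxy⟩ := hy
    exact ⟨⟨x, hx⟩, Subtype.ext hxy⟩
  have hi : Function.Injective (hm.restrict g S S) := Finite.injective_iff_surjective.2 hs
  intro x hx
  obtain ⟨m, hm0, hmx⟩ := hi.mem_periodicPts ⟨x, hx⟩
  refine ⟨m, hm0, ?_⟩
  have h1 := congrArg Subtype.val hmx
  have h2 : ∀ (j : ℕ) (z : S), (((hm.restrict g S S)^[j] z : S) : α) = g^[j] z := by
    intro j
    induction j with
    | zero => intro z; rfl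
    | succ j ih =>
      intro z
      rw [Function.iterate_succ_apply, Function.iterate_succ_apply, ih]
      rfl
  rw [h2] at h1
  exact h1

private theorem R2d_card {n k : ℕ} (g : Fin n → Fin n) :
    Nat.card {S : Set (Fin n) // S.ncard = k ∧ g '' S = S} =
      Nat.card {S : Set (periodicPts g) // S.ncard = k ∧ permP g '' S = S} := by
  have key : ∀ T : Set (periodicPts g),
      g '' (Subtype.val '' T) = Subtype.val '' (permP g '' T) := by
    intro T
    rw [Set.image_image, Set.image_image]
    rfl
  have hinj : Function.Injective (fun T : Set (periodicPts g) => Subtype.val '' T) :=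
    Set.image_injective.2 Subtype.val_injective
  symm
  refine Nat.card_congr (Equiv.ofBijective
    (fun T : {S : Set (periodicPts g) // S.ncard = k ∧ permP g '' S = S} =>
      (⟨Subtype.val '' T.1, by
        rw [Set.ncard_image_of_injective _ Subtype.val_injective]
        exact T.2.1, by rw [key, T.2.2]⟩ :
        {S : Set (Fin n) // S.ncard = k ∧ g '' S = S})) ⟨?_, ?_⟩)
  · intro T T' hT
    exact Subtype.ext (hinj (congrArg Subtype.val hT))
  · rintro ⟨S, hS1, hS2⟩
    have hsub := R2d_sub hS2
    have himg : Subtype.val '' (Subtype.val ⁻¹' S : Set (periodicPts g)) = S := by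
      rw [Subtype.image_preimage_coe, Set.inter_eq_right]
      exact hsub
    refine ⟨⟨Subtype.val ⁻¹' S, ?_, ?_⟩, Subtype.ext himg⟩
    · rw [← Set.ncard_image_of_injective _ Subtype.val_injective, himg, hS1]
    · apply hinj
      show Subtype.val '' (permP g '' _) = Subtype.val '' _
      rw [← key, himg, hS2]

/-- R2d -/
theorem card_cyc (n k : ℕ) :
    (Nat.card {g : Fin n → Fin n // k ≤ cycN g} : ℝ) = pp n k * (n : ℝ) ^ n := by
  classical
  rcases Nat.lt_or_ge n k with hk | hk
  · have h1 : IsEmpty {g : Fin n → Fin n // k ≤ cycN g} := by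
      refine ⟨fun g => ?_⟩
      have h2 : cycN g.1 ≤ n := by
        unfold cycN
        have := Nat.card_le_card_of_injective (Subtype.val : periodicPts g.1 → Fin n)
          Subtype.val_injective
        rwa [Nat.card_fin] at this
      have := g.2
      omega
    rw [Nat.card_of_isEmpty]
    unfold pp
    rw [Nat.descFactorial_of_lt hk]
    simp
  · have h1 := resample (n := n)
      (fun C π => (Nat.card {S : Set C // S.ncard = k ∧ π '' S = S} : ℝ))
    have h2 := sum_invariant n k hk
    have h3 : ((∑ g : Fin n → Fin n, Nat.card {S : Set (Fin n) // S.ncard = k ∧ g '' S = S} : ℕ) : ℝ) =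
        ∑ g : Fin n → Fin n,
          (Nat.card {S : Set (periodicPts g) // S.ncard = k ∧ permP g '' S = S} : ℝ) := by
      rw [Nat.cast_sum]
      exact Finset.sum_congr rfl fun g _ => by rw [R2d_card g]
    have h4 : ∑ g : Fin n → Fin n, avgP (fun π : Equiv.Perm (periodicPts g) =>
        (Nat.card {S : Set (periodicPts g) // S.ncard = k ∧ π '' S = S} : ℝ)) =
        (Nat.card {g : Fin n → Fin n // k ≤ cycN g} : ℝ) := by
      have h5 : ∀ g : Fin n → Fin n, avgP (fun π : Equiv.Perm (periodicPts g) =>
          (Nat.card {S : Set (periodicPts g) // S.ncard = k ∧ π '' S = S} : ℝ)) =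
          if k ≤ cycN g then 1 else 0 := fun g => avgP_invariant (β := periodicPts g) k
      rw [Finset.sum_congr rfl fun g _ => h5 g, Finset.sum_boole, Nat.card_eq_fintype_card,
        Fintype.card_subtype]
    rw [← h4, ← h1, ← h3, h2]
    unfold pp
    rcases Nat.eq_zero_or_pos n with h0 | h0
    · subst h0
      have : k = 0 := by omega
      subst this
      simp
    · have hn : (n : ℝ) ≠ 0 := by positivity
      have h6 : (n : ℝ) ^ n = (n : ℝ) ^ k * (n : ℝ) ^ (n - k) := by
        rw [← pow_add]
        congr 1
        omega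
      rw [h6]
      push_cast
      field_simp

end RandomCA
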