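import Mathlib
import Pool.Agent.Lib.MP_eab41b_pr.Base

/-! Row R3a. -/

open MeasureTheory Filter Topology Function
open scoped NNReal

namespace RandomCA

private theorem r3a_parts {N : ℕ} (p : N.Partition) :
    p.parts = p.parts.filter (2 ≤ ·) +
      Multiset.replicate (N - (p.parts.filter (2 ≤ ·)).sum) 1 := by
  have h1 := Multiset.filter_add_not (fun n : ℕ => 2 ≤ n) p.parts
  have h2 : p.parts.filter (fun n => ¬ 2 ≤ n) =
      Multiset.replicate (Multiset.card (p.parts.filter (fun n => ¬ 2 ≤ n))) 1 := by
    rw [Multiset.eq_replicate_card]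
    intro b hb
    rw [Multiset.mem_filter] at hb
    have := p.parts_pos hb.1
    omega
  have h3 : (p.parts.filter (2 ≤ ·)).sum +
      Multiset.card (p.parts.filter (fun n => ¬ 2 ≤ n)) = N := by
    have h4 : (p.parts.filter (fun n => ¬ 2 ≤ n)).sum =
        Multiset.card (p.parts.filter (fun n => ¬ 2 ≤ n)) := by
      conv_lhs => rw [h2]
      simp
    rw [← h4, ← Multiset.sum_add, h1, p.parts_sum]
  have h5 : N - (p.parts.filter (2 ≤ ·)).sum =
      Multiset.card (p.parts.filter (fun n => ¬ 2 ≤ n)) := by omega
  rw [h5, ← h2]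
  exact h1.symm

private theorem r3a_weight {N : ℕ} (p : N.Partition) :
    (p.parts.prod * ∏ i ∈ p.parts.toFinset, (p.parts.count i).factorial) =
      (N - (p.parts.filter (2 ≤ ·)).sum).factorial * (p.parts.filter (2 ≤ ·)).prod *
        ∏ i ∈ (p.parts.filter (2 ≤ ·)).toFinset,
          ((p.parts.filter (2 ≤ ·)).count i).factorial := by
  set m := p.parts.filter (2 ≤ ·) with hm
  set t := N - m.sum with ht
  have hp : p.parts = m + Multiset.replicate t 1 := r3a_parts p
  have h1m : (1 : ℕ) ∉ m := by
    rw [hm, Multiset.mem_filter]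
    rintro ⟨_, h⟩
    omega
  have hsub : p.parts.toFinset ⊆ insert 1 m.toFinset := by
    intro i hi
    rw [Multiset.mem_toFinset, hp, Multiset.mem_add, Multiset.mem_replicate] at hi
    rw [Finset.mem_insert, Multiset.mem_toFinset]
    rcases hi with hi | hi
    · exact Or.inr hi
    · exact Or.inl hi.2
  have h2 : ∏ i ∈ p.parts.toFinset, (p.parts.count i).factorial =
      ∏ i ∈ insert 1 m.toFinset, (p.parts.count i).factorial := by
    refine Finset.prod_subset hsub ?_
    intro i _ hi
    rw [Multiset.mem_toFinset] at hi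
    rw [Multiset.count_eq_zero_of_notMem hi, Nat.factorial_zero]
  rw [h2, Finset.prod_insert (by rwa [Multiset.mem_toFinset])]
  have h3 : p.parts.count 1 = t := by
    rw [hp, Multiset.count_add, Multiset.count_eq_zero_of_notMem h1m, zero_add,
      Multiset.count_replicate_self]
  have h4 : ∏ i ∈ m.toFinset, (p.parts.count i).factorial =
      ∏ i ∈ m.toFinset, (m.count i).factorial := by
    refine Finset.prod_congr rfl ?_
    intro i hi
    rw [Multiset.mem_toFinset] at hi
    have hi1 : i ≠ 1 := fun h => h1m (h ▸ hi)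
    rw [hp, Multiset.count_add, Multiset.count_replicate, if_neg (fun h => hi1 h.symm), add_zero]
  rw [h3, h4]
  have h5 : p.parts.prod = m.prod := by
    rw [hp, Multiset.prod_add, Multiset.prod_replicate, one_pow, mul_one]
  rw [h5]
  ring

private theorem r3a_card {β : Type*} [Fintype β] [DecidableEq β] (p : (Fintype.card β).Partition) :
    (Finset.univ.filter fun π : Equiv.Perm β => π.partition = p).card *
      (p.parts.prod * ∏ i ∈ p.parts.toFinset, (p.parts.count i).factorial) =
      (Fintype.card β).factorial := by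
  classical
  have hset : (Finset.univ.filter fun π : Equiv.Perm β => π.partition = p) =
      Finset.univ.filter fun π : Equiv.Perm β => π.cycleType = p.parts.filter (2 ≤ ·) := by
    ext π
    simp only [Finset.mem_filter, Finset.mem_univ, true_and]
    constructor
    · rintro rfl
      exact (Equiv.Perm.filter_parts_partition_eq_cycleType).symm
    · intro h
      apply Nat.Partition.ext
      rw [r3a_parts p, Equiv.Perm.parts_partition, ← h, Equiv.Perm.sum_cycleType]
  rw [hset, r3a_weight p, Equiv.Perm.card_of_cycleType_mul_eq, if_pos]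
  refine ⟨?_, ?_⟩
  · have h1 := Multiset.filter_add_not (fun n : ℕ => 2 ≤ n) p.parts
    have h2 := congrArg Multiset.sum h1
    rw [Multiset.sum_add, p.parts_sum] at h2
    omega
  · intro a ha
    exact (Multiset.mem_filter.1 ha).2

/-- R3a -/
theorem avgP_lensP {β : Type*} [Finite β] (Ψ : Multiset ℕ → ℝ) :
    avgP (fun π : Equiv.Perm β => Ψ (lensP π)) =
      ∑ p : (Nat.card β).Partition, wtM p.parts * Ψ p.parts := by
  classical
  let _ := Fintype.ofFinite β
  unfold avgP
  rw [finsum_eq_sum_of_fintype, Nat.card_eq_fintype_card]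
  have h1 : ∀ π : Equiv.Perm β, lensP π = π.partition.parts := by
    intro π
    unfold lensP
    congr!
  simp_rw [h1]
  rw [← Finset.sum_fiberwise (s := Finset.univ) (g := fun π : Equiv.Perm β => π.partition)
    (f := fun π => Ψ π.partition.parts), Finset.sum_div]
  refine Finset.sum_congr rfl ?_
  intro p _
  have h2 : ∑ π ∈ Finset.univ.filter (fun π : Equiv.Perm β => π.partition = p),
      Ψ π.partition.parts =
      ((Finset.univ.filter fun π : Equiv.Perm β => π.partition = p).card : ℝ) * Ψ p.parts := by
    rw [Finset.sum_congr rfl (g := fun _ => Ψ p.parts), Finset.sum_const, nsmul_eq_mul]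
    intro π hπ
    rw [(Finset.mem_filter.1 hπ).2]
  rw [h2]
  have h3 := r3a_card p
  have h4 : ((Finset.univ.filter fun π : Equiv.Perm β => π.partition = p).card : ℝ) *
      ((p.parts.prod * ∏ i ∈ p.parts.toFinset, (p.parts.count i).factorial : ℕ) : ℝ) =
      ((Fintype.card β).factorial : ℝ) := by
    exact_mod_cast h3
  have h5 : ((Fintype.card β).factorial : ℝ) ≠ 0 := by
    exact_mod_cast (Fintype.card β).factorial_ne_zero
  have h6 : ((p.parts.prod * ∏ i ∈ p.parts.toFinset, (p.parts.count i).factorial : ℕ) : ℝ) ≠ 0 := by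
    intro h0
    rw [h0, mul_zero] at h4
    exact h5 h4.symm
  have h7 : ((Finset.univ.filter fun π : Equiv.Perm β => π.partition = p).card : ℝ) ≠ 0 := by
    intro h0
    rw [h0, zero_mul] at h4
    exact h5 h4.symm
  unfold wtM
  rw [← h4]
  field_simp

end RandomCA
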