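import Mathlib
import Pool.Agent.Lib.MP_eab41b_pr.Base

/-! Row R3b. -/

open MeasureTheory Filter Topology Function
open scoped NNReal

namespace RandomCA

namespace R3bAux

lemma prod_count (L : Multiset ℕ) (S : Finset ℕ) (h : L.toFinset ⊆ S) :
    ∏ i ∈ L.toFinset, (L.count i).factorial = ∏ i ∈ S, (L.count i).factorial := by
  refine Finset.prod_subset h fun i _ hi => ?_
  rw [Multiset.mem_toFinset] at hi
  rw [Multiset.count_eq_zero_of_notMem hi]
  rfl

lemma wtM_cons (a : ℕ) (ha : 1 ≤ a) (q : Multiset ℕ) (hq : ∀ i ∈ q, 1 ≤ i) :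
    (a : ℝ) * ((a ::ₘ q).count a : ℝ) * wtM (a ::ₘ q) = wtM q := by
  unfold wtM
  have h1 : ∏ i ∈ (a ::ₘ q).toFinset, ((a ::ₘ q).count i).factorial =
      (q.count a + 1) * ∏ i ∈ q.toFinset, (q.count i).factorial := by
    rw [prod_count (a ::ₘ q) (insert a q.toFinset) (by simp),
      prod_count q (insert a q.toFinset) (by simp)]
    have ha' : a ∈ insert a q.toFinset := by simp
    rw [← Finset.mul_prod_erase _ _ ha', ← Finset.mul_prod_erase _ _ ha']
    have h2 : ∏ i ∈ (insert a q.toFinset).erase a, ((a ::ₘ q).count i).factorial =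
        ∏ i ∈ (insert a q.toFinset).erase a, (q.count i).factorial := by
      refine Finset.prod_congr rfl fun i hi => ?_
      rw [Multiset.count_cons_of_ne (Finset.ne_of_mem_erase hi)]
    rw [h2, Multiset.count_cons_self, Nat.factorial_succ]
    ring
  rw [h1, Multiset.prod_cons, Multiset.count_cons_self]
  have hq0 : q.prod ≠ 0 := by
    intro h0
    rw [Multiset.prod_eq_zero_iff] at h0
    have := hq 0 h0
    omega
  have hP : (∏ i ∈ q.toFinset, (q.count i).factorial) ≠ 0 :=
    Finset.prod_ne_zero_iff.2 fun i _ => Nat.factorial_ne_zero _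
  have e1 : ((q.prod : ℕ) : ℝ) ≠ 0 := by exact_mod_cast hq0
  have e2 : ((∏ i ∈ q.toFinset, (q.count i).factorial : ℕ) : ℝ) ≠ 0 := by exact_mod_cast hP
  have e3 : (a : ℝ) ≠ 0 := by
    have : a ≠ 0 := by omega
    exact_mod_cast this
  have e4 : ((q.count a + 1 : ℕ) : ℝ) ≠ 0 := by positivity
  set P : ℕ := ∏ i ∈ q.toFinset, (q.count i).factorial
  have : ((a * q.prod * ((q.count a + 1) * P) : ℕ) : ℝ) =
      (a : ℝ) * (q.prod : ℝ) * (((q.count a + 1 : ℕ) : ℝ) * (P : ℝ)) := by push_cast; ring
  rw [this]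
  have h3 : ((q.prod * P : ℕ) : ℝ) = (q.prod : ℝ) * (P : ℝ) := by push_cast; ring
  rw [h3]
  field_simp

lemma step (N : ℕ) (Ψ : Multiset ℕ → ℝ) :
    (N : ℝ) * ∑ p : N.Partition, wtM p.parts * Ψ p.parts =
      ∑ a ∈ Finset.Icc 1 N, ∑ q : (N - a).Partition, wtM q.parts * Ψ (a ::ₘ q.parts) := by
  have h1 : (N : ℝ) * ∑ p : N.Partition, wtM p.parts * Ψ p.parts =
      ∑ p : N.Partition, ∑ a ∈ Finset.Icc 1 N, if a ∈ p.parts then
        (a : ℝ) * (p.parts.count a : ℝ) * wtM p.parts * Ψ p.parts else 0 := by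
    rw [Finset.mul_sum]
    refine Finset.sum_congr rfl fun p _ => ?_
    have h2 : (N : ℝ) = ∑ a ∈ Finset.Icc 1 N, if a ∈ p.parts then
        (a : ℝ) * (p.parts.count a : ℝ) else 0 := by
      have h3 : N = ∑ a ∈ p.parts.toFinset, p.parts.count a * a := by
        conv_lhs => rw [← p.parts_sum, Finset.sum_multiset_count]
        simp
      rw [← Finset.sum_filter]
      have h4 : (Finset.Icc 1 N).filter (fun a => a ∈ p.parts) = p.parts.toFinset := by
        ext a
        simp only [Finset.mem_filter, Finset.mem_Icc, Multiset.mem_toFinset]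
        refine ⟨fun h => h.2, fun h => ⟨⟨p.parts_pos h, ?_⟩, h⟩⟩
        calc a ≤ p.parts.sum := Multiset.single_le_sum (fun _ _ => Nat.zero_le _) a h
          _ = N := p.parts_sum
      rw [h4]
      conv_lhs => rw [h3]
      push_cast
      refine Finset.sum_congr rfl fun a _ => mul_comm _ _
    conv_lhs => rw [h2]
    rw [Finset.sum_mul]
    refine Finset.sum_congr rfl fun a _ => ?_
    split_ifs <;> ring
  rw [h1, Finset.sum_comm]
  refine Finset.sum_congr rfl fun a ha => ?_
  rw [Finset.mem_Icc] at ha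
  have h5 : (∑ p : N.Partition, if a ∈ p.parts then
      (a : ℝ) * (p.parts.count a : ℝ) * wtM p.parts * Ψ p.parts else 0) =
      ∑ p : {p : N.Partition // a ∈ p.parts},
        (a : ℝ) * (p.1.parts.count a : ℝ) * wtM p.1.parts * Ψ p.1.parts := by
    rw [← Finset.sum_filter]
    exact Finset.sum_subtype _ (by simp) _
  rw [h5]
  refine Fintype.sum_equiv (Nat.Partition.partitionWithPartEquiv ha.1 ha.2) _ _ fun p => ?_
  have h6 : a ::ₘ ((Nat.Partition.partitionWithPartEquiv ha.1 ha.2) p).parts = p.1.parts := by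
    rw [Nat.Partition.partitionWithPartEquiv_apply_parts]
    exact Multiset.cons_erase p.2
  have h7 := wtM_cons a ha.1 ((Nat.Partition.partitionWithPartEquiv ha.1 ha.2) p).parts
    fun i hi => Nat.Partition.parts_pos _ hi
  rw [h6] at h7
  rw [h6, h7]

end R3bAux

/-- R3b -/
theorem partition_sum (k : ℕ) (Ψ : Multiset ℕ → ℝ) :
    ∑ p : k.Partition, wtM p.parts * Ψ p.parts = E k fun L => Ψ (L : Multiset ℕ) := by
  induction k using Nat.strong_induction_on generalizing Ψ with
  | _ k ih =>
    rcases k with _ | k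
    · rw [E]
      simp [wtM]
    · have h := R3bAux.step (k + 1) Ψ
      rw [E, eq_div_iff (by positivity)]
      rw [mul_comm]
      have h8 : ∑ a ∈ Finset.Icc 1 (k + 1), ∑ q : (k + 1 - a).Partition,
          wtM q.parts * Ψ (a ::ₘ q.parts) =
          ∑ a : Fin (k + 1), E (k - a) fun L => Ψ (((a + 1 : ℕ) :: L : List ℕ) : Multiset ℕ) := by
        rw [← Finset.sum_range (fun a => E (k - a) fun L =>
          Ψ (((a + 1 : ℕ) :: L : List ℕ) : Multiset ℕ))]
        refine Finset.sum_nbij' (fun a => a - 1) (fun a => a + 1) ?_ ?_ ?_ ?_ ?_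
        · intro a ha
          rw [Finset.mem_Icc] at ha
          rw [Finset.mem_range]
          omega
        · intro a ha
          rw [Finset.mem_range] at ha
          rw [Finset.mem_Icc]
          omega
        · intro a ha
          rw [Finset.mem_Icc] at ha
          show a - 1 + 1 = a
          omega
        · intro a ha
          rfl
        · intro a ha
          rw [Finset.mem_Icc] at ha
          show _ = E (k - (a - 1)) fun L => Ψ (((a - 1 + 1 : ℕ) :: L : List ℕ) : Multiset ℕ)
          have h10 : k - (a - 1) = k + 1 - a := by omega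
          have h11 : a - 1 + 1 = a := by omega
          rw [h10, h11]
          exact ih (k + 1 - a) (by omega) (fun q => Ψ (a ::ₘ q))
      rw [← h8, ← h]
      push_cast
      ring

end RandomCA
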