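import Mathlib
import Pool.Agent.Lib.MP_eab41b_pr.Base

/-! Row R4a. -/

open MeasureTheory Filter Topology Function
open scoped NNReal

namespace RandomCA

theorem E_zero (G : List ℕ → ℝ) : E 0 G = G [] := by rw [E]

theorem E_succ (k : ℕ) (G : List ℕ → ℝ) :
    E (k + 1) G = (∑ a : Fin (k + 1), E (k - a) fun L => G ((a + 1 : ℕ) :: L)) / (k + 1) := by
  rw [E]

/-- R4a -/
theorem E_mono {k : ℕ} {G G' : List ℕ → ℝ}
    (h : ∀ L : List ℕ, (∀ a ∈ L, 1 ≤ a) → L.sum = k → G L ≤ G' L) : E k G ≤ E k G' := by
  induction k using Nat.strong_induction_on generalizing G G' with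
  | _ k ih =>
    cases k with
    | zero =>
      rw [E_zero, E_zero]
      exact h [] (by simp) (by simp)
    | succ k =>
      rw [E_succ, E_succ]
      refine div_le_div_of_nonneg_right (Finset.sum_le_sum fun a _ => ?_) (by positivity)
      refine ih (k - a) (by omega) fun L h1 h2 => h _ ?_ ?_
      · intro b hb
        rcases List.mem_cons.1 hb with hb | hb
        · omega
        · exact h1 b hb
      · rw [List.sum_cons, h2]
        have := a.isLt
        omega

theorem E_congr {k : ℕ} {G G' : List ℕ → ℝ}
    (h : ∀ L : List ℕ, (∀ a ∈ L, 1 ≤ a) → L.sum = k → G L = G' L) : E k G = E k G' :=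
  le_antisymm (E_mono fun L h1 h2 => (h L h1 h2).le) (E_mono fun L h1 h2 => (h L h1 h2).ge)

theorem E_const (k : ℕ) (c : ℝ) : E k (fun _ => c) = c := by
  induction k using Nat.strong_induction_on with
  | _ k ih =>
    cases k with
    | zero => rw [E_zero]
    | succ k =>
      rw [E_succ]
      have h1 : (∑ a : Fin (k + 1), E (k - a) fun _ : List ℕ => c) = (k + 1 : ℕ) * c := by
        rw [Finset.sum_congr rfl fun (a : Fin (k + 1)) _ => ih (k - a) (by omega)]
        simp only [Finset.sum_const, Finset.card_univ, Fintype.card_fin, nsmul_eq_mul]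
      rw [h1]
      push_cast
      field_simp

theorem E_add (k : ℕ) (G G' : List ℕ → ℝ) : E k (fun L => G L + G' L) = E k G + E k G' := by
  induction k using Nat.strong_induction_on generalizing G G' with
  | _ k ih =>
    cases k with
    | zero => rw [E_zero, E_zero, E_zero]
    | succ k =>
      rw [E_succ, E_succ, E_succ]
      rw [← add_div, ← Finset.sum_add_distrib]
      congr 1
      exact Finset.sum_congr rfl fun a _ => ih (k - a) (by omega) _ _

theorem E_mul (k : ℕ) (c : ℝ) (G : List ℕ → ℝ) : E k (fun L => c * G L) = c * E k G := by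
  induction k using Nat.strong_induction_on generalizing G with
  | _ k ih =>
    cases k with
    | zero => rw [E_zero, E_zero]
    | succ k =>
      rw [E_succ, E_succ]
      rw [← mul_div_assoc, Finset.mul_sum]
      congr 1
      exact Finset.sum_congr rfl fun a _ => ih (k - a) (by omega) _

theorem E_sum {ι : Type*} (k : ℕ) (s : Finset ι) (G : ι → List ℕ → ℝ) :
    E k (fun L => ∑ i ∈ s, G i L) = ∑ i ∈ s, E k (G i) := by
  classical
  induction s using Finset.induction_on with
  | empty => simp [E_const]
  | insert a s ha ih =>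
    simp only [Finset.sum_insert ha]
    rw [E_add, ih]

theorem E_abs_sub {k : ℕ} {G G' D : List ℕ → ℝ}
    (h : ∀ L : List ℕ, (∀ a ∈ L, 1 ≤ a) → L.sum = k → |G L - G' L| ≤ D L) :
    |E k G - E k G'| ≤ E k D := by
  have h1 : E k G ≤ E k G' + E k D := by
    rw [← E_add]
    refine E_mono fun L hL hs => ?_
    have := (abs_le.1 (h L hL hs)).2
    linarith
  have h2 : E k G' ≤ E k G + E k D := by
    rw [← E_add]
    refine E_mono fun L hL hs => ?_
    have := (abs_le.1 (h L hL hs)).1
    linarith
  rw [abs_le]
  constructor <;> linarith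

end RandomCA
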