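import Mathlib
import Pool.Agent.Lib.MP_eab41b_pr.Base

/-! Row R7a. -/

open MeasureTheory Filter Topology Function
open scoped NNReal

namespace RandomCA

private theorem r7a_lcm_le_prod (s : Multiset ℕ) : s.lcm ≤ s.prod := by
  induction s using Multiset.induction_on with
  | empty => simp
  | cons a s ih =>
    rw [Multiset.lcm_cons, Multiset.prod_cons]
    have h1 : lcm a s.lcm ≤ a * s.lcm := by
      rcases Nat.eq_zero_or_pos (a * s.lcm) with h | h
      · rcases Nat.mul_eq_zero.1 h with h | h
        · simp [h]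
        · simp [h]
      · exact Nat.le_of_dvd h (Nat.lcm_dvd_mul a s.lcm)
    exact h1.trans (Nat.mul_le_mul_left a ih)

private theorem r7a_coe (L : List ℕ) :
    (L : Multiset ℕ) = (Finset.range L.length).val.map fun i => L.getD i 0 := by
  rw [Finset.range_val, Multiset.range, Multiset.map_coe, Multiset.coe_eq_coe]
  apply List.Perm.of_eq
  apply List.ext_getElem
  · simp
  · intro i h1 h2
    rw [List.getElem_map, List.getElem_range]
    exact (List.getD_eq_getElem _ _ h1).symm

private theorem r7a_le_top (σ : ℕ) (L : Multiset ℕ) (s : Multiset ℕ) (hs : s ≤ L)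
    (hc : s.card = σ) : s.lcm ≤ top σ L := by
  unfold top
  apply Multiset.le_sup
  exact Multiset.mem_map_of_mem _ (Multiset.mem_powersetCard.2 ⟨hs, hc⟩)

/-- R7a -/
theorem topm_le_top (σ m : ℕ) (L : List ℕ) : topm σ m L ≤ top σ (L : Multiset ℕ) := by
  unfold topm
  apply Finset.sup_le
  intro I hI
  rw [Finset.mem_powersetCard] at hI
  by_cases h : I ⊆ Finset.range L.length
  · have h1 : (I.val.map fun i => L.getD i 0) ≤ (L : Multiset ℕ) := by
      rw [r7a_coe L]
      exact Multiset.map_le_map (Finset.val_le_iff.2 h)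
    have h2 := r7a_le_top σ (L : Multiset ℕ) (I.val.map fun i => L.getD i 0) h1
      (by rw [Multiset.card_map]; exact hI.2)
    exact h2
  · obtain ⟨i, hi, hi'⟩ := Finset.not_subset.1 h
    have h0 : (I.lcm fun i => L.getD i 0) = 0 := by
      rw [Finset.lcm_eq_zero_iff]
      refine ⟨i, hi, ?_⟩
      apply List.getD_eq_default
      simpa using hi'
    rw [h0]
    exact Nat.zero_le _

private theorem r7a_getD_le_sum (L : List ℕ) (i : ℕ) : L.getD i 0 ≤ L.sum := by
  rcases lt_or_ge i L.length with h | h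
  · rw [List.getD_eq_getElem _ _ h]
    exact List.le_sum_of_mem (List.getElem_mem h)
  · rw [List.getD_eq_default _ _ h]
    exact Nat.zero_le _

theorem top_le_topm (σ m : ℕ) (hσ : 1 ≤ σ) (L : List ℕ) :
    top σ (L : Multiset ℕ) ≤ topm σ m L + (L.drop m).sum * L.sum ^ (σ - 1) := by
  unfold top
  apply Multiset.sup_le.2
  intro b hb
  obtain ⟨s, hs, rfl⟩ := Multiset.mem_map.1 hb
  rw [r7a_coe L, Multiset.powersetCard_map] at hs
  obtain ⟨t, ht, rfl⟩ := Multiset.mem_map.1 hs
  rw [Multiset.mem_powersetCard] at ht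
  have htn : t.Nodup := Multiset.nodup_of_le ht.1 (Finset.range L.length).nodup
  set I : Finset ℕ := ⟨t, htn⟩ with hI
  have hIc : I.card = σ := ht.2
  have hlcm : (Multiset.map (fun i => L.getD i 0) t).lcm = I.lcm fun i => L.getD i 0 := rfl
  rw [hlcm]
  by_cases h : I ⊆ Finset.range m
  · refine le_trans ?_ (Nat.le_add_right _ _)
    unfold topm
    exact Finset.le_sup (f := fun I : Finset ℕ => I.lcm fun i => L.getD i 0)
      (Finset.mem_powersetCard.2 ⟨h, hIc⟩)
  · obtain ⟨i, hi, hi'⟩ := Finset.not_subset.1 h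
    refine le_trans ?_ (Nat.le_add_left _ _)
    have h1 : (I.lcm fun i => L.getD i 0) ≤ ∏ i ∈ I, L.getD i 0 :=
      r7a_lcm_le_prod (I.val.map fun i => L.getD i 0)
    refine h1.trans ?_
    rw [← Finset.mul_prod_erase I _ hi]
    apply Nat.mul_le_mul
    · have : L.getD i 0 = (L.drop m).getD (i - m) 0 := by
        have hmi : m ≤ i := by simpa using hi'
        rw [List.getD_eq_getElem?_getD, List.getD_eq_getElem?_getD, List.getElem?_drop]
        congr 2
        omega
      rw [this]
      exact r7a_getD_le_sum _ _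
    · have h2 : ∏ j ∈ I.erase i, L.getD j 0 ≤ ∏ j ∈ I.erase i, L.sum :=
        Finset.prod_le_prod' fun j _ => r7a_getD_le_sum L j
      rw [Finset.prod_const, Finset.card_erase_of_mem hi, hIc] at h2
      exact h2

/-- R7a3 -/
theorem top_le_pow (σ : ℕ) (L : Multiset ℕ) : top σ L ≤ L.sum ^ σ := by
  unfold top
  apply Multiset.sup_le.2
  intro b hb
  obtain ⟨s, hs, rfl⟩ := Multiset.mem_map.1 hb
  rw [Multiset.mem_powersetCard] at hs
  refine (r7a_lcm_le_prod s).trans ?_
  rw [← hs.2]
  apply Multiset.prod_le_pow_card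
  intro x hx
  exact Multiset.le_sum_of_mem (Multiset.mem_of_le hs.1 hx)

end RandomCA
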