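import Mathlib
import Pool.Agent.Lib.MP_eab41b_pr.R4a

/-! Row R4b. -/

open MeasureTheory Filter Topology Function
open scoped NNReal

namespace RandomCA

/-- R4b -/
theorem E_drop (k m : ℕ) : E k (fun L => ((L.drop m).sum : ℝ)) ≤ k / 2 ^ m := by
  induction m generalizing k with
  | zero =>
    have h1 : E k (fun L => (((L.drop 0).sum : ℕ) : ℝ)) ≤ E k (fun _ => (k : ℝ)) := by
      apply E_mono
      intro L _ hL
      simp [hL]
    rw [E_const] at h1
    simpa using h1
  | succ m ih =>
    cases k with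
    | zero =>
      rw [E]
      simp
    | succ k =>
      rw [E]
      have h1 : ∀ a : Fin (k + 1), E (k - a) (fun L =>
          (((((a + 1 : ℕ) :: L).drop (m + 1)).sum : ℕ) : ℝ)) ≤ ((k - (a : ℕ) : ℕ) : ℝ) / 2 ^ m := by
        intro a
        have h2 := ih (k - a)
        simpa using h2
      have h3 : (∑ a : Fin (k + 1), E (k - a) (fun L =>
          (((((a + 1 : ℕ) :: L).drop (m + 1)).sum : ℕ) : ℝ))) ≤
          ∑ a : Fin (k + 1), ((k - (a : ℕ) : ℕ) : ℝ) / 2 ^ m := Finset.sum_le_sum fun a _ => h1 a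
      have h4 : ∑ a : Fin (k + 1), ((k - (a : ℕ) : ℕ) : ℝ) / 2 ^ m =
          ((k : ℝ) + 1) * k / 2 ^ (m + 1) := by
        rw [← Finset.sum_div]
        have h5 : ∑ a : Fin (k + 1), ((k - (a : ℕ) : ℕ) : ℝ) = ((k : ℝ) + 1) * k / 2 := by
          have h6 : ∑ a : Fin (k + 1), (k - (a : ℕ)) = ∑ i ∈ Finset.range (k + 1), i := by
            rw [Fin.sum_univ_eq_sum_range (fun i => k - i) (k + 1)]
            exact Finset.sum_range_reflect (fun i => i) (k + 1)
          have h7 := Finset.sum_range_id_mul_two (k + 1)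
          rw [← Nat.cast_sum, h6]
          have h8 : ((∑ i ∈ Finset.range (k + 1), i : ℕ) : ℝ) * 2 = ((k : ℝ) + 1) * k := by
            rw [Nat.add_sub_cancel] at h7
            exact_mod_cast h7
          linarith
        rw [h5, pow_succ]
        field_simp
      rw [h4] at h3
      have hk : (0 : ℝ) < (k : ℝ) + 1 := by positivity
      rw [div_le_iff₀ hk]
      refine h3.trans ?_
      push_cast
      have h9 : ((k : ℝ) + 1) * k / 2 ^ (m + 1) ≤ ((k : ℝ) + 1) * (k + 1) / 2 ^ (m + 1) := by
        gcongr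
        linarith
      refine h9.trans (le_of_eq ?_)
      ring

end RandomCA
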