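import Mathlib
import Pool.Agent.Lib.MP_eab41b_pr.R4a

/-! Row R4c. -/

open MeasureTheory Filter Topology Function
open scoped NNReal

namespace RandomCA

theorem sum_dvd_R4c (q k : ℕ) (hq : 1 ≤ q) :
    (∑ a : Fin (k + 1), if q ∣ (a : ℕ) + 1 then (1 : ℝ) else 0) ≤ ((k : ℝ) + 1) / q := by
  have hq0 : (0 : ℝ) < q := by exact_mod_cast hq
  have h1 : (∑ a : Fin (k + 1), if q ∣ (a : ℕ) + 1 then (1 : ℝ) else 0) =
      (((Finset.range (k + 1)).filter fun a => q ∣ a + 1).card : ℝ) := by
    rw [Fin.sum_univ_eq_sum_range (fun a => if q ∣ a + 1 then (1 : ℝ) else 0), Finset.sum_boole]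
  have h2 : ((Finset.range (k + 1)).filter fun a => q ∣ a + 1).card = (k + 1) / q := by
    have := Nat.card_multiples (k + 1) q
    rw [← this]
  rw [h1, h2, le_div_iff₀ hq0]
  have h3 := Nat.div_mul_le_self (k + 1) q
  exact_mod_cast h3

/-- indicator of `q ∣ L_i`, `i < length` -/
noncomputable def D_R4c (q i : ℕ) (L : List ℕ) : ℝ :=
  if i < L.length ∧ q ∣ L.getD i 0 then 1 else 0

/-- product of two indicators -/
noncomputable def DD_R4c (q i j : ℕ) (L : List ℕ) : ℝ :=
  if (i < L.length ∧ q ∣ L.getD i 0) ∧ (j < L.length ∧ q ∣ L.getD j 0) then 1 else 0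

theorem E_D_R4c (q : ℕ) (hq : 1 ≤ q) (i k : ℕ) : E k (D_R4c q i) ≤ 1 / q := by
  have hq0 : (0 : ℝ) < q := by exact_mod_cast hq
  induction i generalizing k with
  | zero =>
    cases k with
    | zero =>
      rw [E_zero]
      simp only [D_R4c, List.length_nil, lt_self_iff_false, false_and, if_false]
      positivity
    | succ k =>
      rw [E_succ]
      have h1 : ∀ a : Fin (k + 1), E (k - a) (fun L => D_R4c q 0 ((a + 1 : ℕ) :: L)) =
          if q ∣ (a : ℕ) + 1 then 1 else 0 := by
        intro a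
        rw [← E_const (k - a) (if q ∣ (a : ℕ) + 1 then 1 else 0)]
        congr 1
        funext L
        simp [D_R4c]
      rw [Finset.sum_congr rfl fun a _ => h1 a, div_le_iff₀ (by positivity)]
      refine (sum_dvd_R4c q k hq).trans (le_of_eq ?_)
      ring
  | succ i ih =>
    cases k with
    | zero =>
      rw [E_zero]
      simp only [D_R4c, List.length_nil, not_lt_zero, false_and, if_false]
      positivity
    | succ k =>
      rw [E_succ, div_le_iff₀ (by positivity)]
      have h1 : ∀ a : Fin (k + 1), E (k - a) (fun L => D_R4c q (i + 1) ((a + 1 : ℕ) :: L)) ≤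
          1 / q := by
        intro a
        refine le_trans (le_of_eq ?_) (ih (k - a))
        congr 1
        funext L
        simp [D_R4c]
      refine (Finset.sum_le_sum fun a _ => h1 a).trans (le_of_eq ?_)
      rw [Finset.sum_const, Finset.card_univ, Fintype.card_fin, nsmul_eq_mul]
      push_cast
      ring

theorem E_DD_R4c (q : ℕ) (hq : 1 ≤ q) (i j : ℕ) (hij : i < j) (k : ℕ) :
    E k (DD_R4c q i j) ≤ 1 / (q : ℝ) ^ 2 := by
  have hq0 : (0 : ℝ) < q := by exact_mod_cast hq
  obtain ⟨j, rfl⟩ : ∃ j', j = j' + 1 := ⟨j - 1, by omega⟩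
  induction i generalizing k j with
  | zero =>
    cases k with
    | zero =>
      rw [E_zero]
      simp only [DD_R4c, List.length_nil, lt_self_iff_false, false_and, if_false]
      positivity
    | succ k =>
      rw [E_succ, div_le_iff₀ (by positivity)]
      have h1 : ∀ a : Fin (k + 1), E (k - a) (fun L => DD_R4c q 0 (j + 1) ((a + 1 : ℕ) :: L)) ≤
          (if q ∣ (a : ℕ) + 1 then 1 else 0) * (1 / q) := by
        intro a
        have e1 : E (k - a) (fun L => DD_R4c q 0 (j + 1) ((a + 1 : ℕ) :: L)) =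
            (if q ∣ (a : ℕ) + 1 then 1 else 0) * E (k - a) (D_R4c q j) := by
          rw [← E_mul]
          congr 1
          funext L
          by_cases h : q ∣ (a : ℕ) + 1
          · simp [DD_R4c, D_R4c, h]
          · simp [DD_R4c, D_R4c, h]
        rw [e1]
        refine mul_le_mul_of_nonneg_left (E_D_R4c q hq j _) ?_
        split_ifs <;> norm_num
      refine (Finset.sum_le_sum fun a _ => h1 a).trans ?_
      rw [← Finset.sum_mul]
      refine (mul_le_mul_of_nonneg_right (sum_dvd_R4c q k hq) (by positivity)).trans (le_of_eq ?_)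
      field_simp
  | succ i ih =>
    cases k with
    | zero =>
      rw [E_zero]
      simp only [DD_R4c, List.length_nil, not_lt_zero, false_and, if_false]
      positivity
    | succ k =>
      obtain ⟨j, rfl⟩ : ∃ j', j = j' + 1 := ⟨j - 1, by omega⟩
      rw [E_succ, div_le_iff₀ (by positivity)]
      have h1 : ∀ a : Fin (k + 1),
          E (k - a) (fun L => DD_R4c q (i + 1) (j + 1 + 1) ((a + 1 : ℕ) :: L)) ≤
          1 / (q : ℝ) ^ 2 := by
        intro a
        refine le_trans (le_of_eq ?_) (ih (k - a) j (by omega))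
        congr 1
        funext L
        simp [DD_R4c]
      refine (Finset.sum_le_sum fun a _ => h1 a).trans (le_of_eq ?_)
      rw [Finset.sum_const, Finset.card_univ, Fintype.card_fin, nsmul_eq_mul]
      push_cast
      ring

open scoped Classical in
/-- R4c -/
theorem E_bad (k m Q : ℕ) (hQ : 1 ≤ Q) :
    E k (fun L => if ∃ i j, i < j ∧ j < m ∧ j < L.length ∧
      Q < Nat.gcd (L.getD i 0) (L.getD j 0) then 1 else 0) ≤ (m : ℝ) ^ 2 / Q := by
  have hQ0 : (0 : ℝ) < Q := by exact_mod_cast hQ
  -- union bound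
  have h1 : E k (fun L => if ∃ i j, i < j ∧ j < m ∧ j < L.length ∧
      Q < Nat.gcd (L.getD i 0) (L.getD j 0) then 1 else 0) ≤
      E k (fun L => ∑ x ∈ ((Finset.range m ×ˢ Finset.range m).filter fun x => x.1 < x.2) ×ˢ
        Finset.Ioc Q k, DD_R4c x.2 x.1.1 x.1.2 L) := by
    refine E_mono fun L hL hs => ?_
    have hnn : ∀ x ∈ ((Finset.range m ×ˢ Finset.range m).filter fun x => x.1 < x.2) ×ˢ
        Finset.Ioc Q k, 0 ≤ DD_R4c x.2 x.1.1 x.1.2 L := by
      intro x _
      unfold DD_R4c
      split_ifs <;> norm_num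
    split_ifs with h
    · obtain ⟨i, j, hij, hjm, hjl, hg⟩ := h
      have hil : i < L.length := hij.trans hjl
      have hmem : L.getD i 0 ∈ L := by
        rw [List.getD_eq_getElem _ _ hil]
        exact List.getElem_mem hil
      have hi1 : 1 ≤ L.getD i 0 := hL _ hmem
      have hgle : Nat.gcd (L.getD i 0) (L.getD j 0) ≤ k := by
        refine (Nat.gcd_le_left _ hi1).trans ?_
        rw [← hs]
        exact List.single_le_sum (fun x _ => Nat.zero_le x) _ hmem
      have h2 : DD_R4c (Nat.gcd (L.getD i 0) (L.getD j 0)) i j L = 1 := by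
        unfold DD_R4c
        rw [if_pos]
        exact ⟨⟨hil, Nat.gcd_dvd_left _ _⟩, ⟨hjl, Nat.gcd_dvd_right _ _⟩⟩
      rw [← h2]
      refine Finset.single_le_sum (f := fun x : (ℕ × ℕ) × ℕ => DD_R4c x.2 x.1.1 x.1.2 L) hnn
        (a := ((i, j), Nat.gcd (L.getD i 0) (L.getD j 0))) ?_
      simp only [Finset.mem_product, Finset.mem_filter, Finset.mem_range, Finset.mem_Ioc]
      exact ⟨⟨⟨hij.trans hjm, hjm⟩, hij⟩, hg, hgle⟩
    · exact Finset.sum_nonneg hnn
  refine h1.trans ?_
  rw [E_sum, Finset.sum_product]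
  have h2 : ∀ x ∈ ((Finset.range m ×ˢ Finset.range m).filter fun x => x.1 < x.2),
      ∑ q ∈ Finset.Ioc Q k, E k (DD_R4c q x.1 x.2) ≤ 1 / (Q : ℝ) := by
    intro x hx
    rw [Finset.mem_filter] at hx
    rcases le_or_gt Q k with hk | hk
    · have h3 : ∑ q ∈ Finset.Ioc Q k, E k (DD_R4c q x.1 x.2) ≤
          ∑ q ∈ Finset.Ioc Q k, ((q : ℝ) ^ 2)⁻¹ := by
        refine Finset.sum_le_sum fun q hq => ?_
        rw [Finset.mem_Ioc] at hq
        rw [← one_div]
        exact E_DD_R4c q (by omega) _ _ hx.2 k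
      have h4 := sum_Ioc_inv_sq_le_sub (α := ℝ) (k := Q) (n := k) (by omega) hk
      have h5 : (0 : ℝ) ≤ (k : ℝ)⁻¹ := by positivity
      rw [one_div]
      linarith
    · rw [Finset.Ioc_eq_empty (by omega), Finset.sum_empty]
      positivity
  refine (Finset.sum_le_sum h2).trans ?_
  rw [Finset.sum_const, nsmul_eq_mul, mul_one_div]
  refine div_le_div_of_nonneg_right ?_ hQ0.le
  have h6 : ((Finset.range m ×ˢ Finset.range m).filter fun x => x.1 < x.2).card ≤ m ^ 2 := by
    refine (Finset.card_filter_le _ _).trans ?_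
    rw [Finset.card_product, Finset.card_range, sq]
  exact_mod_cast h6

end RandomCA
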