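import Mathlib
import Pool.Agent.Lib.MP_eab41b_pr.Base

/-! Row R6a. -/

open MeasureTheory Filter Topology Function
open scoped NNReal

namespace RandomCA

private theorem r6a_shift {W : ℕ} (k : ℕ) (hk : 1 ≤ k) (B C : ℝ) (f : ℕ → ZMod W → ℝ)
    (h1 : ∀ a, a ≤ k → ∀ ρ, |f a ρ| ≤ B) (h2 : ∀ a, a < k → ∀ ρ, |f (a + 1) ρ - f a ρ| ≤ C / k)
    (c : ZMod W) :
    |(∑ a ∈ Finset.range k, f (a + 1) (((a + 1 : ℕ) : ZMod W) + c)) -
      ∑ a ∈ Finset.range k, f (a + 1) (((a + 1 : ℕ) : ZMod W) + (c + 1))| ≤ 2 * B + C := by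
  have hk0 : (0 : ℝ) < k := by exact_mod_cast hk
  set w : ℕ → ℝ := fun a => f a (((a + 1 : ℕ) : ZMod W) + c) with hw
  have e1 : ∑ a ∈ Finset.range k, f (a + 1) (((a + 1 : ℕ) : ZMod W) + (c + 1)) =
      (∑ a ∈ Finset.range k, w a) + w k - w 0 := by
    have e2 : ∑ a ∈ Finset.range k, f (a + 1) (((a + 1 : ℕ) : ZMod W) + (c + 1)) =
        ∑ a ∈ Finset.range k, w (a + 1) := by
      apply Finset.sum_congr rfl
      intro a _
      rw [hw]
      simp only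
      congr 1
      push_cast
      ring
    rw [e2]
    have e3 := Finset.sum_range_succ' w k
    have e4 := Finset.sum_range_succ w k
    linarith
  rw [e1]
  have e5 : (∑ a ∈ Finset.range k, f (a + 1) (((a + 1 : ℕ) : ZMod W) + c)) -
      ((∑ a ∈ Finset.range k, w a) + w k - w 0) =
      (∑ a ∈ Finset.range k, (f (a + 1) (((a + 1 : ℕ) : ZMod W) + c) - w a)) - w k + w 0 := by
    rw [Finset.sum_sub_distrib]
    ring
  rw [e5]
  have e6 : |∑ a ∈ Finset.range k, (f (a + 1) (((a + 1 : ℕ) : ZMod W) + c) - w a)| ≤ C := by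
    refine (Finset.abs_sum_le_sum_abs _ _).trans ?_
    have : ∑ a ∈ Finset.range k, |f (a + 1) (((a + 1 : ℕ) : ZMod W) + c) - w a| ≤
        ∑ a ∈ Finset.range k, C / k :=
      Finset.sum_le_sum fun a ha => h2 a (Finset.mem_range.1 ha) _
    rw [Finset.sum_const, Finset.card_range, nsmul_eq_mul] at this
    refine this.trans (le_of_eq ?_)
    field_simp
  have e7 : |w k| ≤ B := h1 k le_rfl _
  have e8 : |w 0| ≤ B := h1 0 (Nat.zero_le _) _
  rw [abs_le] at *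
  constructor <;> linarith [e6.1, e6.2, e7.1, e7.2, e8.1, e8.2]

private theorem r6a_shift_nat {W : ℕ} (k : ℕ) (hk : 1 ≤ k) (B C : ℝ) (f : ℕ → ZMod W → ℝ)
    (h1 : ∀ a, a ≤ k → ∀ ρ, |f a ρ| ≤ B) (h2 : ∀ a, a < k → ∀ ρ, |f (a + 1) ρ - f a ρ| ≤ C / k)
    (j : ℕ) :
    |(∑ a ∈ Finset.range k, f (a + 1) ((a + 1 : ℕ) : ZMod W)) -
      ∑ a ∈ Finset.range k, f (a + 1) (((a + 1 : ℕ) : ZMod W) + (j : ZMod W))| ≤
      j * (2 * B + C) := by
  induction j with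
  | zero => simp
  | succ j ih =>
    have h3 := r6a_shift k hk B C f h1 h2 (j : ZMod W)
    have e : ((j + 1 : ℕ) : ZMod W) = (j : ZMod W) + 1 := by push_cast; ring
    rw [e]
    have e2 : ((j + 1 : ℕ) : ℝ) * (2 * B + C) = j * (2 * B + C) + (2 * B + C) := by
      push_cast; ring
    rw [e2]
    exact (abs_sub_le _ _ _).trans (add_le_add ih h3)

private theorem r6a_avg {W : ℕ} [NeZero W] (k : ℕ) (hk : 1 ≤ k) (B C : ℝ) (hB : 0 ≤ B)
    (hC : 0 ≤ C) (f : ℕ → ZMod W → ℝ)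
    (h1 : ∀ a, a ≤ k → ∀ ρ, |f a ρ| ≤ B) (h2 : ∀ a, a < k → ∀ ρ, |f (a + 1) ρ - f a ρ| ≤ C / k) :
    |(∑ a ∈ Finset.range k, f (a + 1) ((a + 1 : ℕ) : ZMod W)) -
      (∑ ρ : ZMod W, ∑ a ∈ Finset.range k, f (a + 1) ρ) / W| ≤ W * (2 * B + C) := by
  have hW : (0 : ℝ) < W := by exact_mod_cast Nat.pos_of_ne_zero (NeZero.ne W)
  have e1 : ∑ ρ : ZMod W, ∑ a ∈ Finset.range k, f (a + 1) ρ =
      ∑ c : ZMod W, ∑ a ∈ Finset.range k, f (a + 1) (((a + 1 : ℕ) : ZMod W) + c) := by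
    rw [Finset.sum_comm, Finset.sum_comm (s := Finset.univ) (t := Finset.range k)]
    apply Finset.sum_congr rfl
    intro a _
    exact (Equiv.sum_comp (Equiv.addLeft ((a + 1 : ℕ) : ZMod W)) (f (a + 1))).symm
  rw [e1]
  set S : ℝ := ∑ a ∈ Finset.range k, f (a + 1) ((a + 1 : ℕ) : ZMod W) with hS
  have e2 : S = (∑ _c : ZMod W, S) / W := by
    rw [Finset.sum_const, Finset.card_univ, ZMod.card, nsmul_eq_mul]
    field_simp
  have e3 : S - (∑ c : ZMod W, ∑ a ∈ Finset.range k, f (a + 1) (((a + 1 : ℕ) : ZMod W) + c)) / W =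
      (∑ c : ZMod W, (S - ∑ a ∈ Finset.range k, f (a + 1) (((a + 1 : ℕ) : ZMod W) + c))) / W := by
    rw [Finset.sum_sub_distrib, sub_div, ← e2]
  rw [e3, abs_div, abs_of_pos hW, div_le_iff₀ hW]
  refine (Finset.abs_sum_le_sum_abs _ _).trans ?_
  have h3 : ∀ c : ZMod W, |S - ∑ a ∈ Finset.range k, f (a + 1) (((a + 1 : ℕ) : ZMod W) + c)| ≤
      W * (2 * B + C) := by
    intro c
    have h4 := r6a_shift_nat k hk B C f h1 h2 c.val
    rw [ZMod.natCast_val, ZMod.cast_id', id] at h4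
    refine h4.trans ?_
    apply mul_le_mul_of_nonneg_right _ (by linarith)
    exact_mod_cast (ZMod.val_lt c).le
  have h5 := Finset.sum_le_sum fun (c : ZMod W) (_ : c ∈ Finset.univ) => h3 c
  rw [Finset.sum_const, Finset.card_univ, ZMod.card, nsmul_eq_mul] at h5
  linarith

private theorem r6a_riemann (g : ℝ → ℝ) (C : ℝ)
    (hg : ∀ x, 0 ≤ x → x ≤ 1 → ∀ y, 0 ≤ y → y ≤ 1 → |g x - g y| ≤ C * |x - y|)
    (hC : 0 ≤ C) (k : ℕ) (hk : 1 ≤ k) :
    |(∑ a ∈ Finset.range k, g (((a + 1 : ℕ) : ℝ) / k)) / k - ∫ x in (0 : ℝ)..1, g x| ≤ C / k := by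
  have hk0 : (0 : ℝ) < k := by exact_mod_cast hk
  have hcont : ContinuousOn g (Set.Icc 0 1) := by
    have : LipschitzOnWith C.toNNReal g (Set.Icc 0 1) := by
      apply LipschitzOnWith.of_dist_le_mul
      intro x hx y hy
      rw [Real.dist_eq, Real.dist_eq, Real.coe_toNNReal C hC]
      exact hg x hx.1 hx.2 y hy.1 hy.2
    exact this.continuousOn
  have hmem : ∀ a : ℕ, a ≤ k → (0 : ℝ) ≤ (a : ℝ) / k ∧ (a : ℝ) / k ≤ 1 := by
    intro a ha
    refine ⟨by positivity, ?_⟩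
    rw [div_le_one hk0]
    exact_mod_cast ha
  have hint : ∀ a : ℕ, a < k → IntervalIntegrable g volume ((a : ℝ) / k) (((a + 1 : ℕ) : ℝ) / k) := by
    intro a ha
    apply ContinuousOn.intervalIntegrable
    apply hcont.mono
    rw [Set.uIcc_of_le (by gcongr; simp)]
    exact Set.Icc_subset_Icc (hmem a ha.le).1 (hmem (a + 1) ha).2
  have e1 : ∫ x in (0 : ℝ)..1, g x =
      ∑ a ∈ Finset.range k, ∫ x in ((a : ℝ) / k)..(((a + 1 : ℕ) : ℝ) / k), g x := by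
    rw [intervalIntegral.sum_integral_adjacent_intervals (a := fun a : ℕ => (a : ℝ) / k) hint]
    simp [hk0.ne']
  rw [e1, Finset.sum_div, ← Finset.sum_sub_distrib]
  refine (Finset.abs_sum_le_sum_abs _ _).trans ?_
  have h3 : ∀ a ∈ Finset.range k, |g (((a + 1 : ℕ) : ℝ) / k) / k -
      ∫ x in ((a : ℝ) / k)..(((a + 1 : ℕ) : ℝ) / k), g x| ≤ C / k / k := by
    intro a ha
    have ha' := Finset.mem_range.1 ha
    have hlen : ((a + 1 : ℕ) : ℝ) / k - (a : ℝ) / k = 1 / k := by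
      push_cast; ring
    have e2 : g (((a + 1 : ℕ) : ℝ) / k) / k =
        ∫ x in ((a : ℝ) / k)..(((a + 1 : ℕ) : ℝ) / k), g (((a + 1 : ℕ) : ℝ) / k) := by
      rw [intervalIntegral.integral_const, hlen, smul_eq_mul]
      ring
    rw [e2, ← intervalIntegral.integral_sub (by simp) (hint a ha')]
    have h4 := intervalIntegral.norm_integral_le_of_norm_le_const (a := (a : ℝ) / k)
      (b := ((a + 1 : ℕ) : ℝ) / k) (C := C / k)
      (f := fun x => g (((a + 1 : ℕ) : ℝ) / k) - g x) ?_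
    · rw [Real.norm_eq_abs, hlen, abs_of_pos (show (0 : ℝ) < 1 / k by positivity)] at h4
      refine h4.trans (le_of_eq ?_)
      ring
    · intro x hx
      have hle : (a : ℝ) / k ≤ ((a + 1 : ℕ) : ℝ) / k := by gcongr; simp
      rw [Set.uIoc_of_le hle] at hx
      rw [Real.norm_eq_abs]
      have h5 := hg (((a + 1 : ℕ) : ℝ) / k) (hmem (a + 1) ha').1 (hmem (a + 1) ha').2 x
        ((hmem a ha'.le).1.trans hx.1.le) (hx.2.trans (hmem (a + 1) ha').2)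
      refine h5.trans ?_
      rw [abs_of_nonneg (by linarith [hx.2])]
      have h6 : ((a + 1 : ℕ) : ℝ) / k - x ≤ 1 / k := by linarith [hx.1]
      calc C * (((a + 1 : ℕ) : ℝ) / k - x) ≤ C * (1 / k) := mul_le_mul_of_nonneg_left h6 hC
        _ = C / k := by ring
  have h7 := Finset.sum_le_sum h3
  rw [Finset.sum_const, Finset.card_range, nsmul_eq_mul] at h7
  refine h7.trans (le_of_eq ?_)
  field_simp

/-- R6a -/
theorem one_step (W : ℕ) [NeZero W] (B C : ℝ) (hB : 0 ≤ B) (hC : 0 ≤ C) :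
    ∃ D : ℝ, ∀ h : ℝ → ZMod W → ℝ, (∀ x, 0 ≤ x → x ≤ 1 → ∀ ρ, |h x ρ| ≤ B) →
      (∀ x, 0 ≤ x → x ≤ 1 → ∀ y, 0 ≤ y → y ≤ 1 → ∀ ρ, |h x ρ - h y ρ| ≤ C * |x - y|) →
      ∀ k : ℕ, 1 ≤ k →
        |(∑ a ∈ Finset.Icc 1 k, h ((a : ℝ) / k) (a : ZMod W)) / k -
          (∑ ρ : ZMod W, ∫ x in (0 : ℝ)..1, h x ρ) / W| ≤ D / k := by
  refine ⟨W * (2 * B + C) + C, ?_⟩
  intro h hhB hhC k hk
  have hk0 : (0 : ℝ) < k := by exact_mod_cast hk
  have hW : (0 : ℝ) < W := by exact_mod_cast Nat.pos_of_ne_zero (NeZero.ne W)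
  have e1 : ∑ a ∈ Finset.Icc 1 k, h ((a : ℝ) / k) (a : ZMod W) =
      ∑ a ∈ Finset.range k, h (((a + 1 : ℕ) : ℝ) / k) ((a + 1 : ℕ) : ZMod W) := by
    rw [Finset.range_eq_Ico, Finset.sum_Ico_add' (fun a : ℕ => h ((a : ℝ) / k) (a : ZMod W)) 0 k 1]
    rfl
  rw [e1]
  have hmem : ∀ a : ℕ, a ≤ k → (0 : ℝ) ≤ (a : ℝ) / k ∧ (a : ℝ) / k ≤ 1 := by
    intro a ha
    refine ⟨by positivity, ?_⟩
    rw [div_le_one hk0]
    exact_mod_cast ha
  have h3 := r6a_avg (W := W) k hk B C hB hC (fun a ρ => h ((a : ℝ) / k) ρ)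
    (fun a ha ρ => hhB _ (hmem a ha).1 (hmem a ha).2 ρ)
    (by
      intro a ha ρ
      refine (hhC _ (hmem (a + 1) ha).1 (hmem (a + 1) ha).2 _ (hmem a ha.le).1
        (hmem a ha.le).2 ρ).trans (le_of_eq ?_)
      have : ((a + 1 : ℕ) : ℝ) / k - (a : ℝ) / k = 1 / k := by push_cast; ring
      rw [this, abs_of_pos (by positivity)]
      ring)
  have h4 : |(∑ ρ : ZMod W, ∑ a ∈ Finset.range k, h (((a + 1 : ℕ) : ℝ) / k) ρ) / W / k -
      (∑ ρ : ZMod W, ∫ x in (0 : ℝ)..1, h x ρ) / W| ≤ C / k := by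
    have e2 : (∑ ρ : ZMod W, ∑ a ∈ Finset.range k, h (((a + 1 : ℕ) : ℝ) / k) ρ) / W / k -
        (∑ ρ : ZMod W, ∫ x in (0 : ℝ)..1, h x ρ) / W =
        (∑ ρ : ZMod W, ((∑ a ∈ Finset.range k, h (((a + 1 : ℕ) : ℝ) / k) ρ) / k -
          ∫ x in (0 : ℝ)..1, h x ρ)) / W := by
      rw [Finset.sum_sub_distrib, ← Finset.sum_div]
      ring
    rw [e2, abs_div, abs_of_pos hW, div_le_iff₀ hW]
    refine (Finset.abs_sum_le_sum_abs _ _).trans ?_
    have h5 := Finset.sum_le_sum fun (ρ : ZMod W) (_ : ρ ∈ Finset.univ) =>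
      r6a_riemann (fun x => h x ρ) C (fun x hx hx' y hy hy' => hhC x hx hx' y hy hy' ρ) hC k hk
    rw [Finset.sum_const, Finset.card_univ, ZMod.card, nsmul_eq_mul] at h5
    linarith
  have h6 : |(∑ a ∈ Finset.range k, h (((a + 1 : ℕ) : ℝ) / k) ((a + 1 : ℕ) : ZMod W)) / k -
      (∑ ρ : ZMod W, ∑ a ∈ Finset.range k, h (((a + 1 : ℕ) : ℝ) / k) ρ) / W / k| ≤
      W * (2 * B + C) / k := by
    rw [← sub_div, abs_div, abs_of_pos hk0]
    exact div_le_div_of_nonneg_right h3 hk0.le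
  refine (abs_sub_le _ _ _).trans ((add_le_add h6 h4).trans (le_of_eq ?_))
  ring

end RandomCA
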