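import Mathlib
import Pool.Agent.Lib.MP_eab41b_pr.R6a

/-! Row R6b. -/

open MeasureTheory Filter Topology Function
open scoped NNReal

namespace RandomCA

/-- the section of `H` at the first entry `(x, ρ)` -/
noncomputable def sec {W : ℕ} (x : ℝ) (ρ : ZMod W) (H : Sq W → ℝ) : Sq W → ℝ :=
  fun s => H (Sq.cons (x, ρ) (Sq.scale (1 - x) s))

lemma box_zero {W : ℕ} : Sq.Box (fun _ => ((0 : ℝ), (0 : ZMod W)) : Sq W) :=
  fun _ => ⟨le_refl _, zero_le_one⟩

lemma box_cons {W : ℕ} {x : ℝ} (hx : 0 ≤ x) (hx1 : x ≤ 1) {ρ : ZMod W} {s : Sq W} (hs : s.Box) :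
    Sq.Box (Sq.cons (x, ρ) (Sq.scale (1 - x) s)) := by
  intro i
  cases i with
  | zero => exact ⟨hx, hx1⟩
  | succ i =>
    have h1 := hs i
    refine ⟨mul_nonneg (by linarith) h1.1, ?_⟩
    exact mul_le_one₀ (by linarith) h1.1 h1.2

lemma nice_sec {W : ℕ} {B C : ℝ} {H : Sq W → ℝ} (hH : Nice B C H) {x : ℝ} (hx : 0 ≤ x)
    (hx1 : x ≤ 1) (ρ : ZMod W) : Nice B C (sec x ρ H) := by
  refine ⟨fun s hs => hH.1 _ (box_cons hx hx1 hs), ?_⟩
  intro s s' hs hs' hr δ hδ
  have hδ0 : 0 ≤ δ := (abs_nonneg _).trans (hδ 0)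
  refine hH.2 _ _ (box_cons hx hx1 hs) (box_cons hx hx1 hs') ?_ δ ?_
  · intro i
    cases i with
    | zero => rfl
    | succ i => exact hr i
  · intro i
    cases i with
    | zero =>
      show |x - x| ≤ δ
      rw [sub_self, abs_zero]; exact hδ0
    | succ i =>
      show |(1 - x) * (s i).1 - (1 - x) * (s' i).1| ≤ δ
      rw [← mul_sub, abs_mul, abs_of_nonneg (by linarith : (0 : ℝ) ≤ 1 - x)]
      calc (1 - x) * |(s i).1 - (s' i).1| ≤ 1 * δ :=
            mul_le_mul (by linarith) (hδ i) (abs_nonneg _) zero_le_one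
        _ = δ := one_mul δ

lemma sec_sub {W : ℕ} {B C : ℝ} {H : Sq W → ℝ} (hH : Nice B C H) {x y : ℝ} (hx : 0 ≤ x)
    (hx1 : x ≤ 1) (hy : 0 ≤ y) (hy1 : y ≤ 1) (ρ : ZMod W) (s : Sq W) (hs : s.Box) :
    |sec x ρ H s - sec y ρ H s| ≤ C * |x - y| := by
  refine hH.2 _ _ (box_cons hx hx1 hs) (box_cons hy hy1 hs) ?_ _ ?_
  · intro i
    cases i with
    | zero => rfl
    | succ i => rfl
  · intro i
    cases i with
    | zero => exact le_refl _
    | succ i =>
      show |(1 - x) * (s i).1 - (1 - y) * (s i).1| ≤ |x - y|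
      have e : (1 - x) * (s i).1 - (1 - y) * (s i).1 = -((x - y) * (s i).1) := by ring
      rw [e, abs_neg, abs_mul, abs_of_nonneg (hs i).1]
      calc |x - y| * (s i).1 ≤ |x - y| * 1 := mul_le_mul_of_nonneg_left (hs i).2 (abs_nonneg _)
        _ = _ := mul_one _

lemma eInf_succ {W : ℕ} [NeZero W] (m : ℕ) (H : Sq W → ℝ) :
    eInf (m + 1) H = (∑ ρ : ZMod W, ∫ x in (0 : ℝ)..1, eInf m (sec x ρ H)) / W := rfl

lemma eInf_bound {W : ℕ} [NeZero W] {B C : ℝ} (m : ℕ) : ∀ H : Sq W → ℝ, Nice B C H →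
    |eInf m H| ≤ B := by
  induction m with
  | zero => intro H hH; exact hH.1 _ box_zero
  | succ m ih =>
    intro H hH
    have hW : (0 : ℝ) < W := by exact_mod_cast Nat.pos_of_ne_zero (NeZero.ne W)
    rw [eInf_succ, abs_div, abs_of_pos hW, div_le_iff₀ hW]
    refine (Finset.abs_sum_le_sum_abs _ _).trans ?_
    have h1 : ∀ ρ ∈ (Finset.univ : Finset (ZMod W)), |∫ x in (0 : ℝ)..1, eInf m (sec x ρ H)| ≤ B := by
      intro ρ _
      have h2 := intervalIntegral.norm_integral_le_of_norm_le_const (a := (0 : ℝ)) (b := 1)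
        (C := B) (f := fun x => eInf m (sec x ρ H)) (fun x hx => by
          rw [Set.uIoc_of_le zero_le_one] at hx
          exact ih _ (nice_sec hH hx.1.le hx.2 ρ))
      simpa using h2
    refine (Finset.sum_le_sum h1).trans ?_
    rw [Finset.sum_const, Finset.card_univ, ZMod.card, nsmul_eq_mul, mul_comm]

/-- stability and continuity -/
lemma eInf_stab {W : ℕ} [NeZero W] {B C : ℝ} (hC : 0 ≤ C) (m : ℕ) :
    ∀ H H' : Sq W → ℝ, Nice B C H → Nice B C H' → ∀ ε : ℝ, 0 ≤ ε →
      (∀ s : Sq W, s.Box → |H s - H' s| ≤ ε) → |eInf m H - eInf m H'| ≤ ε := by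
  induction m with
  | zero => intro H H' _ _ ε _ h; exact h _ box_zero
  | succ m ih =>
    intro H H' hH hH' ε hε h
    have hW : (0 : ℝ) < W := by exact_mod_cast Nat.pos_of_ne_zero (NeZero.ne W)
    have hint : ∀ (H : Sq W → ℝ), Nice B C H → ∀ ρ : ZMod W,
        IntervalIntegrable (fun x => eInf m (sec x ρ H)) volume 0 1 := by
      intro H hH ρ
      refine ContinuousOn.intervalIntegrable ?_
      rw [Set.uIcc_of_le zero_le_one]
      have hlip : LipschitzOnWith ⟨C, hC⟩ (fun x => eInf m (sec x ρ H)) (Set.Icc (0 : ℝ) 1) := by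
        refine LipschitzOnWith.of_dist_le_mul fun x hx y hy => ?_
        rw [Real.dist_eq, Real.dist_eq]
        exact ih _ _ (nice_sec hH hx.1 hx.2 ρ) (nice_sec hH hy.1 hy.2 ρ) _
          (mul_nonneg hC (abs_nonneg _)) (fun s hs => sec_sub hH hx.1 hx.2 hy.1 hy.2 ρ s hs)
      exact hlip.continuousOn
    rw [eInf_succ, eInf_succ, ← sub_div, abs_div, abs_of_pos hW, div_le_iff₀ hW,
      ← Finset.sum_sub_distrib]
    refine (Finset.abs_sum_le_sum_abs _ _).trans ?_
    have h1 : ∀ ρ ∈ (Finset.univ : Finset (ZMod W)),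
        |(∫ x in (0 : ℝ)..1, eInf m (sec x ρ H)) - ∫ x in (0 : ℝ)..1, eInf m (sec x ρ H')| ≤ ε := by
      intro ρ _
      rw [← intervalIntegral.integral_sub (hint H hH ρ) (hint H' hH' ρ)]
      have h2 := intervalIntegral.norm_integral_le_of_norm_le_const (a := (0 : ℝ)) (b := 1)
        (C := ε) (f := fun x => eInf m (sec x ρ H) - eInf m (sec x ρ H')) (fun x hx => by
          rw [Set.uIoc_of_le zero_le_one] at hx
          exact ih _ _ (nice_sec hH hx.1.le hx.2 ρ) (nice_sec hH' hx.1.le hx.2 ρ) ε hε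
            (fun s hs => h _ (box_cons hx.1.le hx.2 hs)))
      simpa using h2
    refine (Finset.sum_le_sum h1).trans ?_
    rw [Finset.sum_const, Finset.card_univ, ZMod.card, nsmul_eq_mul, mul_comm]

/-- R6b -/
theorem eFin_tendsto (W : ℕ) [NeZero W] (m : ℕ) (B C : ℝ) (hB : 0 ≤ B) (hC : 0 ≤ C) :
    ∃ δ : ℕ → ℝ, Tendsto δ atTop (𝓝 0) ∧
      ∀ H : Sq W → ℝ, Nice B C H → ∀ k, |eFin m k H - eInf m H| ≤ δ k := by
  induction m with
  | zero =>
    refine ⟨fun _ => 0, tendsto_const_nhds, fun H _ k => ?_⟩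
    show |H _ - H _| ≤ 0
    rw [sub_self, abs_zero]
  | succ m ih =>
    obtain ⟨δ, hδ, hδH⟩ := ih
    obtain ⟨D, hD⟩ := one_step W B C hB hC
    refine ⟨fun k => (k : ℝ)⁻¹ * ∑ j ∈ Finset.range k, δ j + D / k + (if k = 0 then 2 * B else 0),
      ?_, ?_⟩
    · have h1 := hδ.cesaro
      have h2 : Tendsto (fun k : ℕ => D / (k : ℝ)) atTop (𝓝 0) := tendsto_const_div_atTop_nhds_zero_nat D
      have h3 : Tendsto (fun k : ℕ => if k = 0 then 2 * B else 0) atTop (𝓝 0) := by
        refine Tendsto.congr' ?_ tendsto_const_nhds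
        filter_upwards [eventually_gt_atTop 0] with k hk
        rw [if_neg hk.ne']
      have := (h1.add h2).add h3
      simpa using this
    · intro H hH k
      rcases Nat.eq_zero_or_pos k with hk | hk
      · subst hk
        have e : eFin (m + 1) 0 H = H fun _ => (0, 0) := by
          show (if 0 = 0 then _ else _) = _
          rw [if_pos rfl]
        dsimp only
        rw [e, if_pos rfl]
        have h1 := hH.1 _ box_zero
        have h2 := eInf_bound (m + 1) H hH
        have h3 := abs_sub (H fun _ => (0, 0)) (eInf (m + 1) H)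
        simp only [Nat.cast_zero, inv_zero, zero_mul, div_zero, zero_add]
        linarith
      · dsimp only
        rw [if_neg hk.ne', add_zero]
        have hk0 : (0 : ℝ) < k := by exact_mod_cast hk
        have e : eFin (m + 1) k H = (∑ a ∈ Finset.Icc 1 k,
            eFin m (k - a) (sec ((a : ℝ) / k) (a : ZMod W) H)) / k := by
          show (if k = 0 then _ else _) = _
          rw [if_neg hk.ne']
          congr 1
          refine Finset.sum_congr rfl fun a ha => ?_
          rw [Finset.mem_Icc] at ha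
          unfold sec
          have e2 : (((k - a : ℕ) : ℝ) / k) = 1 - (a : ℝ) / k := by
            rw [Nat.cast_sub ha.2, sub_div, div_self hk0.ne']
          rw [e2]
        have hunit : ∀ a ∈ Finset.Icc 1 k, 0 ≤ (a : ℝ) / k ∧ (a : ℝ) / k ≤ 1 := by
          intro a ha
          rw [Finset.mem_Icc] at ha
          refine ⟨by positivity, ?_⟩
          rw [div_le_one hk0]
          exact_mod_cast ha.2
        have h1 : |eFin (m + 1) k H - (∑ a ∈ Finset.Icc 1 k,
            eInf m (sec ((a : ℝ) / k) (a : ZMod W) H)) / k| ≤ (k : ℝ)⁻¹ * ∑ j ∈ Finset.range k, δ j := by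
          rw [e, ← sub_div, ← Finset.sum_sub_distrib, abs_div, abs_of_pos hk0, div_eq_inv_mul]
          refine mul_le_mul_of_nonneg_left ?_ (by positivity)
          refine (Finset.abs_sum_le_sum_abs _ _).trans ?_
          have h2 : ∑ a ∈ Finset.Icc 1 k, δ (k - a) = ∑ j ∈ Finset.range k, δ j := by
            rw [← Finset.sum_range_reflect]
            refine Finset.sum_nbij' (fun a => a - 1) (fun j => j + 1) ?_ ?_ ?_ ?_ ?_
            · intro a ha; rw [Finset.mem_Icc] at ha; rw [Finset.mem_range]; omega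
            · intro j hj; rw [Finset.mem_range] at hj; rw [Finset.mem_Icc]; omega
            · intro a ha; rw [Finset.mem_Icc] at ha; omega
            · intro j hj; omega
            · intro a ha
              rw [Finset.mem_Icc] at ha
              congr 1
              omega
          rw [← h2]
          refine Finset.sum_le_sum fun a ha => ?_
          exact hδH _ (nice_sec hH (hunit a ha).1 (hunit a ha).2 _) (k - a)
        have h2 := hD (fun x ρ => eInf m (sec x ρ H))
          (fun x hx hx1 ρ => eInf_bound m _ (nice_sec hH hx hx1 ρ))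
          (fun x hx hx1 y hy hy1 ρ => eInf_stab hC m _ _ (nice_sec hH hx hx1 ρ)
            (nice_sec hH hy hy1 ρ) _ (mul_nonneg hC (abs_nonneg _))
            (fun s hs => sec_sub hH hx hx1 hy hy1 ρ s hs)) k hk
        rw [← eInf_succ] at h2
        have h3 := abs_sub_le (eFin (m + 1) k H) ((∑ a ∈ Finset.Icc 1 k,
            eInf m (sec ((a : ℝ) / k) (a : ZMod W) H)) / k) (eInf (m + 1) H)
        linarith

end RandomCA
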