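import Mathlib
import Pool.Agent.Lib.MP_eab41b_pr.R4a

/-! Row R7b. -/

open MeasureTheory Filter Topology Function
open scoped NNReal

namespace RandomCA

private theorem R7b_seq (W k b : ℕ) (hb : b < k) (L : List ℕ) :
    seqOf W k (b :: L) = Sq.cons ((b : ℝ) / k, (b : ZMod W))
      (Sq.scale (((k - b : ℕ) : ℝ) / k) (seqOf W (k - b) L)) := by
  have h0 : ((k - b : ℕ) : ℝ) ≠ 0 := by
    have : k - b ≠ 0 := by omega
    exact_mod_cast this
  have h1 : (k : ℝ) ≠ 0 := by
    have : k ≠ 0 := by omega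
    exact_mod_cast this
  funext i
  rcases i with _ | i
  · simp [seqOf, Sq.cons]
  · simp only [seqOf, Sq.cons, Sq.scale, List.getD_cons_succ]
    congr 1
    field_simp

private theorem R7b_seq0 (W k : ℕ) (_ : k ≠ 0) :
    seqOf W k [k] = Sq.cons ((k : ℝ) / k, (k : ZMod W))
      (Sq.scale (((k - k : ℕ) : ℝ) / k) (fun _ => (0, 0))) := by
  funext i
  rcases i with _ | i
  · simp [seqOf, Sq.cons]
  · simp [seqOf, Sq.cons, Sq.scale]

private theorem R7b_eFin0 {W : ℕ} (m : ℕ) (H : Sq W → ℝ) :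
    eFin m 0 H = H fun _ => (0, 0) := by
  rcases m with _ | m <;> simp [eFin]

/-- R7b -/
theorem E_eq_eFin (W : ℕ) [NeZero W] (m k : ℕ) (H : Sq W → ℝ)
    (hH : ∀ s s' : Sq W, (∀ i < m, s i = s' i) → H s = H s') :
    E k (fun L => H (seqOf W k L)) = eFin m k H := by
  induction m generalizing k H with
  | zero =>
    have h : (fun L : List ℕ => H (seqOf W k L)) = fun _ => H fun _ => (0, 0) := by
      funext L
      exact hH _ _ (fun i hi => absurd hi (Nat.not_lt_zero i))
    rw [h, E_const, eFin]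
  | succ m ih =>
    rcases k with _ | k
    · rw [R7b_eFin0, E]
      congr 1
      funext i
      simp [seqOf]
    · rw [eFin, if_neg (Nat.succ_ne_zero k), E]
      have hsum : ∑ a ∈ Finset.Icc 1 (k + 1), eFin m (k + 1 - a) (fun s =>
          H (Sq.cons ((a : ℝ) / (k + 1 : ℕ), (a : ZMod W))
            (Sq.scale (((k + 1 - a : ℕ) : ℝ) / (k + 1 : ℕ)) s))) =
          ∑ a : Fin (k + 1), eFin m (k - a) (fun s =>
          H (Sq.cons (((a + 1 : ℕ) : ℝ) / (k + 1 : ℕ), ((a + 1 : ℕ) : ZMod W))
            (Sq.scale (((k - a : ℕ) : ℝ) / (k + 1 : ℕ)) s))) := by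
        have h1 : Finset.Icc 1 (k + 1) = Finset.Ico 1 (k + 1 + 1) := by
          ext x
          simp only [Finset.mem_Icc, Finset.mem_Ico]
          omega
        rw [h1, Finset.sum_Ico_eq_sum_range, Nat.add_sub_cancel, Finset.sum_range]
        refine Finset.sum_congr rfl fun a _ => ?_
        have h2 : 1 + (a : ℕ) = a + 1 := by omega
        have h3 : k + 1 - (1 + (a : ℕ)) = k - a := by omega
        rw [h3, h2]
      rw [hsum]
      have hk1 : ((k + 1 : ℕ) : ℝ) = (k : ℝ) + 1 := by push_cast; ring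
      rw [hk1, ← hk1]
      refine congrArg (fun x : ℝ => x / ((k + 1 : ℕ) : ℝ)) ?_
      refine Finset.sum_congr rfl fun a _ => ?_
      have hH' : ∀ s s' : Sq W, (∀ i < m, s i = s' i) →
          (fun s => H (Sq.cons (((a + 1 : ℕ) : ℝ) / (k + 1 : ℕ), ((a + 1 : ℕ) : ZMod W))
            (Sq.scale (((k - a : ℕ) : ℝ) / (k + 1 : ℕ)) s))) s =
          (fun s => H (Sq.cons (((a + 1 : ℕ) : ℝ) / (k + 1 : ℕ), ((a + 1 : ℕ) : ZMod W))
            (Sq.scale (((k - a : ℕ) : ℝ) / (k + 1 : ℕ)) s))) s' := by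
        intro s s' h
        apply hH
        intro i hi
        rcases i with _ | i
        · rfl
        · simp only [Sq.cons, Sq.scale]
          rw [h i (by omega)]
      rw [← ih (k - a) _ hH']
      have ha : (a : ℕ) ≤ k := by omega
      rcases Nat.lt_or_ge (a : ℕ) k with hlt | hge
      · have hf : (fun L : List ℕ => H (seqOf W (k + 1) ((a + 1 : ℕ) :: L))) =
            fun L : List ℕ => H (Sq.cons (((a + 1 : ℕ) : ℝ) / (k + 1 : ℕ), ((a + 1 : ℕ) : ZMod W))
            (Sq.scale (((k - a : ℕ) : ℝ) / (k + 1 : ℕ)) (seqOf W (k - a) L))) := by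
          funext L
          have h4 := R7b_seq W (k + 1) (a + 1) (by omega) L
          rw [h4]
          have h5 : k + 1 - ((a : ℕ) + 1) = k - a := by omega
          rw [h5]
        rw [hf]
      · have hak : (a : ℕ) = k := by omega
        rw [hak]
        simp only [Nat.sub_self]
        rw [E, E]
        have h6 := R7b_seq0 W (k + 1) (Nat.succ_ne_zero k)
        rw [h6]
        congr 1
        funext i
        rcases i with _ | i
        · rfl
        · simp [Sq.cons, Sq.scale, seqOf]

end RandomCA
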