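import Mathlib
import Pool.Agent.Lib.MP_eab41b_pr.Base

/-! Row R7c. -/

open MeasureTheory Filter Topology Function
open scoped NNReal

namespace RandomCA

theorem prod_sub_prod_R7c (I : Finset ℕ) (x y : ℕ → ℝ) (hx : ∀ i, 0 ≤ x i ∧ x i ≤ 1)
    (hy : ∀ i, 0 ≤ y i ∧ y i ≤ 1) (δ : ℝ) (hδ : ∀ i, |x i - y i| ≤ δ) :
    |∏ i ∈ I, x i - ∏ i ∈ I, y i| ≤ I.card * δ := by
  classical
  induction I using Finset.induction_on with
  | empty => simp
  | insert a I ha ih =>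
    rw [Finset.prod_insert ha, Finset.prod_insert ha, Finset.card_insert_of_notMem ha]
    have e : x a * ∏ i ∈ I, x i - y a * ∏ i ∈ I, y i =
        (x a - y a) * ∏ i ∈ I, x i + y a * (∏ i ∈ I, x i - ∏ i ∈ I, y i) := by ring
    rw [e]
    refine (abs_add_le _ _).trans ?_
    rw [abs_mul, abs_mul]
    have h0 : 0 ≤ ∏ i ∈ I, x i := Finset.prod_nonneg fun i _ => (hx i).1
    have h1 : ∏ i ∈ I, x i ≤ 1 := Finset.prod_le_one (fun i _ => (hx i).1) fun i _ => (hx i).2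
    rw [abs_of_nonneg h0, abs_of_nonneg (hy a).1]
    have h2 : |x a - y a| * ∏ i ∈ I, x i ≤ δ :=
      (mul_le_of_le_one_right (abs_nonneg _) h1).trans (hδ a)
    have h3 : y a * |∏ i ∈ I, x i - ∏ i ∈ I, y i| ≤ I.card * δ :=
      (mul_le_of_le_one_left (abs_nonneg _) (hy a).2).trans ih
    push_cast
    linarith

theorem lcm_le_prod_R7c (I : Finset ℕ) (b : ℕ → ℕ) (hb : ∀ i, 1 ≤ b i) :
    I.lcm b ≤ ∏ i ∈ I, b i := by
  refine Nat.le_of_dvd (Finset.prod_pos fun i _ => hb i) ?_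
  exact Finset.lcm_dvd fun i hi => Finset.dvd_prod_of_mem b hi

theorem sup'_sub_R7c {ι : Type*} (S : Finset ι) (hS : S.Nonempty) (f g : ι → ℝ) (c : ℝ)
    (h : ∀ i ∈ S, |f i - g i| ≤ c) : |S.sup' hS f - S.sup' hS g| ≤ c := by
  rw [abs_le]
  constructor
  · have h1 : S.sup' hS g ≤ S.sup' hS f + c := by
      refine Finset.sup'_le hS g fun i hi => ?_
      have h2 := (abs_le.1 (h i hi)).1
      have h3 := Finset.le_sup' f hi
      linarith
    linarith
  · have h1 : S.sup' hS f ≤ S.sup' hS g + c := by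
      refine Finset.sup'_le hS f fun i hi => ?_
      have h2 := (abs_le.1 (h i hi)).2
      have h3 := Finset.le_sup' g hi
      linarith
    linarith

/-- R7c -/
theorem nice_HH (W : ℕ) [NeZero W] (m σ : ℕ) (hσ : σ ≤ m) (φ : ℝ → ℝ) (B : ℝ) (K : ℝ≥0)
    (hφB : ∀ x, |φ x| ≤ B) (hφK : LipschitzWith K φ) :
    Nice B (K * σ) (HH W m σ hσ φ) ∧
      ∀ s s' : Sq W, (∀ i < m, s i = s' i) → HH W m σ hσ φ s = HH W m σ hσ φ s' := by
  have hW : 0 < W := Nat.pos_of_ne_zero (NeZero.ne W)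
  refine ⟨⟨fun s _ => hφB _, ?_⟩, ?_⟩
  · intro s s' hs hs' hres δ hδ
    unfold HH
    refine (hφK.dist_le_mul _ _).trans ?_
    rw [Real.dist_eq, mul_assoc]
    refine mul_le_mul_of_nonneg_left ?_ K.2
    refine sup'_sub_R7c _ _ _ _ _ fun I hI => ?_
    have hcard := (Finset.mem_powersetCard.1 hI).2
    have hb : s.b = s'.b := by
      funext i
      unfold Sq.b
      rw [hres i]
    unfold Sq.wt
    rw [hb, ← sub_mul, abs_mul]
    have h1 := prod_sub_prod_R7c I (fun i => (s i).1) (fun i => (s' i).1) hs hs' δ hδ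
    rw [hcard] at h1
    have hb1 : ∀ i, 1 ≤ s'.b i := fun i => Nat.gcd_pos_of_pos_right _ hW
    have h2 : |((I.lcm s'.b : ℕ) : ℝ) / ((∏ i ∈ I, s'.b i : ℕ) : ℝ)| ≤ 1 := by
      rw [abs_of_nonneg (by positivity)]
      refine div_le_one_of_le₀ ?_ (by positivity)
      exact_mod_cast lcm_le_prod_R7c I s'.b hb1
    exact (mul_le_of_le_one_right (abs_nonneg _) h2).trans h1
  · intro s s' h
    unfold HH
    congr 1
    refine Finset.sup'_congr _ rfl fun I hI => ?_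
    have hsub := (Finset.mem_powersetCard.1 hI).1
    have hi : ∀ i ∈ I, s i = s' i := fun i hi => h i (Finset.mem_range.1 (hsub hi))
    unfold Sq.wt
    have e1 : ∏ i ∈ I, (s i).1 = ∏ i ∈ I, (s' i).1 :=
      Finset.prod_congr rfl fun i hi' => by rw [hi i hi']
    have e2 : ∀ i ∈ I, s.b i = s'.b i := fun i hi' => by
      unfold Sq.b
      rw [hi i hi']
    have e3 : I.lcm s.b = I.lcm s'.b := Finset.lcm_congr rfl e2
    have e4 : ∏ i ∈ I, s.b i = ∏ i ∈ I, s'.b i := Finset.prod_congr rfl e2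
    rw [e1, e3, e4]

end RandomCA
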