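import Mathlib
import Pool.Agent.Lib.MP_eab41b_pr.Base

/-! Row R5. -/

open MeasureTheory Filter Topology Function
open scoped NNReal

namespace RandomCA

theorem pow_dvd_lcm_aux {p k a b : ℕ} (hp : p.Prime) (h : p ^ k ∣ Nat.lcm a b) :
    p ^ k ∣ a ∨ p ^ k ∣ b := by
  rcases Nat.eq_zero_or_pos a with rfl | ha
  · exact Or.inl (dvd_zero _)
  rcases Nat.eq_zero_or_pos b with rfl | hb
  · exact Or.inr (dvd_zero _)
  have hl : Nat.lcm a b ≠ 0 := Nat.lcm_ne_zero ha.ne' hb.ne'
  rw [hp.pow_dvd_iff_le_factorization hl, Nat.factorization_lcm ha.ne' hb.ne'] at h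
  rw [hp.pow_dvd_iff_le_factorization ha.ne', hp.pow_dvd_iff_le_factorization hb.ne']
  simpa [Finsupp.sup_apply, le_sup_iff] using h

theorem gcd_lcm_dvd_aux (J : Finset ℕ) (a : ℕ → ℕ) (s X : ℕ)
    (h : ∀ i ∈ J, Nat.gcd s (a i) ∣ X) : Nat.gcd s (J.lcm a) ∣ X := by
  rw [Nat.dvd_iff_prime_pow_dvd_dvd]
  intro p k hp hd
  have h1 : p ^ k ∣ s := hd.trans (Nat.gcd_dvd_left _ _)
  have h2 : p ^ k ∣ J.lcm a := hd.trans (Nat.gcd_dvd_right _ _)
  clear hd
  induction J using Finset.induction_on with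
  | empty =>
    rw [Finset.lcm_empty] at h2
    exact h2.trans (one_dvd _)
  | insert i J hi ih =>
    rw [Finset.lcm_insert] at h2
    rcases pow_dvd_lcm_aux hp (a := a i) (b := J.lcm a) h2 with h3 | h3
    · exact (Nat.dvd_gcd h1 h3).trans (h i (Finset.mem_insert_self _ _))
    · exact ih (fun j hj => h j (Finset.mem_insert_of_mem hj)) h3

/-- R5 -/
theorem lcm_trunc (I : Finset ℕ) (a : ℕ → ℕ) (W : ℕ)
    (h : ∀ i ∈ I, ∀ j ∈ I, i ≠ j → Nat.gcd (a i) (a j) ∣ W) :
    I.lcm a * ∏ i ∈ I, Nat.gcd (a i) W = (∏ i ∈ I, a i) * I.lcm fun i => Nat.gcd (a i) W := by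
  classical
  induction I using Finset.induction_on with
  | empty => simp
  | insert s J hs ih =>
    have ih' := ih fun i hi j hj hij =>
      h i (Finset.mem_insert_of_mem hi) j (Finset.mem_insert_of_mem hj) hij
    rw [Finset.lcm_insert, Finset.lcm_insert, Finset.prod_insert hs, Finset.prod_insert hs]
    set A := J.lcm a with hA
    set B := J.lcm fun i => Nat.gcd (a i) W with hB
    set PA := ∏ i ∈ J, a i
    set PG := ∏ i ∈ J, Nat.gcd (a i) W
    change Nat.lcm (a s) A * (Nat.gcd (a s) W * PG) = (a s * PA) * Nat.lcm (Nat.gcd (a s) W) B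
    have hsW : ∀ i ∈ J, Nat.gcd (a s) (a i) ∣ W := fun i hi =>
      h s (Finset.mem_insert_self _ _) i (Finset.mem_insert_of_mem hi)
        (fun e => hs (e ▸ hi))
    have key : Nat.gcd (a s) A = Nat.gcd (Nat.gcd (a s) W) B := by
      apply Nat.dvd_antisymm
      · apply Nat.dvd_gcd
        · exact Nat.dvd_gcd (Nat.gcd_dvd_left _ _) (gcd_lcm_dvd_aux J a (a s) W hsW)
        · apply gcd_lcm_dvd_aux J a (a s) B
          intro i hi
          exact (Nat.dvd_gcd (Nat.gcd_dvd_right _ _) (hsW i hi)).trans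
            (Finset.dvd_lcm (f := fun i => Nat.gcd (a i) W) hi)
      · apply Nat.dvd_gcd
        · exact (Nat.gcd_dvd_left _ _).trans (Nat.gcd_dvd_left _ _)
        · refine (Nat.gcd_dvd_right _ _).trans ?_
          apply Finset.lcm_dvd
          intro i hi
          exact (Nat.gcd_dvd_left _ _).trans (Finset.dvd_lcm hi)
    rcases Nat.eq_zero_or_pos (Nat.gcd (a s) A) with h0 | hpos
    · have : a s = 0 := (Nat.gcd_eq_zero_iff.mp h0).1
      simp [this]
    · apply Nat.eq_of_mul_eq_mul_left hpos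
      have e1 : Nat.gcd (a s) A * Nat.lcm (a s) A = a s * A := Nat.gcd_mul_lcm _ _
      have e2 : Nat.gcd (a s) A * Nat.lcm (Nat.gcd (a s) W) B = Nat.gcd (a s) W * B := by
        rw [key]; exact Nat.gcd_mul_lcm _ _
      calc Nat.gcd (a s) A * (Nat.lcm (a s) A * (Nat.gcd (a s) W * PG))
          = (Nat.gcd (a s) A * Nat.lcm (a s) A) * (Nat.gcd (a s) W * PG) := by ring
        _ = (a s * Nat.gcd (a s) W) * (A * PG) := by rw [e1]; ring
        _ = (a s * Nat.gcd (a s) W) * (PA * B) := by rw [ih']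
        _ = (a s * PA) * (Nat.gcd (a s) W * B) := by ring
        _ = (a s * PA) * (Nat.gcd (a s) A * Nat.lcm (Nat.gcd (a s) W) B) := by rw [e2]
        _ = Nat.gcd (a s) A * (a s * PA * Nat.lcm (Nat.gcd (a s) W) B) := by ring

end RandomCA
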