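import Mathlib
import Pool.Agent.Lib.MP_eab41b_pr.R5

/-! Row R7d. -/

open MeasureTheory Filter Topology Function
open scoped NNReal

namespace RandomCA

private theorem b_seqOf_R7d (W k : ℕ) [NeZero W] (L : List ℕ) (i : ℕ) :
    (seqOf W k L).b i = Nat.gcd (L.getD i 0) W := by
  unfold Sq.b seqOf
  simp only [ZMod.val_natCast]
  rw [← Nat.gcd_rec, Nat.gcd_comm]

private theorem wt_seqOf_R7d (Q m σ : ℕ) (L : List ℕ) (hL : ∀ a ∈ L, 1 ≤ a)
    (k : ℕ) (hk : 1 ≤ k)
    (hgood : ¬ ∃ i j, i < j ∧ j < m ∧ j < L.length ∧ Q < Nat.gcd (L.getD i 0) (L.getD j 0))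
    (I : Finset ℕ) (hI : I ⊆ Finset.range m) (hc : I.card = σ) :
    (seqOf Q.factorial k L).wt I = ((I.lcm fun i => L.getD i 0 : ℕ) : ℝ) / (k : ℝ) ^ σ := by
  have : NeZero Q.factorial := ⟨Nat.factorial_ne_zero Q⟩
  have hk0 : (k : ℝ) ≠ 0 := by
    have : k ≠ 0 := by omega
    exact_mod_cast this
  have hb : (seqOf Q.factorial k L).b = fun i => Nat.gcd (L.getD i 0) Q.factorial := by
    funext i
    exact b_seqOf_R7d Q.factorial k L i
  unfold Sq.wt
  rw [hb]
  have hprod : ∏ i ∈ I, (seqOf Q.factorial k L i).1 =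
      ((∏ i ∈ I, L.getD i 0 : ℕ) : ℝ) / (k : ℝ) ^ σ := by
    unfold seqOf
    simp only
    rw [Finset.prod_div_distrib, Finset.prod_const, hc]
    push_cast
    rfl
  rw [hprod]
  by_cases hlen : ∀ i ∈ I, i < L.length
  · have hpos : ∀ i ∈ I, 1 ≤ L.getD i 0 := by
      intro i hi
      have h := hlen i hi
      rw [List.getD_eq_getElem _ _ h]
      exact hL _ (List.getElem_mem h)
    have key : ∀ i ∈ I, ∀ j ∈ I, i < j → Nat.gcd (L.getD i 0) (L.getD j 0) ∣ Q.factorial := by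
      intro i hi j hj hij
      have h1 : ¬ Q < Nat.gcd (L.getD i 0) (L.getD j 0) := fun h =>
        hgood ⟨i, j, hij, Finset.mem_range.1 (hI hj), hlen j hj, h⟩
      exact Nat.dvd_factorial (Nat.gcd_pos_of_pos_left _ (hpos i hi)) (not_lt.1 h1)
    have h := lcm_trunc I (fun i => L.getD i 0) Q.factorial (by
      intro i hi j hj hij
      rcases lt_or_gt_of_ne hij with h | h
      · exact key i hi j hj h
      · rw [Nat.gcd_comm]
        exact key j hj i hi h)
    have hb0 : ((∏ i ∈ I, Nat.gcd (L.getD i 0) Q.factorial : ℕ) : ℝ) ≠ 0 := by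
      have : ∏ i ∈ I, Nat.gcd (L.getD i 0) Q.factorial ≠ 0 := by
        rw [Finset.prod_ne_zero_iff]
        intro i _
        exact Nat.gcd_ne_zero_right (Nat.factorial_ne_zero Q)
      exact_mod_cast this
    have h' : ((I.lcm fun i => L.getD i 0 : ℕ) : ℝ) *
        ((∏ i ∈ I, Nat.gcd (L.getD i 0) Q.factorial : ℕ) : ℝ) =
        ((∏ i ∈ I, L.getD i 0 : ℕ) : ℝ) *
          ((I.lcm fun i => Nat.gcd (L.getD i 0) Q.factorial : ℕ) : ℝ) := by
      exact_mod_cast h
    rw [div_mul_div_comm, ← h']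
    field_simp
  · push Not at hlen
    obtain ⟨i, hi, hli⟩ := hlen
    have h0 : L.getD i 0 = 0 := List.getD_eq_default _ _ hli
    have hp0 : ∏ i ∈ I, L.getD i 0 = 0 := Finset.prod_eq_zero hi h0
    have hl0 : (I.lcm fun i => L.getD i 0) = 0 := by
      have : L.getD i 0 ∣ (I.lcm fun i => L.getD i 0) := Finset.dvd_lcm (f := fun i => L.getD i 0) hi
      rw [h0] at this
      exact Nat.eq_zero_of_zero_dvd this
    rw [hp0, hl0]
    simp

/-- R7d -/
theorem HH_seqOf (Q m σ : ℕ) (hσ : σ ≤ m) (φ : ℝ → ℝ) (L : List ℕ) (hL : ∀ a ∈ L, 1 ≤ a)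
    (k : ℕ) (hk : 1 ≤ k) (hsum : L.sum = k)
    (hgood : ¬ ∃ i j, i < j ∧ j < m ∧ j < L.length ∧ Q < Nat.gcd (L.getD i 0) (L.getD j 0)) :
    HH Q.factorial m σ hσ φ (seqOf Q.factorial k L) = φ ((topm σ m L : ℝ) / (k : ℝ) ^ σ) := by
  unfold HH topm
  congr 1
  have hne : ((Finset.range m).powersetCard σ).Nonempty :=
    Finset.powersetCard_nonempty.2 (by simpa using hσ)
  have hkpos : (0 : ℝ) < (k : ℝ) ^ σ := by
    have : (0 : ℝ) < (k : ℝ) := by exact_mod_cast hk
    positivity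
  have hw : ∀ I ∈ (Finset.range m).powersetCard σ, (seqOf Q.factorial k L).wt I =
      ((I.lcm fun i => L.getD i 0 : ℕ) : ℝ) / (k : ℝ) ^ σ := by
    intro I hI
    rw [Finset.mem_powersetCard] at hI
    exact wt_seqOf_R7d Q m σ L hL k hk hgood I hI.1 hI.2
  apply le_antisymm
  · apply Finset.sup'_le
    intro I hI
    rw [hw I hI]
    apply div_le_div_of_nonneg_right _ hkpos.le
    have := Finset.le_sup (f := fun I : Finset ℕ => I.lcm fun i => L.getD i 0) hI
    exact_mod_cast this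
  · obtain ⟨I, hI, hIe⟩ := Finset.exists_mem_eq_sup _ hne
      (fun I : Finset ℕ => I.lcm fun i => L.getD i 0)
    rw [hIe, ← hw I hI]
    exact Finset.le_sup' (fun I => (seqOf Q.factorial k L).wt I) hI

end RandomCA
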