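import Mathlib
import Pool.Agent.Lib.MP_eab41b_pr.R0c
import Pool.Agent.Lib.MP_eab41b_pr.R4b
import Pool.Agent.Lib.MP_eab41b_pr.R4c
import Pool.Agent.Lib.MP_eab41b_pr.R6b
import Pool.Agent.Lib.MP_eab41b_pr.R7a
import Pool.Agent.Lib.MP_eab41b_pr.R7b
import Pool.Agent.Lib.MP_eab41b_pr.R7c
import Pool.Agent.Lib.MP_eab41b_pr.R7d

/-! Row R7e. -/

open MeasureTheory Filter Topology Function
open scoped NNReal

namespace RandomCA

/-- the error of replacing all parts by the first `m` -/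
theorem R7e_step1 (σ : ℕ) (hσ : 1 ≤ σ) (φ : ℝ → ℝ) (K : ℝ≥0) (hφK : LipschitzWith K φ)
    (m k : ℕ) (hk : 1 ≤ k) :
    |E k (fun L => φ ((top σ (L : Multiset ℕ) : ℝ) / (k : ℝ) ^ σ)) -
      E k (fun L => φ ((topm σ m L : ℝ) / (k : ℝ) ^ σ))| ≤ K / 2 ^ m := by
  have hk0 : (0 : ℝ) < k := by exact_mod_cast hk
  have h1 : |E k (fun L => φ ((top σ (L : Multiset ℕ) : ℝ) / (k : ℝ) ^ σ)) -
      E k (fun L => φ ((topm σ m L : ℝ) / (k : ℝ) ^ σ))| ≤
      E k (fun L => ((K : ℝ) / k) * ((L.drop m).sum : ℝ)) := by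
    refine E_abs_sub fun L _ hsum => ?_
    have h2 := hφK.dist_le_mul ((top σ (L : Multiset ℕ) : ℝ) / (k : ℝ) ^ σ)
      ((topm σ m L : ℝ) / (k : ℝ) ^ σ)
    rw [Real.dist_eq, Real.dist_eq] at h2
    refine h2.trans ?_
    have h3 : (topm σ m L : ℝ) ≤ top σ (L : Multiset ℕ) := by
      exact_mod_cast topm_le_top σ m L
    have h4 : (top σ (L : Multiset ℕ) : ℝ) ≤
        topm σ m L + (L.drop m).sum * (k : ℝ) ^ (σ - 1) := by
      have := top_le_topm σ m hσ L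
      rw [hsum] at this
      exact_mod_cast this
    have h5 : |(top σ (L : Multiset ℕ) : ℝ) / (k : ℝ) ^ σ - (topm σ m L : ℝ) / (k : ℝ) ^ σ| ≤
        ((L.drop m).sum : ℝ) / k := by
      rw [← sub_div, abs_of_nonneg (div_nonneg (by linarith) (by positivity)),
        div_le_div_iff₀ (by positivity) hk0]
      have h6 : (k : ℝ) ^ σ = (k : ℝ) ^ (σ - 1) * k := by
        rw [← pow_succ, Nat.sub_add_cancel hσ]
      rw [h6, ← mul_assoc]
      exact mul_le_mul_of_nonneg_right (by linarith) hk0.le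
    calc (K : ℝ) * |(top σ (L : Multiset ℕ) : ℝ) / (k : ℝ) ^ σ -
          (topm σ m L : ℝ) / (k : ℝ) ^ σ| ≤ K * (((L.drop m).sum : ℝ) / k) :=
          mul_le_mul_of_nonneg_left h5 K.coe_nonneg
      _ = ((K : ℝ) / k) * ((L.drop m).sum : ℝ) := by ring
  refine h1.trans ?_
  rw [E_mul]
  calc (K : ℝ) / k * E k (fun L => ((L.drop m).sum : ℝ)) ≤ (K : ℝ) / k * (k / 2 ^ m) :=
        mul_le_mul_of_nonneg_left (E_drop k m) (by positivity)
    _ = K / 2 ^ m := by field_simp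

/-- the error of replacing the true functional by the truncated one -/
theorem R7e_step2 (σ m : ℕ) (hσ : σ ≤ m) (φ : ℝ → ℝ) (B : ℝ) (K : ℝ≥0)
    (hφB : ∀ x, |φ x| ≤ B) (hφK : LipschitzWith K φ) (Q : ℕ) (hQ : 1 ≤ Q) (k : ℕ) (hk : 1 ≤ k) :
    |E k (fun L => φ ((topm σ m L : ℝ) / (k : ℝ) ^ σ)) -
      eFin m k (HH Q.factorial m σ hσ φ)| ≤ 2 * B * ((m : ℝ) ^ 2 / Q) := by
  classical
  have hB : 0 ≤ B := (abs_nonneg _).trans (hφB 0)
  have : NeZero Q.factorial := ⟨Nat.factorial_ne_zero Q⟩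
  obtain ⟨_, hN2⟩ := nice_HH Q.factorial m σ hσ φ B K hφB hφK
  rw [← E_eq_eFin Q.factorial m k _ hN2]
  refine (E_abs_sub (D := fun L => 2 * B * (if ∃ i j, i < j ∧ j < m ∧ j < L.length ∧
      Q < Nat.gcd (L.getD i 0) (L.getD j 0) then 1 else 0)) fun L hL hsum => ?_).trans ?_
  · split_ifs with h
    · have h1 := hφB ((topm σ m L : ℝ) / (k : ℝ) ^ σ)
      have h2 : |HH Q.factorial m σ hσ φ (seqOf Q.factorial k L)| ≤ B := hφB _
      calc |φ ((topm σ m L : ℝ) / (k : ℝ) ^ σ) -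
            HH Q.factorial m σ hσ φ (seqOf Q.factorial k L)| ≤
            |φ ((topm σ m L : ℝ) / (k : ℝ) ^ σ)| +
            |HH Q.factorial m σ hσ φ (seqOf Q.factorial k L)| := abs_sub _ _
        _ ≤ 2 * B * 1 := by linarith
    · rw [HH_seqOf Q m σ hσ φ L hL k hk hsum h, sub_self, abs_zero, mul_zero]
  · rw [E_mul]
    refine mul_le_mul_of_nonneg_left ?_ (by positivity)
    convert E_bad k m Q hQ

/-- R7e -/
theorem conv_E (σ : ℕ) (hσ : 1 ≤ σ) (φ : ℝ → ℝ) (B : ℝ) (K : ℝ≥0) (hφB : ∀ x, |φ x| ≤ B)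
    (hφK : LipschitzWith K φ) :
    ∃ l, Tendsto (fun k : ℕ => E k fun L => φ ((top σ (L : Multiset ℕ) : ℝ) / (k : ℝ) ^ σ)) atTop
      (𝓝 l) := by
  classical
  have hB : 0 ≤ B := (abs_nonneg _).trans (hφB 0)
  refine conv_of_approx _ fun ε hε => ?_
  obtain ⟨m, hm1, hm2⟩ : ∃ m : ℕ, σ ≤ m ∧ (K : ℝ) / 2 ^ m ≤ ε / 2 := by
    have h1 : Tendsto (fun m : ℕ => (K : ℝ) / 2 ^ m) atTop (𝓝 0) :=
      tendsto_const_nhds.div_atTop (tendsto_pow_atTop_atTop_of_one_lt (by norm_num))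
    have h2 := (eventually_ge_atTop σ).and (h1.eventually_le_const (half_pos hε))
    obtain ⟨m, hm⟩ := h2.exists
    exact ⟨m, hm.1, hm.2⟩
  obtain ⟨Q, hQ1, hQ2⟩ : ∃ Q : ℕ, 1 ≤ Q ∧ 2 * B * ((m : ℝ) ^ 2 / Q) ≤ ε / 2 := by
    have h1 : Tendsto (fun Q : ℕ => 2 * B * ((m : ℝ) ^ 2 / Q)) atTop (𝓝 0) := by
      have := (tendsto_const_nhds (x := (m : ℝ) ^ 2)).div_atTop tendsto_natCast_atTop_atTop
      simpa using this.const_mul (2 * B)
    have h2 := (eventually_ge_atTop 1).and (h1.eventually_le_const (half_pos hε))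
    obtain ⟨Q, hQ⟩ := h2.exists
    exact ⟨Q, hQ.1, hQ.2⟩
  have : NeZero Q.factorial := ⟨Nat.factorial_ne_zero Q⟩
  obtain ⟨hN1, hN2⟩ := nice_HH Q.factorial m σ hm1 φ B K hφB hφK
  obtain ⟨δ, hδ, hδ2⟩ := eFin_tendsto Q.factorial m B (K * σ) hB (by positivity)
  refine ⟨fun k => eFin m k (HH Q.factorial m σ hm1 φ),
    ⟨eInf m (HH Q.factorial m σ hm1 φ), ?_⟩, ?_⟩
  · rw [tendsto_iff_dist_tendsto_zero]
    refine squeeze_zero (fun _ => dist_nonneg) (fun k => ?_) hδ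
    rw [Real.dist_eq]
    exact hδ2 _ hN1 k
  · filter_upwards [eventually_ge_atTop 1] with k hk
    have h1 := R7e_step1 σ hσ φ K hφK m k hk
    have h2 := R7e_step2 σ m hm1 φ B K hφB hφK Q hQ1 k hk
    refine (abs_sub_le _ (E k (fun L => φ ((topm σ m L : ℝ) / (k : ℝ) ^ σ))) _).trans ?_
    linarith

end RandomCA
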