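import Mathlib
import Pool.Agent.Lib.MP_eab41b_pr.Base

/-! Row R8a. -/

open MeasureTheory Filter Topology Function
open scoped NNReal

namespace RandomCA

private theorem R8a_sum (k : ℕ) : ∑ i ∈ Finset.range k, (i : ℝ) = (k : ℝ) * ((k : ℝ) - 1) / 2 := by
  induction k with
  | zero => simp
  | succ k ih =>
    rw [Finset.sum_range_succ, ih]
    push_cast
    ring

private theorem R8a_prod (n k : ℕ) (hn : 1 ≤ n) (h : k ≤ n) :
    pp n k = ∏ i ∈ Finset.range k, (1 - (i : ℝ) / n) := by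
  have hn0 : (0 : ℝ) < n := by exact_mod_cast hn
  rw [pp, Nat.descFactorial_eq_prod_range, Nat.cast_prod, div_eq_iff (by positivity)]
  have hc : (n : ℝ) ^ k = ∏ _i ∈ Finset.range k, (n : ℝ) := by
    rw [Finset.prod_const, Finset.card_range]
  rw [hc, ← Finset.prod_mul_distrib]
  refine Finset.prod_congr rfl fun i hi => ?_
  have hi' : i ≤ n := (Finset.mem_range.1 hi).le.trans h
  rw [Nat.cast_sub hi']
  field_simp

private theorem R8a_upper (n k : ℕ) (hn : 1 ≤ n) (h : k ≤ n) :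
    pp n k ≤ Real.exp (-((k : ℝ) * ((k : ℝ) - 1) / (2 * n))) := by
  have hn0 : (0 : ℝ) < n := by exact_mod_cast hn
  have h2 : ∏ i ∈ Finset.range k, (1 - (i : ℝ) / n) ≤
      ∏ i ∈ Finset.range k, Real.exp (-((i : ℝ) / n)) := by
    refine Finset.prod_le_prod ?_ ?_
    · intro i hi
      have hi' : (i : ℝ) ≤ n := by exact_mod_cast (Finset.mem_range.1 hi).le.trans h
      have : (i : ℝ) / n ≤ 1 := (div_le_one hn0).2 hi'
      linarith
    · intro i _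
      have := Real.add_one_le_exp (-((i : ℝ) / n))
      linarith
  rw [R8a_prod n k hn h]
  refine h2.trans (le_of_eq ?_)
  rw [← Real.exp_sum, Finset.sum_neg_distrib, ← Finset.sum_div, R8a_sum]
  congr 2
  field_simp

private theorem R8a_lower (n k : ℕ) (h : k < n) :
    Real.exp (-((k : ℝ) * ((k : ℝ) - 1) / (2 * ((n : ℝ) - k)))) ≤ pp n k := by
  have hn : 1 ≤ n := by omega
  have hn0 : (0 : ℝ) < n := by exact_mod_cast hn
  have hk0 : (0 : ℝ) < (n : ℝ) - k := by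
    have : (k : ℝ) < n := by exact_mod_cast h
    linarith
  have h2 : ∏ i ∈ Finset.range k, Real.exp (-((i : ℝ) / ((n : ℝ) - k))) ≤
      ∏ i ∈ Finset.range k, (1 - (i : ℝ) / n) := by
    refine Finset.prod_le_prod (fun i _ => (Real.exp_pos _).le) ?_
    intro i hi
    have hik : (i : ℝ) ≤ k := by exact_mod_cast (Finset.mem_range.1 hi).le
    have hin : (0 : ℝ) < (n : ℝ) - i := by linarith
    have h3 : 1 - (i : ℝ) / n = ((n : ℝ) - i) / n := by
      field_simp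
    have h4 : (n : ℝ) / ((n : ℝ) - i) ≤ Real.exp ((i : ℝ) / ((n : ℝ) - k)) := by
      have h5 := Real.add_one_le_exp ((i : ℝ) / ((n : ℝ) - k))
      have h6 : (i : ℝ) / ((n : ℝ) - i) ≤ (i : ℝ) / ((n : ℝ) - k) :=
        div_le_div_of_nonneg_left (Nat.cast_nonneg i) hk0 (by linarith)
      have h7 : (n : ℝ) / ((n : ℝ) - i) = (i : ℝ) / ((n : ℝ) - i) + 1 := by
        field_simp
        ring
      rw [h7]
      linarith
    rw [h3, Real.exp_neg, inv_le_comm₀ (Real.exp_pos _) (by positivity), inv_div]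
    exact h4
  rw [R8a_prod n k hn h.le]
  refine le_trans (le_of_eq ?_) h2
  rw [← Real.exp_sum, Finset.sum_neg_distrib, ← Finset.sum_div, R8a_sum]
  congr 2
  field_simp

/-- R8a -/
theorem pp_tendsto (x : ℝ) (hx : 0 ≤ x) :
    Tendsto (fun n : ℕ => pp n ⌈x * √(n : ℝ)⌉₊) atTop (𝓝 (Real.exp (-x ^ 2 / 2))) := by
  have hs : Tendsto (fun n : ℕ => √(n : ℝ)) atTop atTop :=
    Real.tendsto_sqrt_atTop.comp tendsto_natCast_atTop_atTop
  have hk : Tendsto (fun n : ℕ => (⌈x * √(n : ℝ)⌉₊ : ℝ) / √(n : ℝ)) atTop (𝓝 x) :=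
    (tendsto_nat_ceil_mul_div_atTop hx).comp hs
  have hi : Tendsto (fun n : ℕ => (√(n : ℝ))⁻¹) atTop (𝓝 0) := tendsto_inv_atTop_zero.comp hs
  have hA : Tendsto (fun n : ℕ => -((⌈x * √(n : ℝ)⌉₊ : ℝ) * ((⌈x * √(n : ℝ)⌉₊ : ℝ) - 1) /
      (2 * n))) atTop (𝓝 (-x ^ 2 / 2)) := by
    have h1 := ((hk.mul (hk.sub hi)).div_const 2).neg
    have h2 : -(x * (x - 0) / 2) = -x ^ 2 / 2 := by ring
    rw [h2] at h1
    refine h1.congr' ?_
    filter_upwards [eventually_gt_atTop 0] with n hn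
    have hn0 : (0 : ℝ) < n := by exact_mod_cast hn
    have hs0 : 0 < √(n : ℝ) := Real.sqrt_pos.2 hn0
    have hsq : √(n : ℝ) * √(n : ℝ) = n := Real.mul_self_sqrt hn0.le
    congr 1
    rw [← hsq]
    simp only [Real.sqrt_mul_self hs0.le]
    field_simp
  have hq : Tendsto (fun n : ℕ => (1 - (⌈x * √(n : ℝ)⌉₊ : ℝ) / √(n : ℝ) * (√(n : ℝ))⁻¹))
      atTop (𝓝 1) := by
    have h1 := (tendsto_const_nhds (x := (1 : ℝ))).sub (hk.mul hi)
    rw [mul_zero, sub_zero] at h1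
    exact h1
  have hkn : ∀ᶠ n : ℕ in atTop, ⌈x * √(n : ℝ)⌉₊ < n := by
    have h1 := hq.eventually (lt_mem_nhds (show (0 : ℝ) < 1 by norm_num))
    filter_upwards [h1, eventually_gt_atTop 0] with n h2 hn
    have hn0 : (0 : ℝ) < n := by exact_mod_cast hn
    have hsq : √(n : ℝ) * √(n : ℝ) = n := Real.mul_self_sqrt hn0.le
    have h3 : (⌈x * √(n : ℝ)⌉₊ : ℝ) / √(n : ℝ) * (√(n : ℝ))⁻¹ = (⌈x * √(n : ℝ)⌉₊ : ℝ) / n := by
      rw [← div_eq_mul_inv, div_div, hsq]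
    rw [h3] at h2
    have h4 : (⌈x * √(n : ℝ)⌉₊ : ℝ) / n < 1 := by linarith
    rw [div_lt_one hn0] at h4
    exact_mod_cast h4
  have hB : Tendsto (fun n : ℕ => -((⌈x * √(n : ℝ)⌉₊ : ℝ) * ((⌈x * √(n : ℝ)⌉₊ : ℝ) - 1) /
      (2 * ((n : ℝ) - ⌈x * √(n : ℝ)⌉₊)))) atTop (𝓝 (-x ^ 2 / 2)) := by
    have h1 := hA.div hq one_ne_zero
    rw [div_one] at h1
    refine h1.congr' ?_
    filter_upwards [hkn, eventually_gt_atTop 0] with n hlt hn
    have hn0 : (0 : ℝ) < n := by exact_mod_cast hn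
    have hsq : √(n : ℝ) * √(n : ℝ) = n := Real.mul_self_sqrt hn0.le
    have h3 : (⌈x * √(n : ℝ)⌉₊ : ℝ) / √(n : ℝ) * (√(n : ℝ))⁻¹ = (⌈x * √(n : ℝ)⌉₊ : ℝ) / n := by
      rw [← div_eq_mul_inv, div_div, hsq]
    have h4 : (0 : ℝ) < (n : ℝ) - ⌈x * √(n : ℝ)⌉₊ := by
      have : (⌈x * √(n : ℝ)⌉₊ : ℝ) < n := by exact_mod_cast hlt
      linarith
    simp only [Pi.div_apply]
    rw [h3]
    have h5 : 1 - (⌈x * √(n : ℝ)⌉₊ : ℝ) / n = ((n : ℝ) - ⌈x * √(n : ℝ)⌉₊) / n := by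
      field_simp
    rw [h5, neg_div, div_div]
    congr 2
    field_simp
  refine tendsto_of_tendsto_of_tendsto_of_le_of_le'
    ((Real.continuous_exp.tendsto _).comp hB) ((Real.continuous_exp.tendsto _).comp hA) ?_ ?_
  · filter_upwards [hkn] with n hlt
    exact R8a_lower n _ hlt
  · filter_upwards [hkn] with n hlt
    exact R8a_upper n _ (by omega) hlt.le

end RandomCA
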