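import Mathlib
import Pool.Agent.Lib.MP_eab41b_pr.Base

/-! Row R8c. -/

open MeasureTheory Filter Topology Function
open scoped NNReal

namespace RandomCA

private theorem R8c_sum (k : ℕ) : ∑ i ∈ Finset.range k, (i : ℝ) = (k : ℝ) * ((k : ℝ) - 1) / 2 := by
  induction k with
  | zero => simp
  | succ k ih =>
    rw [Finset.sum_range_succ, ih]
    push_cast
    ring

private theorem R8c_upper (n k : ℕ) (hn : 1 ≤ n) :
    pp n k ≤ Real.exp (-((k : ℝ) * ((k : ℝ) - 1) / (2 * n))) := by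
  have hn0 : (0 : ℝ) < n := by exact_mod_cast hn
  rcases lt_or_ge n k with h | h
  · rw [pp, Nat.descFactorial_of_lt h]
    simp only [Nat.cast_zero, zero_div]
    exact (Real.exp_pos _).le
  · have h1 : pp n k = ∏ i ∈ Finset.range k, (1 - (i : ℝ) / n) := by
      rw [pp, Nat.descFactorial_eq_prod_range, Nat.cast_prod, div_eq_iff (by positivity)]
      have hc : (n : ℝ) ^ k = ∏ _i ∈ Finset.range k, (n : ℝ) := by
        rw [Finset.prod_const, Finset.card_range]
      rw [hc, ← Finset.prod_mul_distrib]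
      refine Finset.prod_congr rfl fun i hi => ?_
      have hi' : i ≤ n := (Finset.mem_range.1 hi).le.trans h
      rw [Nat.cast_sub hi']
      field_simp
    have h2 : ∏ i ∈ Finset.range k, (1 - (i : ℝ) / n) ≤
        ∏ i ∈ Finset.range k, Real.exp (-((i : ℝ) / n)) := by
      refine Finset.prod_le_prod ?_ ?_
      · intro i hi
        have hi' : (i : ℝ) ≤ n := by exact_mod_cast (Finset.mem_range.1 hi).le.trans h
        have : (i : ℝ) / n ≤ 1 := (div_le_one hn0).2 hi'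
        linarith
      · intro i _
        have := Real.add_one_le_exp (-((i : ℝ) / n))
        linarith
    rw [h1]
    refine h2.trans (le_of_eq ?_)
    rw [← Real.exp_sum, Finset.sum_neg_distrib, ← Finset.sum_div, R8c_sum]
    congr 2
    field_simp

/-- R8c -/
theorem pp_le (n : ℕ) (hn : 1 ≤ n) (x : ℝ) (hx : 1 ≤ x) :
    pp n ⌈x * √(n : ℝ)⌉₊ ≤ Real.exp (-(x ^ 2 - x) / 2) := by
  have hn1 : (1 : ℝ) ≤ n := by exact_mod_cast hn
  have hn0 : (0 : ℝ) < n := by linarith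
  refine (R8c_upper n _ hn).trans (Real.exp_le_exp.2 ?_)
  set k : ℝ := (⌈x * √(n : ℝ)⌉₊ : ℝ) with hk
  have hs1 : 1 ≤ √(n : ℝ) := Real.one_le_sqrt.2 hn1
  have hsq : √(n : ℝ) * √(n : ℝ) = n := Real.mul_self_sqrt hn0.le
  have hk1 : x * √(n : ℝ) ≤ k := Nat.le_ceil _
  have hxs : 1 ≤ x * √(n : ℝ) := by nlinarith
  have hsn : √(n : ℝ) ≤ n := by nlinarith
  have h1 : x * √(n : ℝ) * (x * √(n : ℝ) - 1) ≤ k * (k - 1) := by
    nlinarith
  have h2 : (x ^ 2 - x) * n ≤ k * (k - 1) := by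
    have h3 : x * √(n : ℝ) * (x * √(n : ℝ) - 1) = x ^ 2 * n - x * √(n : ℝ) := by
      calc x * √(n : ℝ) * (x * √(n : ℝ) - 1)
          = x ^ 2 * (√(n : ℝ) * √(n : ℝ)) - x * √(n : ℝ) := by ring
        _ = x ^ 2 * n - x * √(n : ℝ) := by rw [hsq]
    have h4 : x * √(n : ℝ) ≤ x * n := mul_le_mul_of_nonneg_left hsn (by linarith)
    nlinarith
  have h5 : (x ^ 2 - x) / 2 ≤ k * (k - 1) / (2 * n) := by
    rw [div_le_div_iff₀ (by norm_num) (by linarith)]
    nlinarith
  have h6 : -(x ^ 2 - x) / 2 = -((x ^ 2 - x) / 2) := by ring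
  rw [h6]
  linarith

end RandomCA
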