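import Mathlib
import Pool.Agent.Lib.MP_eab41b_pr.R0
import Pool.Agent.Lib.MP_eab41b_pr.R0c
import Pool.Agent.Lib.MP_eab41b_pr.R1d
import Pool.Agent.Lib.MP_eab41b_pr.R2a
import Pool.Agent.Lib.MP_eab41b_pr.R2d
import Pool.Agent.Lib.MP_eab41b_pr.R3a
import Pool.Agent.Lib.MP_eab41b_pr.R3b
import Pool.Agent.Lib.MP_eab41b_pr.R4a
import Pool.Agent.Lib.MP_eab41b_pr.R7a
import Pool.Agent.Lib.MP_eab41b_pr.R7e
import Pool.Agent.Lib.MP_eab41b_pr.R8a
import Pool.Agent.Lib.MP_eab41b_pr.R8b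
import Pool.Agent.Lib.MP_eab41b_pr.R8c

/-! Assembly. -/

open MeasureTheory Filter Topology Function
open scoped NNReal

namespace RandomCA

/-- rules with one neighbour are maps -/
def ruleEquiv (n : ℕ) : ((Fin 1 → Fin n) → Fin n) ≃ (Fin n → Fin n) where
  toFun f a := f fun _ => a
  invFun g x := g (x 0)
  left_inv f := by
    funext x
    show f (fun _ => x 0) = f x
    congr 1
    funext i
    rw [Subsingleton.elim i 0]
  right_inv g := rfl

/-- the mixed functional -/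
noncomputable def FF (σ : ℕ) (φ : ℝ → ℝ) (k : ℕ) (x : ℝ) : ℝ :=
  E k fun L => φ (x ^ σ * ((top σ (L : Multiset ℕ) : ℝ) / (k : ℝ) ^ σ))

theorem top_div_mem {σ k : ℕ} {L : List ℕ} (hL : L.sum = k) :
    0 ≤ (top σ (L : Multiset ℕ) : ℝ) / (k : ℝ) ^ σ ∧
      (top σ (L : Multiset ℕ) : ℝ) / (k : ℝ) ^ σ ≤ 1 := by
  refine ⟨by positivity, div_le_one_of_le₀ ?_ (by positivity)⟩
  have h := top_le_pow σ (L : Multiset ℕ)
  rw [Multiset.sum_coe, hL] at h
  exact_mod_cast h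

theorem FF_bound {σ : ℕ} {φ : ℝ → ℝ} {B : ℝ} (hφB : ∀ x, |φ x| ≤ B) (k : ℕ) (x : ℝ) :
    |FF σ φ k x| ≤ B := by
  rw [abs_le]
  constructor
  · rw [← E_const k (-B)]
    exact E_mono fun L _ _ => (abs_le.1 (hφB _)).1
  · rw [← E_const k B]
    exact E_mono fun L _ _ => (abs_le.1 (hφB _)).2

theorem pow_sub_pow_abs (σ : ℕ) {A x y : ℝ} (hx : 0 ≤ x) (hxA : x ≤ A) (hy : 0 ≤ y) (hyA : y ≤ A) :
    |x ^ σ - y ^ σ| ≤ σ * A ^ (σ - 1) * |x - y| := by
  have hA : 0 ≤ A := hx.trans hxA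
  induction σ with
  | zero => simp
  | succ s ih =>
    rcases Nat.eq_zero_or_pos s with rfl | hs
    · simp
    · have e : x ^ (s + 1) - y ^ (s + 1) = (x ^ s - y ^ s) * x + y ^ s * (x - y) := by ring
      rw [e]
      refine (abs_add_le _ _).trans ?_
      rw [abs_mul, abs_mul, abs_of_nonneg hx, abs_of_nonneg (pow_nonneg hy s)]
      have h1 : |x ^ s - y ^ s| * x ≤ (s * A ^ (s - 1) * |x - y|) * A :=
        mul_le_mul ih hxA hx (by positivity)
      have h2 : y ^ s * |x - y| ≤ A ^ s * |x - y| :=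
        mul_le_mul_of_nonneg_right (pow_le_pow_left₀ hy hyA s) (abs_nonneg _)
      have h3 : A ^ (s - 1) * A = A ^ s := by
        rw [← pow_succ, Nat.sub_add_cancel hs]
      have h4 : (s * A ^ (s - 1) * |x - y|) * A = s * A ^ s * |x - y| := by
        rw [← h3]; ring
      rw [h4] at h1
      have h5 : ((s + 1 : ℕ) : ℝ) * A ^ (s + 1 - 1) * |x - y| =
          s * A ^ s * |x - y| + A ^ s * |x - y| := by
        push_cast
        ring
      rw [h5]
      exact add_le_add h1 h2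

theorem FF_lip {σ : ℕ} {φ : ℝ → ℝ} {K : ℝ≥0} (hφK : LipschitzWith K φ) (A : ℝ) (k : ℕ) (x y : ℝ)
    (hx : 0 ≤ x) (hxA : x ≤ A) (hy : 0 ≤ y) (hyA : y ≤ A) :
    |FF σ φ k x - FF σ φ k y| ≤ (K * (σ * A ^ (σ - 1))) * |x - y| := by
  have h := E_abs_sub (k := k)
    (G := fun L : List ℕ => φ (x ^ σ * ((top σ (L : Multiset ℕ) : ℝ) / (k : ℝ) ^ σ)))
    (G' := fun L : List ℕ => φ (y ^ σ * ((top σ (L : Multiset ℕ) : ℝ) / (k : ℝ) ^ σ)))
    (D := fun _ => (K * (σ * A ^ (σ - 1))) * |x - y|) (by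
      intro L _ hs
      have h1 := hφK.dist_le_mul (x ^ σ * ((top σ (L : Multiset ℕ) : ℝ) / (k : ℝ) ^ σ))
        (y ^ σ * ((top σ (L : Multiset ℕ) : ℝ) / (k : ℝ) ^ σ))
      rw [Real.dist_eq, Real.dist_eq, ← sub_mul, abs_mul] at h1
      refine h1.trans ?_
      rw [mul_assoc]
      refine mul_le_mul_of_nonneg_left ?_ K.2
      obtain ⟨h2, h3⟩ := top_div_mem (σ := σ) hs
      rw [abs_of_nonneg h2]
      refine (mul_le_of_le_one_right (abs_nonneg _) h3).trans ?_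
      exact pow_sub_pow_abs σ hx hxA hy hyA)
  rwa [E_const] at h

theorem FF_conv {σ : ℕ} (hσ : 1 ≤ σ) {φ : ℝ → ℝ} {B : ℝ} {K : ℝ≥0} (hφB : ∀ x, |φ x| ≤ B)
    (hφK : LipschitzWith K φ) (x : ℝ) (hx : 0 ≤ x) :
    ∃ l, Tendsto (fun k => FF σ φ k x) atTop (𝓝 l) := by
  refine conv_E σ hσ (fun z => φ (x ^ σ * z)) B (K * ⟨x ^ σ, pow_nonneg hx σ⟩) (fun z => hφB _) ?_
  refine LipschitzWith.of_dist_le_mul fun z z' => ?_
  refine (hφK.dist_le_mul _ _).trans ?_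
  rw [Real.dist_eq, Real.dist_eq, ← mul_sub, abs_mul, abs_of_nonneg (pow_nonneg hx σ)]
  push_cast
  rw [mul_assoc]
  exact le_rfl

/-- average of a function of the cycle lengths over all maps -/
theorem sum_lens {n : ℕ} (Ψ : Multiset ℕ → ℝ) :
    ∑ g : Fin n → Fin n, Ψ (lens g) =
      ∑ g : Fin n → Fin n, E (cycN g) fun L => Ψ (L : Multiset ℕ) := by
  have h := resample (n := n) fun C π => Ψ (lensP π)
  refine h.trans (Finset.sum_congr rfl fun g _ => ?_)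
  rw [avgP_lensP, partition_sum]
  rfl

theorem sum_top {n : ℕ} (hn : 1 ≤ n) (σ : ℕ) (hσ : 1 ≤ σ) (φ : ℝ → ℝ) :
    ∑ g : Fin n → Fin n, φ ((top σ (lens g) : ℝ) / (n : ℝ) ^ ((σ : ℝ) / 2)) =
      ∑ g : Fin n → Fin n, FF σ φ (cycN g) ((cycN g : ℝ) / √(n : ℝ)) := by
  rw [sum_lens fun M => φ ((top σ M : ℝ) / (n : ℝ) ^ ((σ : ℝ) / 2))]
  refine Finset.sum_congr rfl fun g _ => ?_
  unfold FF
  refine E_congr fun L _ hL => ?_
  have hn0 : (0 : ℝ) < n := by exact_mod_cast hn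
  have hsq : √(n : ℝ) ^ σ = (n : ℝ) ^ ((σ : ℝ) / 2) := by
    rw [Real.sqrt_eq_rpow, ← Real.rpow_natCast, ← Real.rpow_mul hn0.le]
    congr 1
    ring
  rcases Nat.eq_zero_or_pos (cycN g) with h0 | h0
  · rw [h0] at hL
    have ht : top σ (L : Multiset ℕ) = 0 := by
      have := top_le_pow σ (L : Multiset ℕ)
      rw [Multiset.sum_coe, hL, zero_pow (by omega)] at this
      omega
    rw [ht]
    simp
  · have h1 : (0 : ℝ) < cycN g := by exact_mod_cast h0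
    congr 1
    rw [div_pow, ← hsq]
    field_simp

/-- number of maps with many periodic points -/
theorem card_ge (n : ℕ) (hn : 1 ≤ n) (x : ℝ) :
    (Nat.card {g : Fin n → Fin n // x * √(n : ℝ) ≤ cycN g} : ℝ) / (n : ℝ) ^ n =
      pp n ⌈x * √(n : ℝ)⌉₊ := by
  have h := card_cyc n ⌈x * √(n : ℝ)⌉₊
  have hn0 : (0 : ℝ) < n := by exact_mod_cast hn
  have e : Nat.card {g : Fin n → Fin n // x * √(n : ℝ) ≤ cycN g} =
      Nat.card {g : Fin n → Fin n // ⌈x * √(n : ℝ)⌉₊ ≤ cycN g} := by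
    refine Nat.card_congr (Equiv.subtypeEquivRight fun g => ?_)
    rw [Nat.ceil_le]
  rw [e, h, mul_div_assoc, div_self (by positivity), mul_one]

theorem cycN_le {n : ℕ} (g : Fin n → Fin n) : cycN g ≤ n := by
  unfold cycN
  have := Finite.card_subtype_le (fun x => x ∈ periodicPts g)
  simpa using this

theorem cycN_pos {n : ℕ} (hn : 1 ≤ n) (g : Fin n → Fin n) : 1 ≤ cycN g := by
  unfold cycN
  have : Nonempty (Fin n) := ⟨⟨0, hn⟩⟩
  have h1 : (periodicPts g).Nonempty := by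
    obtain ⟨x⟩ := this
    have hinj : ¬ Injective fun k : ℕ => g^[k] x := not_injective_infinite_finite _
    rw [Injective] at hinj
    push Not at hinj
    obtain ⟨a, b, hab, hne⟩ := hinj
    rcases lt_or_gt_of_ne hne with h | h
    · refine ⟨g^[a] x, b - a, by omega, ?_⟩
      show g^[b - a] (g^[a] x) = g^[a] x
      rw [← iterate_add_apply, Nat.sub_add_cancel h.le]
      exact hab.symm
    · refine ⟨g^[b] x, a - b, by omega, ?_⟩
      show g^[a - b] (g^[b] x) = g^[b] x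
      rw [← iterate_add_apply, Nat.sub_add_cancel h.le]
      exact hab
  have : Nonempty (periodicPts g) := h1.to_subtype
  exact Nat.card_pos

theorem lens_sum {n : ℕ} (g : Fin n → Fin n) : (lens g).sum = cycN g := by
  unfold lens lensP cycN
  letI := Fintype.ofFinite (periodicPts g)
  exact (Nat.Partition.parts_sum _).trans Nat.card_eq_fintype_card.symm

/-- periods are at most `(number of periodic points) ^ σ` -/
theorem maxPeriod_le_pow {n : ℕ} (hn : 1 ≤ n) (f : (Fin 1 → Fin n) → Fin n) (σ : ℕ) (hσ : 1 ≤ σ) :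
    maxPeriod f σ ≤ cycN (fun a => f fun _ => a) ^ σ := by
  refine (maxPeriod_bounds f σ hσ).2.trans (max_le ?_ ?_)
  · have := top_le_pow σ (lens fun a => f fun _ => a)
    rwa [lens_sum] at this
  · exact Nat.pow_le_pow_right (cycN_pos hn _) (Nat.sub_le _ _)

theorem card_rule (n : ℕ) : (Fintype.card ((Fin 1 → Fin n) → Fin n) : ℝ) = (n : ℝ) ^ n := by
  rw [Fintype.card_fun, Fintype.card_fun, Fintype.card_fin, Fintype.card_fin, pow_one]
  push_cast
  rfl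

theorem sqrt_pow_eq (n σ : ℕ) : √(n : ℝ) ^ σ = (n : ℝ) ^ ((σ : ℝ) / 2) := by
  have hn0 : (0 : ℝ) ≤ n := by positivity
  rw [Real.sqrt_eq_rpow, ← Real.rpow_natCast, ← Real.rpow_mul hn0]
  congr 1
  ring

theorem tail_le (σ : ℕ) (hσ : 1 ≤ σ) (n : ℕ) [NeZero n] (A : ℝ) (hA : 1 ≤ A) :
    ((law 1 σ n : Measure ℝ) {x | A ^ σ < x}).toReal ≤ Real.exp (-(A ^ 2 - A) / 2) := by
  have hn : 1 ≤ n := NeZero.one_le
  have hn0 : (0 : ℝ) < n := by exact_mod_cast hn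
  rw [law_apply 1 σ n {x | A ^ σ < x} measurableSet_Ioi, card_rule]
  refine le_trans ?_ (pp_le n hn A hA)
  rw [← card_ge n hn A]
  refine div_le_div_of_nonneg_right ?_ (by positivity)
  have hinj : Nat.card {f : (Fin 1 → Fin n) → Fin n //
      (maxPeriod f σ : ℝ) / (n : ℝ) ^ ((σ : ℝ) / 2) ∈ {x | A ^ σ < x}} ≤
      Nat.card {g : Fin n → Fin n // A * √(n : ℝ) ≤ cycN g} := by
    refine Nat.card_le_card_of_injective
      (fun f => ⟨ruleEquiv n f.1, ?_⟩) ?_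
    · obtain ⟨f, hf⟩ := f
      have hf' : A ^ σ < (maxPeriod f σ : ℝ) / (n : ℝ) ^ ((σ : ℝ) / 2) := hf
      have h1 : (maxPeriod f σ : ℝ) ≤ (cycN (ruleEquiv n f) : ℝ) ^ σ := by
        exact_mod_cast maxPeriod_le_pow hn f σ hσ
      rw [← sqrt_pow_eq] at hf'
      have hs : 0 < √(n : ℝ) := Real.sqrt_pos.2 hn0
      have h2 : A ^ σ < ((cycN (ruleEquiv n f) : ℝ) / √(n : ℝ)) ^ σ := by
        rw [div_pow]
        refine hf'.trans_le (div_le_div_of_nonneg_right h1 (by positivity))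
      have h3 := lt_of_pow_lt_pow_left₀ σ (by positivity) h2
      rw [lt_div_iff₀ hs] at h3
      exact h3.le
    · intro f f' h
      have h' := congrArg Subtype.val h
      exact Subtype.ext ((ruleEquiv n).injective h')
  exact_mod_cast hinj

theorem nonneg_law (σ : ℕ) (n : ℕ) [NeZero n] : (law 1 σ n : Measure ℝ) {x | x < 0} = 0 := by
  have h := law_apply 1 σ n {x | x < 0} measurableSet_Iio
  have h2 : Nat.card {f : (Fin 1 → Fin n) → Fin n //
      (maxPeriod f σ : ℝ) / (n : ℝ) ^ ((σ : ℝ) / 2) ∈ {x : ℝ | x < 0}} = 0 := by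
    rw [Nat.card_eq_zero]
    left
    refine ⟨fun f => ?_⟩
    have h3 : (maxPeriod f.1 σ : ℝ) / (n : ℝ) ^ ((σ : ℝ) / 2) < 0 := f.2
    have h4 : 0 ≤ (maxPeriod f.1 σ : ℝ) / (n : ℝ) ^ ((σ : ℝ) / 2) := by positivity
    linarith
  rw [h2, Nat.cast_zero, zero_div, ENNReal.toReal_eq_zero_iff] at h
  rcases h with h | h
  · exact h
  · exact absurd h (measure_ne_top _ _)

/-- the exact and the approximate functional -/
theorem diff_le (σ : ℕ) (hσ : 1 ≤ σ) (φ : ℝ → ℝ) (B : ℝ) (K : ℝ≥0) (hφB : ∀ x, |φ x| ≤ B)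
    (hφK : LipschitzWith K φ) (n : ℕ) [NeZero n] (A : ℝ) (hA : 1 ≤ A) :
    |∫ x, φ x ∂(law 1 σ n : Measure ℝ) -
      (∑ g : Fin n → Fin n, FF σ φ (cycN g) ((cycN g : ℝ) / √(n : ℝ))) / (n : ℝ) ^ n| ≤
      K * A ^ (σ - 1) / √(n : ℝ) + 2 * B * Real.exp (-(A ^ 2 - A) / 2) := by
  classical
  have hn : 1 ≤ n := NeZero.one_le
  have hn0 : (0 : ℝ) < n := by exact_mod_cast hn
  have hB0 : 0 ≤ B := (abs_nonneg _).trans (hφB 0)
  have hs : 0 < √(n : ℝ) := Real.sqrt_pos.2 hn0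
  rw [integral_law 1 σ n φ hφK.continuous ⟨B, hφB⟩, card_rule, ← sum_top hn σ hσ φ]
  have hre : ∑ f : (Fin 1 → Fin n) → Fin n, φ ((maxPeriod f σ : ℝ) / (n : ℝ) ^ ((σ : ℝ) / 2)) =
      ∑ g : Fin n → Fin n,
        φ ((maxPeriod ((ruleEquiv n).symm g) σ : ℝ) / (n : ℝ) ^ ((σ : ℝ) / 2)) := by
    refine Fintype.sum_equiv (ruleEquiv n) _ _ fun f => ?_
    rw [Equiv.symm_apply_apply]
  rw [hre, ← sub_div, ← Finset.sum_sub_distrib, abs_div, abs_of_nonneg (by positivity : (0:ℝ) ≤ (n : ℝ) ^ n),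
    div_le_iff₀ (by positivity)]
  refine (Finset.abs_sum_le_sum_abs _ _).trans ?_
  -- pointwise bound
  have hpt : ∀ g : Fin n → Fin n,
      |φ ((maxPeriod ((ruleEquiv n).symm g) σ : ℝ) / (n : ℝ) ^ ((σ : ℝ) / 2)) -
        φ ((top σ (lens g) : ℝ) / (n : ℝ) ^ ((σ : ℝ) / 2))| ≤
      K * A ^ (σ - 1) / √(n : ℝ) + 2 * B * (if A * √(n : ℝ) ≤ cycN g then 1 else 0) := by
    intro g
    split_ifs with hg
    · have h1 := abs_sub_le_of_le_of_le (abs_le.1 (hφB ((maxPeriod ((ruleEquiv n).symm g) σ : ℝ) /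
        (n : ℝ) ^ ((σ : ℝ) / 2)))).1 (abs_le.1 (hφB _)).2 (abs_le.1 (hφB ((top σ (lens g) : ℝ) /
        (n : ℝ) ^ ((σ : ℝ) / 2)))).1 (abs_le.1 (hφB _)).2
      have h2 : 0 ≤ K * A ^ (σ - 1) / √(n : ℝ) := by positivity
      linarith
    · rw [not_le] at hg
      obtain ⟨b1, b2⟩ := maxPeriod_bounds ((ruleEquiv n).symm g) σ hσ
      have b1' : top σ (lens g) ≤ maxPeriod ((ruleEquiv n).symm g) σ := b1
      have b2' : maxPeriod ((ruleEquiv n).symm g) σ ≤ max (top σ (lens g)) (cycN g ^ (σ - 1)) := b2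
      have h1 : ((maxPeriod ((ruleEquiv n).symm g) σ : ℝ) - top σ (lens g)) ≤
          (cycN g : ℝ) ^ (σ - 1) := by
        rcases le_total (top σ (lens g)) (cycN g ^ (σ - 1)) with h | h
        · rw [max_eq_right h] at b2'
          have : (maxPeriod ((ruleEquiv n).symm g) σ : ℝ) ≤ (cycN g : ℝ) ^ (σ - 1) := by
            exact_mod_cast b2'
          have h0 : (0 : ℝ) ≤ top σ (lens g) := by positivity
          linarith
        · rw [max_eq_left h] at b2'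
          have : (maxPeriod ((ruleEquiv n).symm g) σ : ℝ) ≤ top σ (lens g) := by
            exact_mod_cast b2'
          have h0 : (0 : ℝ) ≤ (cycN g : ℝ) ^ (σ - 1) := by positivity
          linarith
      have h2 : (0 : ℝ) ≤ (maxPeriod ((ruleEquiv n).symm g) σ : ℝ) - top σ (lens g) := by
        rw [sub_nonneg]; exact_mod_cast b1'
      have h3 := hφK.dist_le_mul ((maxPeriod ((ruleEquiv n).symm g) σ : ℝ) / (n : ℝ) ^ ((σ : ℝ) / 2))
        ((top σ (lens g) : ℝ) / (n : ℝ) ^ ((σ : ℝ) / 2))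
      rw [Real.dist_eq, Real.dist_eq, ← sub_div, abs_div, abs_of_nonneg h2,
        abs_of_nonneg (by positivity : (0:ℝ) ≤ (n : ℝ) ^ ((σ : ℝ) / 2)), ← sqrt_pow_eq] at h3
      rw [← sqrt_pow_eq]
      refine h3.trans ?_
      rw [mul_zero, add_zero, mul_div_assoc]
      refine mul_le_mul_of_nonneg_left ?_ K.2
      rw [div_le_div_iff₀ (by positivity) hs]
      have h4 : (cycN g : ℝ) ^ (σ - 1) ≤ (A * √(n : ℝ)) ^ (σ - 1) :=
        pow_le_pow_left₀ (by positivity) hg.le _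
      calc ((maxPeriod ((ruleEquiv n).symm g) σ : ℝ) - top σ (lens g)) * √(n : ℝ)
          ≤ (A * √(n : ℝ)) ^ (σ - 1) * √(n : ℝ) :=
            mul_le_mul_of_nonneg_right (h1.trans h4) hs.le
        _ = A ^ (σ - 1) * √(n : ℝ) ^ σ := by
            rw [mul_pow, mul_assoc, ← pow_succ, Nat.sub_add_cancel hσ]
  refine (Finset.sum_le_sum fun g _ => hpt g).trans ?_
  rw [Finset.sum_add_distrib, Finset.sum_const, Finset.card_univ, Fintype.card_fun,
    Fintype.card_fin, ← Finset.mul_sum, Finset.sum_boole, nsmul_eq_mul, add_mul]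
  have hc : ((Finset.univ.filter fun g : Fin n → Fin n => A * √(n : ℝ) ≤ cycN g).card : ℝ) ≤
      Real.exp (-(A ^ 2 - A) / 2) * (n : ℝ) ^ n := by
    have h1 := card_ge n hn A
    have h2 := pp_le n hn A hA
    rw [← h1, div_le_iff₀ (by positivity)] at h2
    refine le_trans (le_of_eq ?_) h2
    rw [Nat.card_eq_fintype_card, Fintype.card_subtype]
  push_cast
  have h5 : 2 * B * ((Finset.univ.filter fun g : Fin n → Fin n =>
      A * √(n : ℝ) ≤ cycN g).card : ℝ) ≤ 2 * B * (Real.exp (-(A ^ 2 - A) / 2) * (n : ℝ) ^ n) :=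
    mul_le_mul_of_nonneg_left hc (by positivity)
  linarith

theorem exists_A (B ε : ℝ) (hε : 0 < ε) (hB : 0 ≤ B) :
    ∃ A : ℝ, 1 ≤ A ∧ B * Real.exp (-(A ^ 2 - A) / 2) ≤ ε := by
  have h1 : Tendsto (fun A : ℝ => B * Real.exp (-A)) atTop (𝓝 (B * 0)) :=
    (Real.tendsto_exp_neg_atTop_nhds_zero).const_mul B
  rw [mul_zero] at h1
  obtain ⟨A, hA1, hA2⟩ := ((h1.eventually (gt_mem_nhds hε)).and (eventually_ge_atTop 3)).exists
  refine ⟨A, by linarith, le_trans (mul_le_mul_of_nonneg_left ?_ hB) hA1.le⟩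
  apply Real.exp_le_exp.2
  nlinarith

theorem main (σ : ℕ) (hσ : 1 ≤ σ) :
    ∃ μ : ProbabilityMeasure ℝ, Tendsto (fun n : ℕ => law 1 σ (n + 2)) atTop (𝓝 μ) := by
  refine exists_limit _ (fun n => nonneg_law σ (n + 2)) ?_ ?_
  · intro ε hε
    obtain ⟨A, hA1, hA2⟩ := exists_A 1 ε hε zero_le_one
    refine ⟨A ^ σ, fun n => (tail_le σ hσ (n + 2) A hA1).trans (by linarith)⟩
  · rintro φ ⟨B, hφB⟩ ⟨K, hφK⟩
    have hB0 : 0 ≤ B := (abs_nonneg _).trans (hφB 0)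
    obtain ⟨l, hl⟩ := mix (FF σ φ) B (fun k x _ => FF_bound hφB k x)
      (fun A => ⟨K * (σ * A ^ (σ - 1)), fun k x y hx hxA hy hyA =>
        FF_lip hφK A k x y hx hxA hy hyA⟩) (fun x hx => FF_conv hσ hφB hφK x hx)
    refine conv_of_approx _ fun ε hε => ?_
    obtain ⟨A, hA1, hA2⟩ := exists_A (2 * B) (ε / 2) (by positivity) (by positivity)
    refine ⟨_, ⟨l, hl.comp (tendsto_add_atTop_nat 2)⟩, ?_⟩
    have h1 : Tendsto (fun n : ℕ => K * A ^ (σ - 1) / √((n + 2 : ℕ) : ℝ)) atTop (𝓝 0) := by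
      refine Tendsto.div_atTop tendsto_const_nhds ?_
      exact Real.tendsto_sqrt_atTop.comp
        (tendsto_natCast_atTop_atTop.comp (tendsto_add_atTop_nat 2))
    filter_upwards [h1.eventually (gt_mem_nhds (half_pos hε))] with n hn
    refine (diff_le σ hσ φ B K hφB hφK (n + 2) A hA1).trans ?_
    linarith

end RandomCA
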