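import Mathlib
import Pool.Agent.Lib.MP_eab41b_pr.R0c
import Pool.Agent.Lib.MP_eab41b_pr.R2d
import Pool.Agent.Lib.MP_eab41b_pr.R8a

/-! Row R8b. -/

open MeasureTheory Filter Topology Function
open scoped NNReal

namespace RandomCA

theorem R8b_sum (n : ℕ) (hn : 0 < n) (κ : ℕ) :
    (∑ g : Fin n → Fin n, (if κ ≤ cycN g then (1 : ℝ) else 0)) / (n : ℝ) ^ n = pp n κ := by
  have h := card_cyc n κ
  rw [Finset.sum_boole]
  have h2 : (Nat.card {g : Fin n → Fin n // κ ≤ cycN g} : ℝ) =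
      ((Finset.univ.filter fun g : Fin n → Fin n => κ ≤ cycN g).card : ℝ) := by
    rw [Nat.card_eq_fintype_card, Fintype.card_subtype]
  have hn' : (0 : ℝ) < (n : ℝ) ^ n := by positivity
  rw [← h2, h, mul_div_cancel_right₀ _ hn'.ne']

/-- the pointwise bound -/
theorem R8b_point (F : ℕ → ℝ → ℝ) (B K ε1 A δ : ℝ) (M : ℕ) (l : ℕ → ℝ) (k0 : ℕ)
    (hB : ∀ k x, 0 ≤ x → |F k x| ≤ B) (hδ : 0 < δ) (hA : A = M * δ) (hε1 : 0 ≤ ε1) (hK0 : 0 ≤ K)
    (hK : ∀ k x y, 0 ≤ x → x ≤ A → 0 ≤ y → y ≤ A → |F k x - F k y| ≤ K * |x - y|)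
    (hl : ∀ j < M, ∀ k ≥ k0, |F k (j * δ) - l j| ≤ ε1) (N : ℕ) (s : ℝ) (hs : 0 < s)
    (hk0 : (k0 : ℝ) ≤ δ * s) (J : ℕ) (hJ : J = ⌊(N : ℝ) / s / δ⌋₊) :
    |F N ((N : ℝ) / s) - ∑ i ∈ Finset.Ico 1 M, l i *
      ((if i ≤ J then (1 : ℝ) else 0) - (if i + 1 ≤ J then (1 : ℝ) else 0))| ≤
      B * (1 - if 1 ≤ J then (1 : ℝ) else 0) + B * (if M ≤ J then (1 : ℝ) else 0) +
        (K * δ + ε1) := by
  have hx0 : 0 ≤ (N : ℝ) / s := by positivity
  have hB0 : 0 ≤ B := (abs_nonneg _).trans (hB 0 0 le_rfl)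
  have hKδ : 0 ≤ K * δ + ε1 := by positivity
  have hsum : ∑ i ∈ Finset.Ico 1 M, l i *
      ((if i ≤ J then (1 : ℝ) else 0) - (if i + 1 ≤ J then (1 : ℝ) else 0)) =
      if J ∈ Finset.Ico 1 M then l J else 0 := by
    rw [← Finset.sum_ite_eq' (Finset.Ico 1 M) J l]
    refine Finset.sum_congr rfl fun i _ => ?_
    by_cases h1 : i = J
    · subst h1
      simp
    · rw [if_neg h1]
      rcases lt_or_gt_of_ne h1 with h2 | h2
      · rw [if_pos h2.le, if_pos (by omega)]; ring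
      · rw [if_neg (by omega), if_neg (by omega)]; ring
  rw [hsum]
  by_cases h1 : 1 ≤ J
  · by_cases h2 : M ≤ J
    · rw [if_neg (by rw [Finset.mem_Ico]; omega), if_pos h1, if_pos h2]
      have := hB N _ hx0
      rw [sub_zero]
      linarith
    · rw [if_pos (by rw [Finset.mem_Ico]; omega), if_pos h1, if_neg h2]
      have hq0 : 0 ≤ (N : ℝ) / s / δ := by positivity
      have h3 : (J : ℝ) ≤ (N : ℝ) / s / δ := by rw [hJ]; exact Nat.floor_le hq0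
      have h4 : (N : ℝ) / s / δ < J + 1 := by rw [hJ]; exact Nat.lt_floor_add_one _
      have h5 : (J : ℝ) * δ ≤ (N : ℝ) / s := by rwa [le_div_iff₀ hδ] at h3
      have h6 : (N : ℝ) / s < (J + 1) * δ := by rwa [div_lt_iff₀ hδ] at h4
      have hJM : ((J : ℝ) + 1) ≤ M := by
        have : J + 1 ≤ M := by omega
        exact_mod_cast this
      have h7 : ((J : ℝ) + 1) * δ ≤ A := by
        rw [hA]; exact mul_le_mul_of_nonneg_right hJM hδ.le
      have hJ0 : (0 : ℝ) ≤ (J : ℝ) * δ := by positivity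
      have h8 := hK N ((N : ℝ) / s) (J * δ) hx0 (h6.le.trans h7) hJ0
        (by nlinarith)
      have h9 : |(N : ℝ) / s - J * δ| ≤ δ := by
        rw [abs_of_nonneg (by linarith)]
        linarith
      have hJ1 : (1 : ℝ) ≤ J := by exact_mod_cast h1
      have h10 : k0 ≤ N := by
        have h11 : δ ≤ (N : ℝ) / s := by
          calc δ = 1 * δ := by ring
            _ ≤ J * δ := mul_le_mul_of_nonneg_right hJ1 hδ.le
            _ ≤ _ := h5
        rw [le_div_iff₀ hs] at h11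
        exact_mod_cast hk0.trans h11
      have h12 := hl J (by omega) N h10
      have h13 : K * |(N : ℝ) / s - J * δ| ≤ K * δ := mul_le_mul_of_nonneg_left h9 hK0
      have h14 : |F N ((N : ℝ) / s) - l J| ≤ |F N ((N : ℝ) / s) - F N (J * δ)| +
          |F N (J * δ) - l J| := abs_sub_le _ _ _
      have h15 : B * (1 - (1 : ℝ)) + B * 0 = 0 := by ring
      rw [h15, zero_add]
      linarith
  · rw [if_neg (by rw [Finset.mem_Ico]; omega), if_neg h1]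
    have := hB N _ hx0
    have h2 : 0 ≤ B * (if M ≤ J then (1 : ℝ) else 0) := by
      split_ifs
      · linarith
      · simp
    rw [sub_zero, sub_zero]
    linarith

/-- R8b -/
theorem mix (F : ℕ → ℝ → ℝ) (B : ℝ) (hB : ∀ k x, 0 ≤ x → |F k x| ≤ B)
    (hL : ∀ A : ℝ, ∃ K : ℝ, ∀ k x y, 0 ≤ x → x ≤ A → 0 ≤ y → y ≤ A →
      |F k x - F k y| ≤ K * |x - y|)
    (hc : ∀ x, 0 ≤ x → ∃ l, Tendsto (fun k => F k x) atTop (𝓝 l)) :
    ∃ l, Tendsto (fun n : ℕ => (∑ g : Fin n → Fin n, F (cycN g) ((cycN g : ℝ) / √(n : ℝ))) /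
      (n : ℝ) ^ n) atTop (𝓝 l) := by
  apply conv_of_approx
  intro ε hε
  have hB0 : 0 ≤ B := (abs_nonneg _).trans (hB 0 0 le_rfl)
  -- choice of A
  set A : ℝ := 1 + 16 * B / ε with hAdef
  have hA1 : 1 ≤ A := by
    have : 0 ≤ 16 * B / ε := by positivity
    linarith
  have hAexp : B * Real.exp (-A ^ 2 / 2) ≤ ε / 8 := by
    have h1 : A ^ 2 / 2 ≤ Real.exp (A ^ 2 / 2) := by
      have := Real.add_one_le_exp (A ^ 2 / 2)
      linarith
    have h2 : 0 < A ^ 2 / 2 := by positivity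
    have h3 : Real.exp (-A ^ 2 / 2) ≤ 2 / A ^ 2 := by
      rw [neg_div, Real.exp_neg]
      calc (Real.exp (A ^ 2 / 2))⁻¹ ≤ (A ^ 2 / 2)⁻¹ := inv_anti₀ h2 h1
        _ = 2 / A ^ 2 := by rw [inv_div]
    have h4 : A ≤ A ^ 2 := by nlinarith
    have h5 : 16 * B / ε ≤ A ^ 2 := by linarith
    rw [div_le_iff₀ hε] at h5
    calc B * Real.exp (-A ^ 2 / 2) ≤ B * (2 / A ^ 2) := mul_le_mul_of_nonneg_left h3 hB0
      _ ≤ ε / 8 := by
        rw [mul_div_assoc', div_le_iff₀ (by positivity)]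
        linarith
  obtain ⟨K1, hK1⟩ := hL A
  have hK : ∀ k x y, 0 ≤ x → x ≤ A → 0 ≤ y → y ≤ A → |F k x - F k y| ≤ |K1| * |x - y| := by
    intro k x y h1 h2 h3 h4
    exact (hK1 k x y h1 h2 h3 h4).trans (mul_le_mul_of_nonneg_right (le_abs_self _) (abs_nonneg _))
  have hK0 : 0 ≤ |K1| := abs_nonneg _
  -- choice of M
  set η : ℝ := min 1 (min (ε / (8 * (|K1| + 1))) (ε / (8 * (B + 1)))) with hη
  have hη0 : 0 < η := by positivity
  obtain ⟨M, hM⟩ := exists_nat_gt (A / η)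
  have hM0 : (0 : ℝ) < M := lt_trans (by positivity) hM
  set δ : ℝ := A / M with hδdef
  have hδ : 0 < δ := by positivity
  have hAM : A = M * δ := by rw [hδdef]; field_simp
  have hδη : δ ≤ η := by
    rw [hδdef, div_le_iff₀ hM0]
    rw [div_lt_iff₀ hη0] at hM
    linarith
  have hδ1 : δ ≤ 1 := hδη.trans (min_le_left _ _)
  have hKδ : |K1| * δ ≤ ε / 8 := by
    have h1 : δ ≤ ε / (8 * (|K1| + 1)) := hδη.trans ((min_le_right _ _).trans (min_le_left _ _))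
    rw [le_div_iff₀ (by positivity)] at h1
    nlinarith
  have hBδ : B * δ ≤ ε / 8 := by
    have h1 : δ ≤ ε / (8 * (B + 1)) := hδη.trans ((min_le_right _ _).trans (min_le_right _ _))
    rw [le_div_iff₀ (by positivity)] at h1
    nlinarith
  have hBexp : B * (1 - Real.exp (-δ ^ 2 / 2)) ≤ ε / 8 := by
    have h1 := Real.add_one_le_exp (-δ ^ 2 / 2)
    have h2 : 1 - Real.exp (-δ ^ 2 / 2) ≤ δ := by nlinarith
    exact (mul_le_mul_of_nonneg_left h2 hB0).trans hBδ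
  -- limits
  have hex : ∀ j : ℕ, ∃ l, Tendsto (fun k => F k (j * δ)) atTop (𝓝 l) :=
    fun j => hc _ (by positivity)
  choose l hl using hex
  have hev : ∀ᶠ k in atTop, ∀ j ∈ Finset.range M, |F k (j * δ) - l j| ≤ ε / 8 := by
    rw [Finset.eventually_all]
    intro j _
    have := (hl j).eventually (Metric.closedBall_mem_nhds (l j) (by positivity : 0 < ε / 8))
    filter_upwards [this] with k hk
    rwa [Real.dist_eq] at hk
  obtain ⟨k0, hk0⟩ := eventually_atTop.mp hev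
  have hl2 : ∀ j < M, ∀ k ≥ k0, |F k (j * δ) - l j| ≤ ε / 8 :=
    fun j hj k hk => hk0 k hk j (Finset.mem_range.mpr hj)
  refine ⟨fun n => ∑ i ∈ Finset.Ico 1 M, l i *
    (pp n ⌈((i : ℕ) : ℝ) * δ * √(n : ℝ)⌉₊ - pp n ⌈((i + 1 : ℕ) : ℝ) * δ * √(n : ℝ)⌉₊), ?_, ?_⟩
  · refine ⟨∑ i ∈ Finset.Ico 1 M, l i * (Real.exp (-(((i : ℕ) : ℝ) * δ) ^ 2 / 2) -
      Real.exp (-(((i + 1 : ℕ) : ℝ) * δ) ^ 2 / 2)), tendsto_finsetSum _ fun i _ => ?_⟩
    exact ((pp_tendsto (((i : ℕ) : ℝ) * δ) (by positivity)).sub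
      (pp_tendsto (((i + 1 : ℕ) : ℝ) * δ) (by positivity))).const_mul (l i)
  -- eventual estimates
  have hγ : 0 < ε / (8 * (B + 1)) := by positivity
  have e1 := (pp_tendsto (((1 : ℕ) : ℝ) * δ) (by positivity)).eventually
    (Metric.closedBall_mem_nhds _ hγ)
  have e2 := (pp_tendsto (((M : ℕ) : ℝ) * δ) (by positivity)).eventually
    (Metric.closedBall_mem_nhds _ hγ)
  have e3 : ∀ᶠ n : ℕ in atTop, (k0 : ℝ) ≤ δ * √(n : ℝ) := by
    have : Tendsto (fun n : ℕ => δ * √(n : ℝ)) atTop atTop :=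
      (Real.tendsto_sqrt_atTop.comp tendsto_natCast_atTop_atTop).const_mul_atTop hδ
    exact this.eventually_ge_atTop _
  filter_upwards [e1, e2, e3, eventually_gt_atTop 0] with n h1 h2 h3 hn
  rw [Real.dist_eq] at h1 h2
  have hn' : (0 : ℝ) < (n : ℝ) ^ n := by positivity
  have hs : 0 < √(n : ℝ) := Real.sqrt_pos.mpr (by exact_mod_cast hn)
  set J : (Fin n → Fin n) → ℕ := fun g => ⌊(cycN g : ℝ) / √(n : ℝ) / δ⌋₊ with hJ
  have hind : ∀ (i : ℕ) (g : Fin n → Fin n), i ≤ J g ↔ ⌈(i : ℝ) * δ * √(n : ℝ)⌉₊ ≤ cycN g := by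
    intro i g
    rw [hJ, Nat.le_floor_iff (by positivity), Nat.ceil_le, le_div_iff₀ hδ, le_div_iff₀ hs]
  have hpp : ∀ i : ℕ, pp n ⌈(i : ℝ) * δ * √(n : ℝ)⌉₊ =
      (∑ g : Fin n → Fin n, (if i ≤ J g then (1 : ℝ) else 0)) / (n : ℝ) ^ n := by
    intro i
    rw [← R8b_sum n hn]
    simp only [hind]
  have hone : (∑ _g : Fin n → Fin n, (1 : ℝ)) / (n : ℝ) ^ n = 1 := by
    rw [Finset.sum_const, Finset.card_univ, Fintype.card_fun, Fintype.card_fin, nsmul_eq_mul,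
      mul_one, Nat.cast_pow, div_self hn'.ne']
  have hcn : (∑ i ∈ Finset.Ico 1 M, l i *
      (pp n ⌈((i : ℕ) : ℝ) * δ * √(n : ℝ)⌉₊ - pp n ⌈((i + 1 : ℕ) : ℝ) * δ * √(n : ℝ)⌉₊)) =
      (∑ g : Fin n → Fin n, ∑ i ∈ Finset.Ico 1 M, l i *
        ((if i ≤ J g then (1 : ℝ) else 0) - (if i + 1 ≤ J g then (1 : ℝ) else 0))) /
        (n : ℝ) ^ n := by
    rw [Finset.sum_comm, Finset.sum_div]
    refine Finset.sum_congr rfl fun i _ => ?_
    rw [hpp, hpp, ← Finset.mul_sum, Finset.sum_sub_distrib]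
    ring
  rw [hcn, ← sub_div, ← Finset.sum_sub_distrib, abs_div, abs_of_pos hn']
  have hb : |∑ g : Fin n → Fin n, (F (cycN g) ((cycN g : ℝ) / √(n : ℝ)) -
      ∑ i ∈ Finset.Ico 1 M, l i *
        ((if i ≤ J g then (1 : ℝ) else 0) - (if i + 1 ≤ J g then (1 : ℝ) else 0)))| ≤
      ∑ g : Fin n → Fin n, (B * (1 - if 1 ≤ J g then (1 : ℝ) else 0) +
        B * (if M ≤ J g then (1 : ℝ) else 0) + (|K1| * δ + ε / 8) * 1) := by
    refine (Finset.abs_sum_le_sum_abs _ _).trans (Finset.sum_le_sum fun g _ => ?_)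
    rw [mul_one]
    exact R8b_point F B |K1| (ε / 8) A δ M l k0 hB hδ hAM (by positivity) hK0 hK hl2 _ _ hs h3 _ rfl
  have hb2 : (∑ g : Fin n → Fin n, (B * (1 - if 1 ≤ J g then (1 : ℝ) else 0) +
        B * (if M ≤ J g then (1 : ℝ) else 0) + (|K1| * δ + ε / 8) * 1)) / (n : ℝ) ^ n =
      B * (1 - pp n ⌈((1 : ℕ) : ℝ) * δ * √(n : ℝ)⌉₊) + B * pp n ⌈((M : ℕ) : ℝ) * δ * √(n : ℝ)⌉₊ +
        (|K1| * δ + ε / 8) := by
    rw [Finset.sum_add_distrib, Finset.sum_add_distrib, ← Finset.mul_sum, ← Finset.mul_sum,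
      ← Finset.mul_sum, Finset.sum_sub_distrib, add_div, add_div, mul_div_assoc, mul_div_assoc,
      mul_div_assoc, sub_div, hone, hpp, hpp]
    ring
  have hfin : B * (1 - pp n ⌈((1 : ℕ) : ℝ) * δ * √(n : ℝ)⌉₊) +
      B * pp n ⌈((M : ℕ) : ℝ) * δ * √(n : ℝ)⌉₊ + (|K1| * δ + ε / 8) ≤ ε := by
    have hone' : ((1 : ℕ) : ℝ) * δ = δ := by push_cast; ring
    rw [abs_le] at h1 h2
    have hγB : B * (ε / (8 * (B + 1))) ≤ ε / 8 := by
      rw [mul_div_assoc', div_le_div_iff₀ (by positivity) (by norm_num)]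
      nlinarith
    have g1 : B * (1 - pp n ⌈((1 : ℕ) : ℝ) * δ * √(n : ℝ)⌉₊) ≤
        B * ((1 - Real.exp (-(((1 : ℕ) : ℝ) * δ) ^ 2 / 2)) + ε / (8 * (B + 1))) :=
      mul_le_mul_of_nonneg_left (by linarith [h1.1]) hB0
    have g2 : B * pp n ⌈((M : ℕ) : ℝ) * δ * √(n : ℝ)⌉₊ ≤
        B * (Real.exp (-(((M : ℕ) : ℝ) * δ) ^ 2 / 2) + ε / (8 * (B + 1))) :=
      mul_le_mul_of_nonneg_left (by linarith [h2.2]) hB0
    rw [hone'] at g1
    rw [← hAM] at g2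
    rw [hone', ← hAM]
    rw [mul_add] at g1 g2
    linarith
  calc _ ≤ (∑ g : Fin n → Fin n, (B * (1 - if 1 ≤ J g then (1 : ℝ) else 0) +
        B * (if M ≤ J g then (1 : ℝ) else 0) + (|K1| * δ + ε / 8) * 1)) / (n : ℝ) ^ n :=
        div_le_div_of_nonneg_right hb hn'.le
    _ ≤ ε := by rw [hb2]; exact hfin

end RandomCA
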