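import Mathlib
import Pool.Agent.Lib.MP_eab41b_pr.R4a

/-! Row R9a. -/

open MeasureTheory Filter Topology Function
open scoped NNReal

namespace RandomCA

open scoped Classical in
theorem parts_count_one (n : ℕ) {x : ℝ} (hx : 0 ≤ x) :
    (∑ a : Fin n, if ((a : ℕ) + 1 : ℝ) < x then (1 : ℝ) else 0) ≤ x := by
  have h1 : (∑ a : Fin n, if ((a : ℕ) + 1 : ℝ) < x then (1 : ℝ) else 0)
      = ∑ a ∈ Finset.range n, if ((a : ℕ) + 1 : ℝ) < x then (1 : ℝ) else 0 :=
    Fin.sum_univ_eq_sum_range (fun a : ℕ => if ((a : ℕ) + 1 : ℝ) < x then (1 : ℝ) else 0) n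
  rw [h1, Finset.sum_boole]
  have h2 : (Finset.range n).filter (fun a : ℕ => ((a : ℕ) + 1 : ℝ) < x)
      ⊆ Finset.range ⌊x⌋₊ := by
    intro a ha
    rw [Finset.mem_filter] at ha
    rw [Finset.mem_range]
    have : a + 1 ≤ ⌊x⌋₊ := Nat.le_floor (by push_cast; exact ha.2.le)
    omega
  have h3 := Finset.card_le_card h2
  rw [Finset.card_range] at h3
  calc ((((Finset.range n).filter (fun a : ℕ => ((a : ℕ) + 1 : ℝ) < x)).card : ℕ) : ℝ)
      ≤ (⌊x⌋₊ : ℝ) := by exact_mod_cast h3
    _ ≤ x := Nat.floor_le hx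

open scoped Classical in
theorem parts_count_two (n : ℕ) {y : ℝ} (hy : 0 ≤ y) :
    (∑ a : Fin (n + 1), if (((n - a : ℕ) : ℕ) : ℝ) < y then (1 : ℝ) else 0) ≤ y + 1 := by
  have h1 : (∑ a : Fin (n + 1), if (((n - a : ℕ) : ℕ) : ℝ) < y then (1 : ℝ) else 0)
      = ∑ a ∈ Finset.range (n + 1), if (((n - a : ℕ) : ℕ) : ℝ) < y then (1 : ℝ) else 0 :=
    Fin.sum_univ_eq_sum_range (fun a : ℕ => if (((n - a : ℕ) : ℕ) : ℝ) < y then (1 : ℝ) else 0)
      (n + 1)
  have h2 : (∑ a ∈ Finset.range (n + 1), if (((n - a : ℕ) : ℕ) : ℝ) < y then (1 : ℝ) else 0)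
      = ∑ a ∈ Finset.range (n + 1), if ((a : ℕ) : ℝ) < y then (1 : ℝ) else 0 := by
    rw [← Finset.sum_range_reflect]
    refine Finset.sum_congr rfl fun a ha => ?_
    rw [Finset.mem_range] at ha
    have : n - (n + 1 - 1 - a) = a := by omega
    rw [this]
  rw [h1, h2, Finset.sum_boole]
  have h3 : (Finset.range (n + 1)).filter (fun a : ℕ => (a : ℝ) < y)
      ⊆ Finset.range ⌈y⌉₊ := by
    intro a ha
    rw [Finset.mem_filter] at ha
    rw [Finset.mem_range]
    exact Nat.lt_ceil.2 ha.2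
  have h4 := Finset.card_le_card h3
  rw [Finset.card_range] at h4
  calc ((((Finset.range (n + 1)).filter (fun a : ℕ => (a : ℝ) < y)).card : ℕ) : ℝ)
      ≤ (⌈y⌉₊ : ℝ) := by exact_mod_cast h4
    _ ≤ y + 1 := (Nat.ceil_lt_add_one hy).le

theorem parts_E_le_one {k : ℕ} {G : List ℕ → ℝ} (h : ∀ L, G L ≤ 1) : E k G ≤ 1 :=
  (E_mono (G' := fun _ => 1) fun L _ _ => h L).trans_eq (E_const k 1)

open scoped Classical in
/-- R9a: with high probability the first `σ` parts of the stick breaking composition of `k` exist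
and are at least `η k`. -/
theorem E_parts (σ : ℕ) (ε : ℝ) (hε : 0 < ε) :
    ∃ η : ℝ, 0 < η ∧ ∃ k₀ : ℕ, ∀ k, k₀ ≤ k →
      E k (fun L => if ∃ i < σ, (L.getD i 0 : ℝ) < η * k then 1 else 0) ≤ ε := by
  induction σ generalizing ε with
  | zero =>
    refine ⟨1, one_pos, 0, fun k _ => ?_⟩
    refine (E_mono (G' := fun _ => 0) fun L _ _ => ?_).trans ((E_const k 0).le.trans hε.le)
    rw [if_neg]
    rintro ⟨i, hi, _⟩
    omega
  | succ σ ih =>
    obtain ⟨η', hη', k₀', hk₀'⟩ := ih (ε / 3) (by linarith)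
    set v : ℝ := min 1 (ε / 6) with hv
    have hv0 : 0 < v := lt_min one_pos (by linarith)
    have hv1 : v ≤ ε / 6 := min_le_right _ _
    set η : ℝ := min (η' * v) (ε / 6) with hη
    have hη0 : 0 < η := lt_min (by positivity) (by linarith)
    have hη1 : η ≤ ε / 6 := min_le_right _ _
    have hη2 : η ≤ η' * v := min_le_left _ _
    refine ⟨η, hη0, max (⌈(k₀' : ℝ) / v⌉₊) (⌈6 / ε⌉₊ + 1), fun k hk => ?_⟩
    have hk1 : (k₀' : ℝ) ≤ v * k := by
      have h := (Nat.le_ceil ((k₀' : ℝ) / v)).trans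
        (by exact_mod_cast (le_max_left _ _).trans hk : ((⌈(k₀' : ℝ) / v⌉₊ : ℕ) : ℝ) ≤ (k : ℝ))
      rw [div_le_iff₀ hv0] at h
      linarith [mul_comm v (k : ℝ)]
    have hk2' : ⌈6 / ε⌉₊ + 1 ≤ k := (le_max_right _ _).trans hk
    have hk2 : 1 ≤ ε / 6 * k := by
      have h := (Nat.le_ceil (6 / ε)).trans
        (by exact_mod_cast (by omega : ⌈6 / ε⌉₊ ≤ k) : ((⌈6 / ε⌉₊ : ℕ) : ℝ) ≤ (k : ℝ))
      rw [div_le_iff₀ hε] at h
      linarith [mul_comm ε (k : ℝ)]
    cases k with
    | zero => omega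
    | succ K =>
      rw [E_succ]
      have hKpos : (0 : ℝ) < (K : ℝ) + 1 := by positivity
      rw [div_le_iff₀ hKpos]
      have hcast : (((K + 1 : ℕ) : ℕ) : ℝ) = (K : ℝ) + 1 := by push_cast; ring
      rw [hcast] at hk1 hk2
      have hterm : ∀ a : Fin (K + 1),
          E (K - a) (fun L => if ∃ i < σ + 1,
              ((((a + 1 : ℕ) :: L).getD i 0 : ℕ) : ℝ) < η * ((K + 1 : ℕ) : ℝ) then 1 else 0)
            ≤ (if ((a : ℕ) + 1 : ℝ) < η * (K + 1) then (1 : ℝ) else 0) + ε / 3
              + (if (((K - a : ℕ) : ℕ) : ℝ) < v * (K + 1) then (1 : ℝ) else 0) := by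
        intro a
        by_cases h1 : ((a : ℕ) + 1 : ℝ) < η * (K + 1)
        · rw [if_pos h1]
          refine (parts_E_le_one fun L => by split_ifs <;> norm_num).trans ?_
          have h3 : (0 : ℝ) ≤ (if (((K - a : ℕ) : ℕ) : ℝ) < v * (K + 1) then (1 : ℝ) else 0) := by
            split_ifs <;> norm_num
          linarith
        · rw [if_neg h1]
          by_cases h4 : (((K - a : ℕ) : ℕ) : ℝ) < v * (K + 1)
          · rw [if_pos h4]
            refine (parts_E_le_one fun L => by split_ifs <;> norm_num).trans ?_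
            linarith
          · rw [if_neg h4]
            rw [not_lt] at h4
            have h5 : k₀' ≤ K - a := by
              have : (k₀' : ℝ) ≤ ((K - a : ℕ) : ℝ) := hk1.trans h4
              exact_mod_cast this
            have h6 := hk₀' (K - a) h5
            have h7 : η * ((K + 1 : ℕ) : ℝ) ≤ η' * ((K - a : ℕ) : ℝ) := by
              rw [hcast]
              calc η * ((K : ℝ) + 1) ≤ η' * v * ((K : ℝ) + 1) :=
                    mul_le_mul_of_nonneg_right hη2 hKpos.le
                _ = η' * (v * ((K : ℝ) + 1)) := by ring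
                _ ≤ η' * ((K - a : ℕ) : ℝ) := mul_le_mul_of_nonneg_left h4 hη'.le
            have h8 : E (K - a) (fun L => if ∃ i < σ + 1,
                ((((a + 1 : ℕ) :: L).getD i 0 : ℕ) : ℝ) < η * ((K + 1 : ℕ) : ℝ) then 1 else 0)
                ≤ E (K - a) (fun L => if ∃ i < σ,
                  ((L.getD i 0 : ℕ) : ℝ) < η' * ((K - a : ℕ) : ℝ) then 1 else 0) := by
              refine E_mono fun L _ _ => ?_
              by_cases h9 : ∃ i < σ + 1,
                ((((a + 1 : ℕ) :: L).getD i 0 : ℕ) : ℝ) < η * ((K + 1 : ℕ) : ℝ)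
              · rw [if_pos h9, if_pos]
                obtain ⟨i, hi, hi2⟩ := h9
                cases i with
                | zero =>
                  exfalso
                  apply h1
                  rw [List.getD_cons_zero, hcast] at hi2
                  push_cast at hi2
                  exact hi2
                | succ j =>
                  rw [List.getD_cons_succ] at hi2
                  exact ⟨j, by omega, hi2.trans_le h7⟩
              · rw [if_neg h9]
                split_ifs <;> norm_num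
            linarith
      refine (Finset.sum_le_sum fun a _ => hterm a).trans ?_
      rw [Finset.sum_add_distrib, Finset.sum_add_distrib]
      have hA := parts_count_one (K + 1) (x := η * (K + 1)) (by positivity)
      have hB := parts_count_two K (y := v * (K + 1)) (by positivity)
      have hC : (∑ _a : Fin (K + 1), ε / 3) = (K + 1) * (ε / 3) := by
        simp only [Finset.sum_const, Finset.card_univ, Fintype.card_fin, nsmul_eq_mul]
        push_cast
        ring
      rw [hC]
      have hD : η * ((K : ℝ) + 1) ≤ ε / 6 * ((K : ℝ) + 1) :=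
        mul_le_mul_of_nonneg_right hη1 hKpos.le
      have hE : v * ((K : ℝ) + 1) ≤ ε / 6 * ((K : ℝ) + 1) :=
        mul_le_mul_of_nonneg_right hv1 hKpos.le
      have hF : 0 ≤ ε / 6 * ((K : ℝ) + 1) := by positivity
      nlinarith

end RandomCA
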