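import Mathlib
import Pool.Agent.Lib.MP_eab41b_pr.R9a
import Pool.Agent.Lib.MP_eab41b_pr.Final

/-! The limit law is concentrated on the positive numbers. -/

open MeasureTheory Filter Topology Function
open scoped NNReal ENNReal

namespace RandomCA

open scoped Classical in
theorem E_top_small (σ : ℕ) (hσ : 1 ≤ σ) (ε : ℝ) (hε : 0 < ε) :
    ∃ c : ℝ, 0 < c ∧ ∃ k₀ : ℕ, ∀ k, k₀ ≤ k →
      E k (fun L => if (top σ (L : Multiset ℕ) : ℝ) < c * (k : ℝ) ^ σ then 1 else 0) ≤ ε := by
  obtain ⟨η, hη, k₀, hk₀⟩ := E_parts σ (ε / 2) (half_pos hε)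
  obtain ⟨Q, hQ1, hQ2⟩ : ∃ Q : ℕ, 1 ≤ Q ∧ (σ : ℝ) ^ 2 / Q ≤ ε / 2 := by
    obtain ⟨Q, hQ⟩ := exists_nat_ge (max 1 ((σ : ℝ) ^ 2 / (ε / 2)))
    refine ⟨Q, by exact_mod_cast (le_max_left _ _).trans hQ, ?_⟩
    have hQ0 : (0 : ℝ) < Q := lt_of_lt_of_le one_pos ((le_max_left _ _).trans hQ)
    rw [div_le_iff₀ hQ0]
    have := (le_max_right _ _).trans hQ
    rw [div_le_iff₀ (half_pos hε)] at this
    linarith
  refine ⟨(η / Q.factorial) ^ σ, by positivity, k₀, fun k hk => ?_⟩
  have h1 := hk₀ k hk
  have h2 := E_bad k σ Q hQ1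
  have h3 : E k (fun L => if (top σ (L : Multiset ℕ) : ℝ) < (η / Q.factorial) ^ σ * (k : ℝ) ^ σ
      then 1 else 0) ≤
      E k (fun L => (if ∃ i < σ, (L.getD i 0 : ℝ) < η * k then 1 else 0) +
        (if ∃ i j, i < j ∧ j < σ ∧ j < L.length ∧
          Q < Nat.gcd (L.getD i 0) (L.getD j 0) then 1 else 0)) := by
    refine E_mono fun L hL hs => ?_
    by_cases hA : ∃ i < σ, (L.getD i 0 : ℝ) < η * k
    · rw [if_pos hA]
      split_ifs <;> norm_num
    by_cases hB : ∃ i j, i < j ∧ j < σ ∧ j < L.length ∧ Q < Nat.gcd (L.getD i 0) (L.getD j 0)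
    · rw [if_pos hB]
      split_ifs <;> norm_num
    have htop : ¬ (top σ (L : Multiset ℕ) : ℝ) < (η / Q.factorial) ^ σ * (k : ℝ) ^ σ := by
      rw [not_lt]
      push Not at hA
      rcases Nat.eq_zero_or_pos k with rfl | hkpos
      · rw [Nat.cast_zero, zero_pow (by omega), mul_zero]
        positivity
      have hk0 : (0 : ℝ) < k := by exact_mod_cast hkpos
      have hpos : ∀ i < σ, 1 ≤ L.getD i 0 := by
        intro i hi
        have h4 := hA i hi
        have h5 : 0 < η * k := by positivity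
        have h6 : (0 : ℝ) < (L.getD i 0 : ℕ) := lt_of_lt_of_le h5 h4
        exact_mod_cast h6
      have hlen : ∀ i < σ, i < L.length := by
        intro i hi
        by_contra hcon
        have h4 := hpos i hi
        rw [List.getD_eq_default _ _ (not_lt.1 hcon)] at h4
        omega
      -- gcds divide Q!
      have hg : ∀ i ∈ Finset.range σ, ∀ j ∈ Finset.range σ, i ≠ j →
          Nat.gcd (L.getD i 0) (L.getD j 0) ∣ Q.factorial := by
        intro i hi j hj hij
        rw [Finset.mem_range] at hi hj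
        have key : ∀ i j, i < j → j < σ → Nat.gcd (L.getD i 0) (L.getD j 0) ∣ Q.factorial := by
          intro i j hlt hj
          refine Nat.dvd_factorial ?_ ?_
          · exact Nat.gcd_pos_of_pos_right _ (hpos j hj)
          · by_contra hcon
            exact hB ⟨i, j, hlt, hj, hlen j hj, not_le.1 hcon⟩
        rcases lt_or_gt_of_ne hij with h | h
        · exact key i j h hj
        · rw [Nat.gcd_comm]
          exact key j i h hi
      have h4 := lcm_trunc (Finset.range σ) (fun i => L.getD i 0) Q.factorial hg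
      have h5 : ∏ i ∈ Finset.range σ, L.getD i 0 ≤
          (Finset.range σ).lcm (fun i => L.getD i 0) * Q.factorial ^ σ := by
        have h6 : 1 ≤ (Finset.range σ).lcm fun i => Nat.gcd (L.getD i 0) Q.factorial := by
          rw [Nat.one_le_iff_ne_zero, Ne, Finset.lcm_eq_zero_iff]
          rintro ⟨i, -, hi⟩
          exact (Nat.gcd_pos_of_pos_right _ (Nat.factorial_pos Q)).ne' hi
        calc ∏ i ∈ Finset.range σ, L.getD i 0
            ≤ (∏ i ∈ Finset.range σ, L.getD i 0) *
              (Finset.range σ).lcm fun i => Nat.gcd (L.getD i 0) Q.factorial :=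
              Nat.le_mul_of_pos_right _ h6
          _ = (Finset.range σ).lcm (fun i => L.getD i 0) *
              ∏ i ∈ Finset.range σ, Nat.gcd (L.getD i 0) Q.factorial := h4.symm
          _ ≤ _ := by
              refine Nat.mul_le_mul_left _ ?_
              calc ∏ i ∈ Finset.range σ, Nat.gcd (L.getD i 0) Q.factorial
                  ≤ ∏ _i ∈ Finset.range σ, Q.factorial :=
                    Finset.prod_le_prod' fun i _ => Nat.gcd_le_right _ (Nat.factorial_pos Q)
                _ = Q.factorial ^ σ := by simp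
      have h7 : (Finset.range σ).lcm (fun i => L.getD i 0) ≤ top σ (L : Multiset ℕ) := by
        refine le_trans ?_ (topm_le_top σ σ L)
        unfold topm
        exact Finset.le_sup (f := fun I : Finset ℕ => I.lcm fun i => L.getD i 0)
          (Finset.mem_powersetCard.2 ⟨Finset.Subset.refl _, Finset.card_range σ⟩)
      have h8 : (η * k) ^ σ ≤ ∏ i ∈ Finset.range σ, ((L.getD i 0 : ℕ) : ℝ) := by
        calc (η * k) ^ σ = ∏ _i ∈ Finset.range σ, (η * k) := by simp
          _ ≤ _ := Finset.prod_le_prod (fun _ _ => by positivity)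
              fun i hi => hA i (Finset.mem_range.1 hi)
      have h9 : (η * k) ^ σ ≤ (top σ (L : Multiset ℕ) : ℝ) * (Q.factorial : ℝ) ^ σ := by
        refine h8.trans ?_
        have h10 : ∏ i ∈ Finset.range σ, L.getD i 0 ≤ top σ (L : Multiset ℕ) * Q.factorial ^ σ :=
          h5.trans (Nat.mul_le_mul_right _ h7)
        exact_mod_cast h10
      rw [← mul_pow, div_mul_eq_mul_div, div_pow, div_le_iff₀ (by positivity)]
      exact h9
    rw [if_neg htop, if_neg hA, if_neg hB]
    norm_num
  refine h3.trans ?_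
  rw [E_add]
  linarith

end RandomCA
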