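import Mathlib
import Pool.Agent.Lib.MP_eab41b_pr.R9b

/-! The limit law is concentrated on the positive numbers. -/

open MeasureTheory Filter Topology Function
open scoped NNReal ENNReal

namespace RandomCA

theorem exists_x0 (ε : ℝ) (hε : 0 < ε) :
    ∃ x : ℝ, 0 < x ∧ ∀ᶠ n : ℕ in atTop, 1 - pp n ⌈x * √(n : ℝ)⌉₊ ≤ ε := by
  have h1 : Tendsto (fun x : ℝ => 1 - Real.exp (-x ^ 2 / 2)) (𝓝[>] 0) (𝓝 (1 - Real.exp (-(0:ℝ) ^ 2 / 2))) := by
    refine Tendsto.mono_left ?_ nhdsWithin_le_nhds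
    exact Continuous.tendsto (by fun_prop) 0
  have h2 : (1 : ℝ) - Real.exp (-(0:ℝ) ^ 2 / 2) < ε := by simpa using hε
  obtain ⟨x, hx1, hx2⟩ := ((h1.eventually (gt_mem_nhds h2)).and
    (eventually_mem_nhdsWithin)).exists
  have hx0 : 0 < x := hx2
  refine ⟨x, hx0, ?_⟩
  have h3 := (pp_tendsto x hx0.le).const_sub 1
  filter_upwards [h3.eventually (gt_mem_nhds hx1)] with n hn
  exact hn.le

theorem lower_tail (σ : ℕ) (hσ : 1 ≤ σ) (ε : ℝ) (hε : 0 < ε) :
    ∃ δ : ℝ, 0 < δ ∧ ∀ᶠ n : ℕ in atTop,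
      ((law 1 σ (n + 2) : Measure ℝ) {x | x < δ}).toReal ≤ ε := by
  classical
  obtain ⟨c, hc, k₀, hk₀⟩ := E_top_small σ hσ (ε / 2) (half_pos hε)
  obtain ⟨x, hx, hx'⟩ := exists_x0 (ε / 2) (half_pos hε)
  refine ⟨c * x ^ σ, by positivity, ?_⟩
  have h1 : ∀ᶠ n : ℕ in atTop, (k₀ : ℝ) ≤ x * √(n : ℝ) :=
    ((Real.tendsto_sqrt_atTop.comp tendsto_natCast_atTop_atTop).const_mul_atTop hx).eventually
      (eventually_ge_atTop _)
  filter_upwards [(tendsto_add_atTop_nat 2).eventually (hx'.and h1)] with n hn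
  obtain ⟨hn1, hn2⟩ := hn
  set N := n + 2 with hN
  have hN1 : 1 ≤ N := by omega
  have hN0 : (0 : ℝ) < N := by exact_mod_cast hN1
  have hs : 0 < √(N : ℝ) := Real.sqrt_pos.2 hN0
  rw [law_apply 1 σ N {y | y < c * x ^ σ} measurableSet_Iio, card_rule, div_le_iff₀ (by positivity)]
  -- compare with the sum over maps
  have hcard : (Nat.card {f : (Fin 1 → Fin N) → Fin N //
      (maxPeriod f σ : ℝ) / (N : ℝ) ^ ((σ : ℝ) / 2) ∈ {y | y < c * x ^ σ}} : ℝ) ≤
      ∑ g : Fin N → Fin N, if (top σ (lens g) : ℝ) < c * x ^ σ * (N : ℝ) ^ ((σ : ℝ) / 2)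
        then (1 : ℝ) else 0 := by
    rw [Finset.sum_boole]
    have h2 : Nat.card {f : (Fin 1 → Fin N) → Fin N //
      (maxPeriod f σ : ℝ) / (N : ℝ) ^ ((σ : ℝ) / 2) ∈ {y | y < c * x ^ σ}} ≤
      Nat.card {g : Fin N → Fin N //
        (top σ (lens g) : ℝ) < c * x ^ σ * (N : ℝ) ^ ((σ : ℝ) / 2)} := by
      refine Nat.card_le_card_of_injective (fun f => ⟨ruleEquiv N f.1, ?_⟩) ?_
      · obtain ⟨f, hf⟩ := f
        have hf' : (maxPeriod f σ : ℝ) / (N : ℝ) ^ ((σ : ℝ) / 2) < c * x ^ σ := hf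
        rw [div_lt_iff₀ (by positivity)] at hf'
        refine lt_of_le_of_lt ?_ hf'
        exact_mod_cast (maxPeriod_bounds f σ hσ).1
      · intro f f' h
        exact Subtype.ext ((ruleEquiv N).injective (congrArg Subtype.val h))
    rw [Nat.card_eq_fintype_card (α := {g : Fin N → Fin N //
        (top σ (lens g) : ℝ) < c * x ^ σ * (N : ℝ) ^ ((σ : ℝ) / 2)}), Fintype.card_subtype] at h2
    exact_mod_cast h2
  refine hcard.trans ?_
  rw [sum_lens fun M => if (top σ M : ℝ) < c * x ^ σ * (N : ℝ) ^ ((σ : ℝ) / 2) then (1 : ℝ) else 0]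
  have hpt : ∀ g : Fin N → Fin N,
      E (cycN g) (fun L => if (top σ (L : Multiset ℕ) : ℝ) < c * x ^ σ * (N : ℝ) ^ ((σ : ℝ) / 2)
        then (1 : ℝ) else 0) ≤ ε / 2 + (1 - if x * √(N : ℝ) ≤ cycN g then 1 else 0) := by
    intro g
    split_ifs with hg
    · rw [sub_self, add_zero]
      have h3 : k₀ ≤ cycN g := by
        exact_mod_cast hn2.trans hg
      refine le_trans ?_ (hk₀ _ h3)
      refine E_mono fun L _ _ => ?_
      have h4 : c * x ^ σ * (N : ℝ) ^ ((σ : ℝ) / 2) ≤ c * (cycN g : ℝ) ^ σ := by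
        rw [← sqrt_pow_eq, mul_assoc, ← mul_pow]
        exact mul_le_mul_of_nonneg_left (pow_le_pow_left₀ (by positivity) hg σ) hc.le
      by_cases h5 : (top σ (L : Multiset ℕ) : ℝ) < c * x ^ σ * (N : ℝ) ^ ((σ : ℝ) / 2)
      · rw [if_pos h5, if_pos (h5.trans_le h4)]
      · rw [if_neg h5]
        split_ifs <;> norm_num
    · have h3 : E (cycN g) (fun L => if (top σ (L : Multiset ℕ) : ℝ) <
          c * x ^ σ * (N : ℝ) ^ ((σ : ℝ) / 2) then (1 : ℝ) else 0) ≤ 1 := by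
        refine le_trans (E_mono fun L _ _ => ?_) (E_const (cycN g) 1).le
        split_ifs <;> norm_num
      linarith [half_pos hε]
  refine (Finset.sum_le_sum fun g _ => hpt g).trans ?_
  rw [Finset.sum_add_distrib, Finset.sum_const, Finset.sum_sub_distrib, Finset.sum_const,
    Finset.card_univ, Fintype.card_fun, Fintype.card_fin, Finset.sum_boole, nsmul_eq_mul,
    nsmul_eq_mul, mul_one]
  have h6 := card_ge N hN1 x
  rw [div_eq_iff (by positivity), Nat.card_eq_fintype_card, Fintype.card_subtype] at h6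
  rw [h6]
  push_cast
  have h7 : (0 : ℝ) < (N : ℝ) ^ N := by positivity
  nlinarith

theorem main_full (σ : ℕ) (hσ : 1 ≤ σ) :
    ∃ μ : ProbabilityMeasure ℝ, Tendsto (fun n : ℕ => law 1 σ (n + 2)) atTop (𝓝 μ) ∧
      (μ : Measure ℝ) (Set.Iic 0) = 0 := by
  obtain ⟨μ, hμ⟩ := main σ hσ
  refine ⟨μ, hμ, ?_⟩
  by_contra hne
  have hpos : 0 < ((μ : Measure ℝ) (Set.Iic 0)).toReal :=
    ENNReal.toReal_pos hne (measure_ne_top _ _)
  obtain ⟨δ, hδ, hev⟩ := lower_tail σ hσ (((μ : Measure ℝ) (Set.Iic 0)).toReal / 2) (half_pos hpos)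
  have h1 := ProbabilityMeasure.le_liminf_measure_open_of_tendsto hμ (isOpen_Iio (a := δ))
  have h2 : liminf (fun n : ℕ => (law 1 σ (n + 2) : Measure ℝ) (Set.Iio δ)) atTop ≤
      ENNReal.ofReal (((μ : Measure ℝ) (Set.Iic 0)).toReal / 2) := by
    refine liminf_le_of_frequently_le' (Eventually.frequently ?_)
    filter_upwards [hev] with n hn
    rw [ENNReal.le_ofReal_iff_toReal_le (measure_ne_top _ _) (by positivity)]
    exact hn
  have h3 : (μ : Measure ℝ) (Set.Iic 0) ≤ (μ : Measure ℝ) (Set.Iio δ) :=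
    measure_mono (Set.Iic_subset_Iio.2 hδ)
  have h4 := h3.trans (h1.trans h2)
  have h5 := ENNReal.toReal_mono ENNReal.ofReal_ne_top h4
  rw [ENNReal.toReal_ofReal (by positivity)] at h5
  linarith

end RandomCA
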